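import Pool.Agent.Y679.Dist

/-! **The limiting distribution of the quotient of the discriminant by the square of the
conductor** (helper679). -/

set_option autoImplicit false

namespace Pool.Agent.Y679.Par

open Finset Filter Topology Pool.Agent.TH498.AR Pool.Agent.H925R.Szpiro Pool.Agent.Y679.Cur

theorem Md_sub {lam : ℤ × ℤ → ℕ} (h1 : ∀ q : ℤ × ℤ, IsMin q.1 q.2 → FullS q.1 q.2 → 1 ≤ lam q)
    (N : ℝ) : Md lam N ⊆ All N := by
  rintro q ⟨a1, a2, a3⟩
  refine ⟨a1, a2, le_trans ?_ a3⟩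
  exact_mod_cast Nat.le_mul_of_pos_left _ (h1 q a1 a2)

theorem Md_fin {lam : ℤ × ℤ → ℕ} (h1 : ∀ q : ℤ × ℤ, IsMin q.1 q.2 → FullS q.1 q.2 → 1 ≤ lam q)
    {N : ℝ} (hN : 1 ≤ N) : (Md lam N).Finite := (all_finite N hN).subset (Md_sub h1 N)

/-- the splitting -/
theorem Md_split {lam : ℤ × ℤ → ℕ}
    (h1 : ∀ q : ℤ × ℤ, IsMin q.1 q.2 → FullS q.1 q.2 → 1 ≤ lam q) {N : ℝ} (hN : 1 ≤ N) (W : ℕ) :
    ((Md lam N).ncard : ℝ) = ∑ w ∈ Icc 1 W, ((Mw lam w N).ncard : ℝ) + ((Ml lam W N).ncard : ℝ) := by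
  classical
  have hfin := Md_fin h1 hN
  have hfw : ∀ w, (Mw lam w N).Finite := fun w => hfin.subset fun q hq => hq.1
  have hfl : (Ml lam W N).Finite := hfin.subset fun q hq => hq.1
  have hset : Md lam N = (((Icc 1 W).biUnion (fun w => (hfw w).toFinset) ∪ hfl.toFinset :
      Finset (ℤ × ℤ)) : Set (ℤ × ℤ)) := by
    ext q
    rw [mem_coe, mem_union, mem_biUnion, Set.Finite.mem_toFinset]
    constructor
    · intro hq
      obtain ⟨w, hw, hD⟩ := quot hq.1 hq.2.1
      rcases le_or_gt w W with h | h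
      · refine Or.inl ⟨w, mem_Icc.2 ⟨hw, h⟩, ?_⟩
        rw [Set.Finite.mem_toFinset]
        exact ⟨hq, hD⟩
      · refine Or.inr ⟨hq, ?_⟩
        have hc : (0 : ℝ) < condS q.1 q.2 := by exact_mod_cast condS_pos _ _
        have hDr : ((D q.1 q.2 : ℤ) : ℝ) = ((w : ℝ) * condS q.1 q.2) ^ 2 := by
          rw [hD]; push_cast; ring
        rw [hDr, abs_of_nonneg (by positivity)]
        have hWw : (W : ℝ) < w := by exact_mod_cast h
        exact pow_lt_pow_left₀ (mul_lt_mul_of_pos_right hWw hc) (by positivity) two_ne_zero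
    · rintro (⟨w, -, hq⟩ | hq)
      · rw [Set.Finite.mem_toFinset] at hq
        exact hq.1
      · exact hq.1
  have hdis : Disjoint ((Icc 1 W).biUnion (fun w => (hfw w).toFinset)) hfl.toFinset := by
    rw [disjoint_left]
    intro q hq hq'
    obtain ⟨w, hw, hq⟩ := mem_biUnion.1 hq
    rw [Set.Finite.mem_toFinset] at hq hq'
    have hc : (0 : ℝ) < condS q.1 q.2 := by exact_mod_cast condS_pos _ _
    have hDr : ((D q.1 q.2 : ℤ) : ℝ) = ((w : ℝ) * condS q.1 q.2) ^ 2 := by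
      rw [hq.2]; push_cast; ring
    have h2 := hq'.2
    rw [hDr, abs_of_nonneg (by positivity)] at h2
    have hWw : (w : ℝ) ≤ W := by exact_mod_cast (mem_Icc.1 hw).2
    have h3 : ((w : ℝ) * condS q.1 q.2) ^ 2 ≤ ((W : ℝ) * condS q.1 q.2) ^ 2 :=
      pow_le_pow_left₀ (by positivity) (mul_le_mul_of_nonneg_right hWw hc.le) 2
    linarith
  have hcard : (Md lam N).ncard = ∑ w ∈ Icc 1 W, (Mw lam w N).ncard + (Ml lam W N).ncard := by
    conv_lhs => rw [hset]
    rw [Set.ncard_coe_finset, card_union_of_disjoint hdis, card_biUnion]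
    · congr 1
      · refine sum_congr rfl fun w _ => ?_
        exact (Set.ncard_eq_toFinset_card _ (hfw w)).symm
      · exact (Set.ncard_eq_toFinset_card _ hfl).symm
    · intro w _ w' _ hne
      rw [Function.onFun, disjoint_left]
      intro q hq hq'
      rw [Set.Finite.mem_toFinset] at hq hq'
      apply hne
      have h2 : ((w * condS q.1 q.2 : ℕ) : ℤ) ^ 2 = ((w' * condS q.1 q.2 : ℕ) : ℤ) ^ 2 :=
        hq.2.symm.trans hq'.2
      have h3 : (w * condS q.1 q.2) ^ 2 = (w' * condS q.1 q.2) ^ 2 := by exact_mod_cast h2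
      have h4 := Nat.pow_left_injective (by norm_num : 2 ≠ 0) h3
      exact Nat.eq_of_mul_eq_mul_right (condS_pos _ _) h4
  rw [hcard]
  push_cast
  rfl

/-- **The limiting distribution.** -/
theorem dist {lam : ℤ × ℤ → ℕ} (hl : Fac lam) : ∃ (K : ℝ) (κ : ℕ → ℝ), 0 < K ∧ (∀ w, 0 ≤ κ w) ∧
    HasSum κ K ∧
    Tendsto (fun N : ℝ => ((Md lam N).ncard : ℝ) / N ^ ((2 : ℝ) / 3)) atTop (𝓝 K) ∧
    ∀ w, Tendsto (fun N : ℝ => ((Mw lam w N).ncard : ℝ) / N ^ ((2 : ℝ) / 3)) atTop (𝓝 (κ w)) := by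
  classical
  have hlam : ∀ q : ℤ × ℤ, IsMin q.1 q.2 → FullS q.1 q.2 → 1 ≤ lam q :=
    fun q a b => (hl.1 q a b).1
  have hex : ∀ w : ℕ, ∃ κ : ℝ, 0 ≤ κ ∧
      Tendsto (fun N : ℝ => ((Mw lam w N).ncard : ℝ) / N ^ ((2 : ℝ) / 3)) atTop (𝓝 κ) := by
    intro w
    rcases Nat.eq_zero_or_pos w with rfl | hw
    · refine ⟨0, le_rfl, ?_⟩
      have : ∀ N : ℝ, Mw lam 0 N = ∅ := by
        intro N
        rw [Set.eq_empty_iff_forall_notMem]
        rintro q ⟨hq, hD⟩
        rw [zero_mul] at hD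
        exact hq.1.1 (by rw [hD]; norm_num)
      simp only [this, Set.ncard_empty, Nat.cast_zero, zero_div]
      exact tendsto_const_nhds
    · exact Mw_limit hl hw
  choose κ hκ0 hκ using hex
  obtain ⟨η, C, hη, hC, htail⟩ := Ml_le (σ := 1 / 4) (by norm_num) (by norm_num)
  have htail' := htail lam hlam
  -- the partial sums
  obtain ⟨T, hT⟩ : ∃ T : ℝ → ℝ, T = fun N => ((Md lam N).ncard : ℝ) / N ^ ((2 : ℝ) / 3) :=
    ⟨_, rfl⟩
  obtain ⟨F, hF⟩ : ∃ F : ℕ → ℝ → ℝ, F = fun W N =>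
      ∑ w ∈ Icc 1 W, ((Mw lam w N).ncard : ℝ) / N ^ ((2 : ℝ) / 3) := ⟨_, rfl⟩
  have hFlim : ∀ W, Tendsto (F W) atTop (𝓝 (∑ w ∈ Icc 1 W, κ w)) := by
    intro W
    rw [hF]
    exact tendsto_finsetSum _ fun w _ => hκ w
  have hlow : ∀ W : ℕ, ∀ N : ℝ, 1 ≤ N → F W N ≤ T N := by
    intro W N hN
    rw [hF, hT]
    simp only
    rw [Md_split hlam hN W, ← sum_div]
    refine div_le_div_of_nonneg_right ?_ (by positivity)
    have : (0 : ℝ) ≤ ((Ml lam W N).ncard : ℝ) := Nat.cast_nonneg _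
    linarith
  have hupp : ∀ W : ℕ, 1 ≤ W → ∀ N : ℝ, 1 ≤ N →
      T N ≤ F W N + C * ((W : ℝ) ^ (-(1 / 4) : ℝ) + N ^ (-η)) := by
    intro W hW N hN
    have hN0 : 0 < N := by linarith
    have hNp : 0 < N ^ ((2 : ℝ) / 3) := by positivity
    rw [hF, hT]
    simp only
    rw [Md_split hlam hN W, add_div, ← sum_div]
    refine add_le_add le_rfl ?_
    rw [div_le_iff₀ hNp]
    refine (htail' N W hN (by exact_mod_cast hW)).trans (le_of_eq ?_)
    have : N ^ (2 / 3 - η) = N ^ (-η) * N ^ ((2 : ℝ) / 3) := by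
      rw [← Real.rpow_add hN0]
      congr 1
      ring
    rw [this]
    ring
  have hbd : ∀ W : ℕ, ∑ w ∈ Icc 1 W, κ w ≤ κ 1 + 2 * C := by
    intro W
    have h1 : Tendsto (fun N : ℝ => F 1 N + 2 * C) atTop (𝓝 (κ 1 + 2 * C)) := by
      have := (hFlim 1).add_const (2 * C)
      simpa using this
    refine le_of_tendsto_of_tendsto (hFlim W) h1 ?_
    filter_upwards [eventually_ge_atTop 1] with N hN
    refine (hlow W N hN).trans ((hupp 1 le_rfl N hN).trans ?_)
    have h2 : N ^ (-η) ≤ 1 := Real.rpow_le_one_of_one_le_of_nonpos hN (by linarith)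
    have h3 : ((1 : ℕ) : ℝ) ^ (-(1 / 4) : ℝ) = 1 := by simp
    rw [h3]
    have := mul_le_mul_of_nonneg_left h2 hC.le
    linarith
  have hsum : Summable κ := by
    refine summable_of_sum_range_le (c := κ 0 + (κ 1 + 2 * C)) hκ0 fun n => ?_
    have h1 : ∑ w ∈ range n, κ w ≤ κ 0 + ∑ w ∈ Icc 1 n, κ w := by
      have h2 : range n ⊆ insert 0 (Icc 1 n) := by
        intro w hw
        rw [mem_range] at hw
        rw [mem_insert, mem_Icc]
        omega
      refine (sum_le_sum_of_subset_of_nonneg h2 fun w _ _ => hκ0 w).trans (le_of_eq ?_)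
      rw [sum_insert (by simp)]
    exact h1.trans (add_le_add le_rfl (hbd n))
  have hκz : κ 0 = 0 := by
    have : ∀ N : ℝ, Mw lam 0 N = ∅ := by
      intro N
      rw [Set.eq_empty_iff_forall_notMem]
      rintro q ⟨hq, hD⟩
      rw [zero_mul] at hD
      exact hq.1.1 (by rw [hD]; norm_num)
    have h0 := hκ 0
    simp only [this, Set.ncard_empty, Nat.cast_zero, zero_div] at h0
    exact tendsto_nhds_unique h0 tendsto_const_nhds
  obtain ⟨K, hK⟩ : ∃ K, K = ∑' w, κ w := ⟨_, rfl⟩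
  have hHS : HasSum κ K := by rw [hK]; exact hsum.hasSum
  have hpart : Tendsto (fun W : ℕ => ∑ w ∈ Icc 1 W, κ w) atTop (𝓝 K) := by
    have h1 : Tendsto (fun W : ℕ => ∑ w ∈ range (W + 1), κ w) atTop (𝓝 K) :=
      hHS.tendsto_sum_nat.comp (tendsto_add_atTop_nat 1)
    refine h1.congr fun W => ?_
    have : range (W + 1) = insert 0 (Icc 1 W) := by
      ext w
      rw [mem_range, mem_insert, mem_Icc]
      omega
    rw [this, sum_insert (by simp), hκz, zero_add]
  have hlimT : Tendsto T atTop (𝓝 K) := by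
    rw [Metric.tendsto_atTop]
    intro ε hε
    have h1 : Tendsto (fun W : ℕ => C * (W : ℝ) ^ (-(1 / 4) : ℝ)) atTop (𝓝 (C * 0)) :=
      ((tendsto_rpow_neg_atTop (by norm_num : (0 : ℝ) < 1 / 4)).comp
        tendsto_natCast_atTop_atTop).const_mul C
    rw [mul_zero] at h1
    have h2 := h1.eventually (eventually_le_nhds (by positivity : (0 : ℝ) < ε / 8))
    have h3 := (Metric.tendsto_nhds.1 hpart) (ε / 8) (by positivity)
    obtain ⟨W, hW2, hW3, hW1⟩ := (h2.and (h3.and (eventually_ge_atTop 1))).exists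
    have h4 := (Metric.tendsto_nhds.1 (hFlim W)) (ε / 8) (by positivity)
    have h5 : Tendsto (fun N : ℝ => C * N ^ (-η)) atTop (𝓝 (C * 0)) :=
      (tendsto_rpow_neg_atTop hη).const_mul C
    rw [mul_zero] at h5
    have h6 := h5.eventually (eventually_le_nhds (by positivity : (0 : ℝ) < ε / 8))
    obtain ⟨N0, hN0⟩ := eventually_atTop.1 (h4.and (h6.and (eventually_ge_atTop 1)))
    refine ⟨N0, fun N hN => ?_⟩
    obtain ⟨k4, k6, k1⟩ := hN0 N hN
    have l1 := hlow W N k1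
    have l2 := hupp W hW1 N k1
    rw [Real.dist_eq, abs_lt] at hW3 k4
    rw [Real.dist_eq, abs_lt]
    constructor
    · linarith [hW3.1, k4.1]
    · linarith [hW3.2, k4.2]
  have hKpos : 0 < K := by
    have h1 : ∀ N : ℝ, 576 * 62208 ≤ N → 1 / 600 * (1 / 62208 : ℝ) ^ ((2 : ℝ) / 3) ≤ T N := by
      intro N hN
      have hN0 : 0 < N := by linarith
      have h2 := all_lower (N := N / 62208) (by rw [le_div_iff₀ (by norm_num)]; exact hN)
      have h3 : All (N / 62208) ⊆ Md lam N := by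
        rintro q ⟨a1, a2, a3⟩
        refine ⟨a1, a2, ?_⟩
        have h4 := (hl.1 q a1 a2).2
        have h5 : (lam q : ℝ) ≤ 62208 := by exact_mod_cast h4
        push_cast
        calc (lam q : ℝ) * condS q.1 q.2 ≤ 62208 * (N / 62208) :=
              mul_le_mul h5 a3 (Nat.cast_nonneg _) (by norm_num)
          _ = N := by ring
      have h4 := Set.ncard_le_ncard h3 (Md_fin hlam (by linarith))
      have h5 : 1 / 600 * (N / 62208) ^ ((2 : ℝ) / 3) ≤ ((Md lam N).ncard : ℝ) :=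
        h2.trans (by exact_mod_cast h4)
      rw [hT]
      simp only
      rw [le_div_iff₀ (by positivity)]
      refine le_trans (le_of_eq ?_) h5
      rw [div_eq_mul_one_div N, Real.mul_rpow hN0.le (by norm_num)]
      ring
    refine lt_of_lt_of_le (b := 1 / 600 * (1 / 62208 : ℝ) ^ ((2 : ℝ) / 3)) (by positivity) ?_
    refine ge_of_tendsto hlimT ?_
    filter_upwards [eventually_ge_atTop (576 * 62208)] with N hN
    exact h1 N hN
  refine ⟨K, κ, hKpos, hκ0, hHS, ?_, hκ⟩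
  rw [hT] at hlimT
  exact hlimT

end Pool.Agent.Y679.Par
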