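import Pool.Agent.Y679.CurAll

/-! **Elliptic curves over `ℚ` with full rational 2-torsion, by conductor: both exceptional sets**,
from the statement for triples (helper679). -/

set_option autoImplicit false

namespace Pool.Agent.Y679.Cur

open Finset Pool.Agent.TH867.SR Pool.Agent.TH867.EC Pool.Agent.H925R.Szpiro

theorem cond_one (a b : ℤ) : (1 : ℝ) ≤ condS a b := by exact_mod_cast condS_pos a b

/-- **the upper exceptional set** -/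
theorem up (hAA : StmtAA) {δ : ℝ} (hδ : 0 < δ) : ∃ η : ℝ, 0 < η ∧ ∃ C : ℝ, 0 < C ∧
    ∀ N : ℝ, 1 ≤ N → ((Up δ N).ncard : ℝ) ≤ C * N ^ (2 / 3 - η) := by
  classical
  obtain ⟨δ', hδ'⟩ : ∃ δ', δ' = min δ 1 := ⟨_, rfl⟩
  have hδ0 : 0 < δ' := by rw [hδ']; exact lt_min hδ one_pos
  have hδ1 : δ' ≤ 1 := by rw [hδ']; exact min_le_right _ _
  have hδ2 : δ' ≤ δ := by rw [hδ']; exact min_le_left _ _
  obtain ⟨κ, hκ0, hκ1, C1, hC1, hmain⟩ := up_main hAA hδ0 hδ1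
  obtain ⟨C2, hC2, hcur⟩ := cur_fin (ε := κ / 6) (by positivity)
  obtain ⟨N0, hN0⟩ : ∃ N0, N0 = Real.exp (200 / δ') := ⟨_, rfl⟩
  have hN01 : 1 ≤ N0 := by rw [hN0]; exact Real.one_le_exp (by positivity)
  refine ⟨κ / 20, by positivity, C1 + C2 + C2 * N0 ^ (2 / 3 + κ / 6), by positivity,
    fun N hN => ?_⟩
  have hNp : 0 < N := by linarith
  obtain ⟨hfin, hc⟩ := hcur N hN
  have hsubA : Up δ N ⊆ {q : ℤ × ℤ | IsMin q.1 q.2 ∧ FullS q.1 q.2 ∧ (condS q.1 q.2 : ℝ) ≤ N} :=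
    fun q hq => ⟨hq.1, hq.2.1, hq.2.2.1⟩
  have hUfin : (Up δ N).Finite := hfin.subset hsubA
  have hP1 : 1 ≤ N ^ (2 / 3 - κ / 20) := Real.one_le_rpow hN (by linarith)
  rcases lt_or_ge N N0 with hsm | hbig
  · have h1 : ((Up δ N).ncard : ℝ) ≤ C2 * N ^ (2 / 3 + κ / 6) := by
      refine le_trans ?_ hc
      exact_mod_cast Set.ncard_le_ncard hsubA hfin
    have h2 : N ^ (2 / 3 + κ / 6) ≤ N0 ^ (2 / 3 + κ / 6) :=
      Real.rpow_le_rpow hNp.le hsm.le (by positivity)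
    have h3 := mul_le_mul_of_nonneg_left h2 hC2.le
    have h4 : 0 < C2 * N0 ^ (2 / 3 + κ / 6) := by positivity
    calc ((Up δ N).ncard : ℝ) ≤ (C1 + C2 + C2 * N0 ^ (2 / 3 + κ / 6)) * 1 := by linarith
      _ ≤ _ := mul_le_mul_of_nonneg_left hP1 (by positivity)
  · -- large `N`
    obtain ⟨S, hS⟩ : ∃ S, S = hUfin.toFinset.filter
      fun q : ℤ × ℤ => N ^ (1 - κ) < (condS q.1 q.2 : ℝ) := ⟨_, rfl⟩
    obtain ⟨S', hS'⟩ : ∃ S', S' = hUfin.toFinset.filter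
      fun q : ℤ × ℤ => ¬ N ^ (1 - κ) < (condS q.1 q.2 : ℝ) := ⟨_, rfl⟩
    have hcard : (Up δ N).ncard = S.card + S'.card := by
      rw [Set.ncard_eq_toFinset_card _ hUfin, hS, hS']
      exact (Finset.card_filter_add_card_filter_not _).symm
    have h1 := hmain N (by rw [← hN0]; exact hbig) S (by
      intro q hq
      rw [hS, mem_filter, Set.Finite.mem_toFinset] at hq
      obtain ⟨⟨q1, q2, q3, q4⟩, q5⟩ := hq
      refine ⟨q1, q2, q3, q5, lt_of_le_of_lt ?_ q4⟩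
      exact Real.rpow_le_rpow_of_exponent_le (cond_one _ _) (by linarith))
    have hN1 : 1 ≤ N ^ (1 - κ) := Real.one_le_rpow hN (by linarith)
    obtain ⟨hfin', hc'⟩ := hcur (N ^ (1 - κ)) hN1
    have h2 : (S'.card : ℝ) ≤ C2 * N ^ (2 / 3 - κ / 20) := by
      have h3 : ((S' : Finset (ℤ × ℤ)) : Set (ℤ × ℤ)) ⊆
          {q : ℤ × ℤ | IsMin q.1 q.2 ∧ FullS q.1 q.2 ∧ (condS q.1 q.2 : ℝ) ≤ N ^ (1 - κ)} := by
        intro q hq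
        rw [mem_coe, hS', mem_filter, Set.Finite.mem_toFinset, not_lt] at hq
        exact ⟨hq.1.1, hq.1.2.1, hq.2⟩
      have h4 := Set.ncard_le_ncard h3 hfin'
      rw [Set.ncard_coe_finset] at h4
      have h5 : (S'.card : ℝ) ≤ C2 * (N ^ (1 - κ)) ^ (2 / 3 + κ / 6) :=
        le_trans (by exact_mod_cast h4) hc'
      refine h5.trans (mul_le_mul_of_nonneg_left ?_ hC2.le)
      rw [← Real.rpow_mul hNp.le]
      refine Real.rpow_le_rpow_of_exponent_le hN ?_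
      nlinarith
    have h6 : ((Up δ N).ncard : ℝ) = S.card + S'.card := by exact_mod_cast hcard
    have h7 : 0 ≤ C2 * N0 ^ (2 / 3 + κ / 6) * N ^ (2 / 3 - κ / 20) := by positivity
    rw [h6]
    calc (S.card : ℝ) + S'.card ≤ C1 * N ^ (2 / 3 - κ / 20) + C2 * N ^ (2 / 3 - κ / 20) :=
          add_le_add h1 h2
      _ ≤ C1 * N ^ (2 / 3 - κ / 20) + C2 * N ^ (2 / 3 - κ / 20) +
          C2 * N0 ^ (2 / 3 + κ / 6) * N ^ (2 / 3 - κ / 20) := by linarith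
      _ = _ := by ring

theorem sum_inv_sq (B : ℕ) : ∑ n ∈ Icc 1 B, ((n : ℝ) ^ 2)⁻¹ ≤ ∑' n : ℕ, ((n : ℝ) ^ 2)⁻¹ :=
  (Real.summable_nat_pow_inv.2 (by norm_num)).sum_le_tsum _ (fun n _ => by positivity)

/-- **the lower exceptional set** -/
theorem lo {δ : ℝ} (hδ : 0 < δ) : ∃ η : ℝ, 0 < η ∧ ∃ C : ℝ, 0 < C ∧
    ∀ N : ℝ, 1 ≤ N → ((Lo δ N).ncard : ℝ) ≤ C * N ^ (2 / 3 - η) := by
  classical
  obtain ⟨δ', hδ'⟩ : ∃ δ', δ' = min δ 1 := ⟨_, rfl⟩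
  have hδ0 : 0 < δ' := by rw [hδ']; exact lt_min hδ one_pos
  have hδ1 : δ' ≤ 1 := by rw [hδ']; exact min_le_right _ _
  have hδ2 : δ' ≤ δ := by rw [hδ']; exact min_le_left _ _
  obtain ⟨Z, hZ⟩ : ∃ Z : ℝ, Z = ∑' n : ℕ, ((n : ℝ) ^ 2)⁻¹ := ⟨_, rfl⟩
  have hZ0 : 0 ≤ Z := by rw [hZ]; exact tsum_nonneg fun n => by positivity
  refine ⟨δ' / 3, by positivity, 24 * (Z * Z) + 1, by positivity, fun N hN => ?_⟩
  have hNp : 0 < N := by linarith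
  obtain ⟨Y, hY⟩ : ∃ Y : ℝ, Y = N ^ (1 - δ' / 2) := ⟨_, rfl⟩
  have hY0 : 0 < Y := by rw [hY]; positivity
  obtain ⟨B, hB⟩ : ∃ B : ℕ, B = ⌊Y⌋₊ := ⟨_, rfl⟩
  obtain ⟨P, hP⟩ : ∃ P : ℕ × ℕ → Finset (ℕ × ℕ), P = fun g : ℕ × ℕ =>
    ((range (B + 1)) ×ˢ (range (B + 1))).filter fun p => 0 < p.1 ∧ p.1 ≤ p.2 ∧
      (p.1 : ℝ) * (p.2 : ℝ) ^ 2 ≤ Y / ((g.1 : ℝ) * g.2) ^ 3 := ⟨_, rfl⟩
  obtain ⟨G, hG⟩ : ∃ G : Finset (ℕ × (ℕ × (ℕ × ℕ))), G = (Icc 1 B ×ˢ Icc 1 B).biUnion fun g =>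
    (P g).image fun p => (g.1, (g.2, p)) := ⟨_, rfl⟩
  have hsub : Lo δ N ⊆ (((A12 ×ˢ G).image mdl' : Finset (ℤ × ℤ)) : Set (ℤ × ℤ)) := by
    rintro ⟨a, b⟩ ⟨hmin, hf, hN', hlow⟩
    simp only at hmin hf hN' hlow
    obtain ⟨s, i, j, g₁, g₂, u, v, hs, hi, hj, hg1, hg2, hu, hv, huv, hcop, hdvd, h3a, hD, hcond,
      hmdl⟩ := decomp hmin hf
    have r2 : (1 : ℝ) ≤ g₁ := by exact_mod_cast hg1
    have r3 : (1 : ℝ) ≤ g₂ := by exact_mod_cast hg2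
    have r4 : (1 : ℝ) ≤ u := by exact_mod_cast hu
    have r5 : (1 : ℝ) ≤ v := by exact_mod_cast hv
    have hgg : (1 : ℝ) ≤ (g₁ : ℝ) * g₂ := by nlinarith
    have huv2 : (1 : ℝ) ≤ (u : ℝ) * (v : ℝ) ^ 2 := by
      have : (1 : ℝ) ≤ (v : ℝ) ^ 2 := one_le_pow₀ r5
      nlinarith
    -- the size
    obtain ⟨w, hw⟩ : ∃ w : ℝ, w = ((g₁ : ℝ) * g₂) ^ 3 * ((u : ℝ) * (v : ℝ) ^ 2) := ⟨_, rfl⟩
    have hw0 : 0 < w := by rw [hw]; positivity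
    have hDw : w ^ 2 ≤ |((D a b : ℤ) : ℝ)| := by
      have e1 : ((D a b : ℤ) : ℝ) = ((2 : ℝ) ^ i * 3 ^ j * ((g₁ : ℝ) * g₂)) ^ 6 *
          ((u : ℝ) * v * (u + v)) ^ 2 := by
        rw [hD]; push_cast; ring
      have e0 : 0 ≤ ((2 : ℝ) ^ i * 3 ^ j * ((g₁ : ℝ) * g₂)) ^ 6 * ((u : ℝ) * v * (u + v)) ^ 2 := by
        positivity
      rw [e1, abs_of_nonneg e0]
      have e2 : (1 : ℝ) ≤ (2 : ℝ) ^ i * 3 ^ j := by
        have h1 : (1 : ℝ) ≤ (2 : ℝ) ^ i := one_le_pow₀ (by norm_num)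
        have h2 : (1 : ℝ) ≤ (3 : ℝ) ^ j := one_le_pow₀ (by norm_num)
        nlinarith
      have e3 : (g₁ : ℝ) * g₂ ≤ (2 : ℝ) ^ i * 3 ^ j * ((g₁ : ℝ) * g₂) := by
        have := mul_le_mul_of_nonneg_right e2 (by linarith : (0 : ℝ) ≤ (g₁ : ℝ) * g₂)
        linarith
      have e4 : (u : ℝ) * (v : ℝ) ^ 2 ≤ (u : ℝ) * v * (u + v) := by
        have : (u : ℝ) * v * (u + v) = (u : ℝ) * (v : ℝ) ^ 2 + (u : ℝ) ^ 2 * v := by ring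
        rw [this]
        have : 0 ≤ (u : ℝ) ^ 2 * v := by positivity
        linarith
      have e5 : ((g₁ : ℝ) * g₂) ^ 6 ≤ ((2 : ℝ) ^ i * 3 ^ j * ((g₁ : ℝ) * g₂)) ^ 6 :=
        pow_le_pow_left₀ (by positivity) e3 6
      have e6 : ((u : ℝ) * (v : ℝ) ^ 2) ^ 2 ≤ ((u : ℝ) * v * (u + v)) ^ 2 :=
        pow_le_pow_left₀ (by positivity) e4 2
      calc w ^ 2 = ((g₁ : ℝ) * g₂) ^ 6 * ((u : ℝ) * (v : ℝ) ^ 2) ^ 2 := by rw [hw]; ring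
        _ ≤ _ := mul_le_mul e5 e6 (by positivity) (by positivity)
    have hwY : w ≤ Y := by
      have e1 : w ^ 2 ≤ Y ^ 2 := by
        refine hDw.trans (hlow.le.trans ?_)
        have e2 : Y ^ 2 = N ^ (2 - δ') := by
          rw [hY, ← Real.rpow_natCast, ← Real.rpow_mul hNp.le]
          congr 1
          push_cast
          ring
        rw [e2]
        calc (condS a b : ℝ) ^ (2 - δ) ≤ (condS a b : ℝ) ^ (2 - δ') :=
              Real.rpow_le_rpow_of_exponent_le (cond_one _ _) (by linarith)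
          _ ≤ N ^ (2 - δ') := Real.rpow_le_rpow (Nat.cast_nonneg _) hN' (by linarith)
      exact (sq_le_sq₀ hw0.le hY0.le).1 e1
    have hggw : (g₁ : ℝ) * g₂ ≤ w := by
      rw [hw]
      have e1 : (g₁ : ℝ) * g₂ ≤ ((g₁ : ℝ) * g₂) ^ 3 := by
        calc (g₁ : ℝ) * g₂ = ((g₁ : ℝ) * g₂) ^ 1 := (pow_one _).symm
          _ ≤ ((g₁ : ℝ) * g₂) ^ 3 := pow_le_pow_right₀ hgg (by norm_num)
      have e2 : ((g₁ : ℝ) * g₂) ^ 3 * 1 ≤ ((g₁ : ℝ) * g₂) ^ 3 * ((u : ℝ) * (v : ℝ) ^ 2) :=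
        mul_le_mul_of_nonneg_left huv2 (by positivity)
      linarith
    have hgg3 : (1 : ℝ) ≤ ((g₁ : ℝ) * g₂) ^ 3 := one_le_pow₀ hgg
    have huvw : (u : ℝ) * (v : ℝ) ^ 2 ≤ w := by
      rw [hw]
      have e2 : 1 * ((u : ℝ) * (v : ℝ) ^ 2) ≤ ((g₁ : ℝ) * g₂) ^ 3 * ((u : ℝ) * (v : ℝ) ^ 2) :=
        mul_le_mul_of_nonneg_right hgg3 (by positivity)
      linarith
    have hvw : (v : ℝ) ≤ w := by
      refine le_trans ?_ huvw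
      have e1 : (v : ℝ) ≤ (v : ℝ) ^ 2 := by nlinarith
      have e2 : 1 * (v : ℝ) ^ 2 ≤ (u : ℝ) * (v : ℝ) ^ 2 :=
        mul_le_mul_of_nonneg_right r4 (by positivity)
      linarith
    have huv' : (u : ℝ) ≤ v := by exact_mod_cast huv
    have hg1w : (g₁ : ℝ) ≤ w := by
      refine le_trans ?_ hggw
      nlinarith
    have hg2w : (g₂ : ℝ) ≤ w := by
      refine le_trans ?_ hggw
      nlinarith
    have hBw : ∀ n : ℕ, (n : ℝ) ≤ w → n ≤ B := fun n hn => by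
      rw [hB]
      exact Nat.le_floor (hn.trans hwY)
    rw [mem_coe, mem_image]
    refine ⟨((s, i, j), (g₁, (g₂, (u, v)))), ?_, hmdl⟩
    rw [mem_product]
    refine ⟨?_, ?_⟩
    · unfold A12
      rw [mem_product, mem_product]
      exact ⟨hs, mem_range.mpr hi, mem_range.mpr hj⟩
    rw [hG, mem_biUnion]
    refine ⟨(g₁, g₂), mem_product.2 ⟨mem_Icc.2 ⟨hg1, hBw _ hg1w⟩, mem_Icc.2 ⟨hg2, hBw _ hg2w⟩⟩,
      mem_image.2 ⟨(u, v), ?_, rfl⟩⟩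
    rw [hP, mem_filter, mem_product, mem_range, mem_range]
    refine ⟨⟨Nat.lt_succ_of_le (hBw _ (huv'.trans hvw)), Nat.lt_succ_of_le (hBw _ hvw)⟩, hu, huv,
      ?_⟩
    simp only
    rw [le_div_iff₀ (by positivity)]
    calc (u : ℝ) * (v : ℝ) ^ 2 * ((g₁ : ℝ) * g₂) ^ 3 = w := by rw [hw]; ring
      _ ≤ Y := hwY
  obtain ⟨-, hcard⟩ := count_of hsub
  have hPc : ∀ g ∈ Icc 1 B ×ˢ Icc 1 B, ((P g).card : ℝ) ≤
      2 * N ^ (2 / 3 - δ' / 3) * (((g.1 : ℝ) ^ 2)⁻¹ * ((g.2 : ℝ) ^ 2)⁻¹) := by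
    intro g hg
    rw [mem_product] at hg
    have g1 : (1 : ℝ) ≤ g.1 := by exact_mod_cast (mem_Icc.1 hg.1).1
    have g2 : (1 : ℝ) ≤ g.2 := by exact_mod_cast (mem_Icc.1 hg.2).1
    have h1 := pairs_small (Y / ((g.1 : ℝ) * g.2) ^ 3) (by positivity) (P g) (by
      intro p hp
      rw [hP, mem_filter] at hp
      exact hp.2)
    refine h1.trans (le_of_eq ?_)
    have hgg0 : (0 : ℝ) ≤ (g.1 : ℝ) * g.2 := by positivity
    have e1 : (((g.1 : ℝ) * g.2) ^ 3) ^ ((2 : ℝ) / 3) = ((g.1 : ℝ) * g.2) ^ 2 := by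
      rw [← Real.rpow_natCast, ← Real.rpow_mul hgg0, ← Real.rpow_natCast]
      norm_num
    have e2 : Y ^ ((2 : ℝ) / 3) = N ^ (2 / 3 - δ' / 3) := by
      rw [hY, ← Real.rpow_mul hNp.le]
      congr 1
      ring
    rw [Real.div_rpow hY0.le (by positivity), e1, e2, mul_pow, div_eq_mul_inv, mul_inv]
    ring
  have hGc : (G.card : ℝ) ≤ 2 * N ^ (2 / 3 - δ' / 3) * (Z * Z) := by
    have h1 : (G.card : ℝ) ≤ ∑ g ∈ Icc 1 B ×ˢ Icc 1 B, ((P g).card : ℝ) := by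
      rw [hG]
      have h2 := Finset.card_biUnion_le (s := Icc 1 B ×ˢ Icc 1 B)
        (t := fun g : ℕ × ℕ => (P g).image fun p => (g.1, (g.2, p)))
      have h3 : ∑ g ∈ Icc 1 B ×ˢ Icc 1 B, ((P g).image fun p => (g.1, (g.2, p))).card ≤
          ∑ g ∈ Icc 1 B ×ˢ Icc 1 B, (P g).card :=
        Finset.sum_le_sum fun g _ => card_image_le
      exact_mod_cast h2.trans h3
    refine h1.trans ((Finset.sum_le_sum hPc).trans ?_)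
    have h4 : ∑ g ∈ Icc 1 B ×ˢ Icc 1 B, (((g.1 : ℝ) ^ 2)⁻¹ * ((g.2 : ℝ) ^ 2)⁻¹) =
        (∑ n ∈ Icc 1 B, ((n : ℝ) ^ 2)⁻¹) * (∑ n ∈ Icc 1 B, ((n : ℝ) ^ 2)⁻¹) := by
      rw [Finset.sum_product, Finset.sum_mul_sum]
    have h5 := sum_inv_sq B
    rw [← hZ] at h5
    have h6 : 0 ≤ ∑ n ∈ Icc 1 B, ((n : ℝ) ^ 2)⁻¹ := Finset.sum_nonneg fun n _ => by positivity
    rw [← Finset.mul_sum, h4]
    exact mul_le_mul_of_nonneg_left (mul_le_mul h5 h5 h6 hZ0) (by positivity)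
  have hNq : 0 ≤ N ^ (2 / 3 - δ' / 3) := by positivity
  calc ((Lo δ N).ncard : ℝ) ≤ 12 * G.card := hcard
    _ ≤ 12 * (2 * N ^ (2 / 3 - δ' / 3) * (Z * Z)) := by linarith
    _ ≤ 12 * (2 * N ^ (2 / 3 - δ' / 3) * (Z * Z)) + N ^ (2 / 3 - δ' / 3) := by linarith
    _ = _ := by ring

end Pool.Agent.Y679.Cur
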