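import Pool.Agent.Y911.AA.Main
import Pool.Agent.Y679.CurFin

/-! The statement for triples, from `Y911.AA.main` (helper679). -/

set_option autoImplicit false

namespace Pool.Agent.Y679.Cur

open Finset Pool.Agent.TH867.SR Pool.Agent.Results.MP_1ea25c_nt.AlmostAllTriples

theorem stmtAA : StmtAA := by
  intro δ hδ
  obtain ⟨κ, -, -, h⟩ := Pool.Agent.Y911.AA.main
  obtain ⟨ν, C, hν, hC, h1⟩ := h (1 / 3 + δ) (by linarith)
  refine ⟨ν, hν, C, hC, fun X hX F hF => ?_⟩
  refine le_trans ?_ (h1 X hX)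
  have hX0 : 0 < X := by linarith
  have e0 : ∀ t ∈ F, toT (t 0, t 1) = t := by
    intro t ht
    have hT := (hF t ht).1
    have h2 : t 2 = t 0 + t 1 := hT.add.symm
    funext i
    fin_cases i
    · rfl
    · rfl
    · exact h2.symm
  have hinj : Set.InjOn (fun t : Fin 3 → ℕ => (t 0, t 1)) (F : Set (Fin 3 → ℕ)) := by
    intro s hs t ht hst
    rw [← e0 s hs, ← e0 t ht]
    simp only at hst
    rw [hst]
  have hfin : (Pool.Agent.Y911.AA.viol (1 / 3 + δ) X).Finite :=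
    (Pool.Agent.Y911.AA.triples_finite' X).subset fun p hp => hp.1
  have h3 : ((F : Set (Fin 3 → ℕ)).ncard) ≤ (Pool.Agent.Y911.AA.viol (1 / 3 + δ) X).ncard := by
    refine Set.ncard_le_ncard_of_injOn (fun t : Fin 3 → ℕ => (t 0, t 1)) ?_ hinj hfin
    intro t ht
    have ht' : t ∈ F := ht
    obtain ⟨hT, h4, h5⟩ := hF t ht'
    have h2 : t 2 = t 0 + t 1 := hT.add.symm
    have hr : Real.log (rad3 (t 0, t 1)) = rr t 0 + rr t 1 + rr t 2 := by
      rw [← rr_sum hT, ← log_prod_primes fun q hq => Nat.prime_of_mem_primeFactors hq]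
      have : rad3 (t 0, t 1) = ∏ q ∈ (N3 t).primeFactors, q := by
        show radical (t 0 * t 1 * (t 0 + t 1)) = _
        rw [← h2]
        rfl
      rw [this]
    have hp0 : (0 : ℝ) < rad3 (t 0, t 1) := by exact_mod_cast rad3_pos _
    have hp1 : (1 : ℝ) ≤ rad3 (t 0, t 1) := by exact_mod_cast rad3_pos (t 0, t 1)
    have hpX : (rad3 (t 0, t 1) : ℝ) ≤ X := by
      rw [← Real.log_le_log_iff hp0 hX0, hr]
      exact h4
    refine ⟨⟨hT.pos, hT.le, hT.cop, hpX⟩, ?_⟩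
    have hc0 : (0 : ℝ) < ((t 0 + t 1 : ℕ) : ℝ) := by
      have : 0 < t 0 := hT.pos
      exact_mod_cast (by omega : 0 < t 0 + t 1)
    show (rad3 (t 0, t 1) : ℝ) ^ (1 / 3 + δ) ≤ ((t 0 + t 1 : ℕ) : ℝ)
    rw [← Real.log_le_log_iff (by positivity) hc0, Real.log_rpow hp0, ← h2]
    refine le_trans ?_ h5
    exact mul_le_mul_of_nonneg_left (Real.log_le_log hp0 hpX) (by linarith)
  rw [Set.ncard_coe_finset] at h3
  exact_mod_cast h3

end Pool.Agent.Y679.Cur
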