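import Pool.Agent.Y679.Lc

/-! **Full rational 2-torsion, by conductor: assembly** (helper679). -/

set_option autoImplicit false

namespace Pool.Agent.Y679.Par

open Finset Filter Topology Pool.Agent.TH498.AR Pool.Agent.H925R.Szpiro Pool.Agent.Y679.Cur

/-- the models of discriminant larger than `K * N₆ ^ 2` -/
def Mk (lam : ℤ × ℤ → ℕ) (K N : ℝ) : Set (ℤ × ℤ) :=
  {q | q ∈ Md lam N ∧ K * (condS q.1 q.2 : ℝ) ^ 2 < |((D q.1 q.2 : ℤ) : ℝ)|}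

theorem Mk_eq (lam : ℤ × ℤ → ℕ) {K : ℝ} (hK : 0 ≤ K) (N : ℝ) : Mk lam K N = Ml lam (Real.sqrt K) N := by
  unfold Mk Ml
  ext q
  simp only [Set.mem_ofPred_eq]
  rw [mul_pow, Real.sq_sqrt hK]

theorem Mk_le {σ : ℝ} (hσ : 0 < σ) (hσ1 : σ < 1 / 6) : ∃ η C : ℝ, 0 < η ∧ 0 < C ∧
    ∀ lam : ℤ × ℤ → ℕ, (∀ q : ℤ × ℤ, IsMin q.1 q.2 → FullS q.1 q.2 → 1 ≤ lam q) →
    ∀ N K : ℝ, 1 ≤ N → 1 ≤ K →
    ((Mk lam K N).ncard : ℝ) ≤ C * (K ^ (-σ) * N ^ ((2 : ℝ) / 3) + N ^ (2 / 3 - η)) := by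
  obtain ⟨η, C, hη, hC, h⟩ := Ml_le (σ := 2 * σ) (by linarith) (by linarith)
  refine ⟨η, C, hη, hC, fun lam hlam N K hN hK => ?_⟩
  have hK0 : 0 ≤ K := by linarith
  rw [Mk_eq lam hK0]
  have h1 := h lam hlam N (Real.sqrt K) hN (Real.one_le_sqrt.2 hK)
  have h2 : Real.sqrt K ^ (-(2 * σ)) = K ^ (-σ) := by
    rw [Real.sqrt_eq_rpow, ← Real.rpow_mul hK0]
    congr 1
    ring
  rwa [h2] at h1

theorem Mk_ge : ∃ c : ℝ, 0 < c ∧ ∀ lam : ℤ × ℤ → ℕ,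
    (∀ q : ℤ × ℤ, IsMin q.1 q.2 → FullS q.1 q.2 → 1 ≤ lam q ∧ lam q ≤ 62208) →
    ∀ N K : ℝ, 1 ≤ K → 2000000 * K ≤ N →
    c * (K ^ (-(1 / 6) : ℝ) * N ^ ((2 : ℝ) / 3)) ≤ ((Mk lam K N).ncard : ℝ) := by
  obtain ⟨c, hc, h⟩ := Ml_ge
  refine ⟨c, hc, fun lam hlam N K hK hN => ?_⟩
  have hK0 : 0 ≤ K := by linarith
  rw [Mk_eq lam hK0]
  have h1 := h lam hlam N (Real.sqrt K) (Real.one_le_sqrt.2 hK) (by rw [Real.sq_sqrt hK0]; exact hN)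
  have h2 : Real.sqrt K ^ (-(1 / 3) : ℝ) = K ^ (-(1 / 6) : ℝ) := by
    rw [Real.sqrt_eq_rpow, ← Real.rpow_mul hK0]
    congr 1
    norm_num
  rw [h2] at h1
  refine le_trans (le_of_eq ?_) h1
  ring

/-- the models violating the inequality with exponent `2 + δ` -/
theorem Up_le {δ : ℝ} (hδ : 0 < δ) : ∃ η C : ℝ, 0 < η ∧ 0 < C ∧
    ∀ lam : ℤ × ℤ → ℕ, (∀ q : ℤ × ℤ, IsMin q.1 q.2 → FullS q.1 q.2 → 1 ≤ lam q) →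
    ∀ N : ℝ, 1 ≤ N →
    (({q : ℤ × ℤ | q ∈ Md lam N ∧
      (condS q.1 q.2 : ℝ) ^ (2 + δ) < |((D q.1 q.2 : ℤ) : ℝ)|}.ncard : ℕ) : ℝ) ≤
      C * N ^ (2 / 3 - η) := by
  obtain ⟨η, hη, C, hC, h⟩ := up stmtAA hδ
  refine ⟨η, C, hη, hC, fun lam hlam N hN => ?_⟩
  refine le_trans ?_ (h N hN)
  have hfin : (Up δ N).Finite := (all_finite N hN).subset fun q hq => ⟨hq.1, hq.2.1, hq.2.2.1⟩
  have hsub : {q : ℤ × ℤ | q ∈ Md lam N ∧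
      (condS q.1 q.2 : ℝ) ^ (2 + δ) < |((D q.1 q.2 : ℤ) : ℝ)|} ⊆ Up δ N := by
    rintro q ⟨hq, hq2⟩
    obtain ⟨a1, a2, a3⟩ := Md_sub hlam N hq
    exact ⟨a1, a2, a3, lt_of_lt_of_le hq2 (disc_le a1 a2)⟩
  exact_mod_cast Set.ncard_le_ncard hsub hfin

end Pool.Agent.Y679.Par
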