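import Pool.Agent.TH867.EC.Heights

/-! Elliptic curves over `ℚ` with full rational 2-torsion: the parametrisation by pairs and
twists (helper679). -/

set_option autoImplicit false

namespace Pool.Agent.Y679.Cur

open Finset Pool.Agent.TH867.SR Pool.Agent.TH867.EC Pool.Agent.H925R.Szpiro

theorem condS_pos (a b : ℤ) : 0 < condS a b := by
  unfold condS
  refine Finset.prod_pos fun p hp => ?_
  have := (Nat.prime_of_mem_primeFactors (Finset.mem_filter.1 hp).1).pos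
  split_ifs
  · positivity
  · exact this

theorem radN_pos (n : ℕ) : 1 ≤ radN n :=
  Finset.prod_pos fun _ hq => (Nat.prime_of_mem_primeFactors hq).pos

/-- the parametrisation -/
theorem decomp {a b : ℤ} (hmin : IsMin a b) (hf : FullS a b) :
    ∃ (s : ℤ) (i j g₁ g₂ u v : ℕ), s ∈ ({1, -1} : Finset ℤ) ∧ i < 2 ∧ j < 3 ∧ 1 ≤ g₁ ∧ 1 ≤ g₂ ∧
      0 < u ∧ 0 < v ∧ u ≤ v ∧ Nat.Coprime u v ∧ g₁ ∣ u * v * (u + v) ∧
      3 * a = ((2 ^ i * 3 ^ j * (g₁ * g₂) : ℕ) : ℤ) ^ 2 * (u ^ 2 + u * v + v ^ 2) ∧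
      D a b = ((2 ^ i * 3 ^ j * (g₁ * g₂) : ℕ) : ℤ) ^ 6 * (u * v * (u + v)) ^ 2 ∧
      radN (u * v * (u + v)) * (g₁ * g₂) * g₂ ≤ 6 * condS a b ∧
      mdl' ((s, i, j), (g₁, (g₂, (u, v)))) = (a, b) := by
  obtain ⟨i, j, g₁, g₂, u', v', hi, hj, hg1, hg2, hu', hv', hcop', hdvd', h3a', hD', hcond'⟩ :=
    twist_pair a b hmin hf
  obtain ⟨u, v, hu, hv, huv, hcop, hdvd, h3a, hD, hcond⟩ : ∃ u v : ℕ, 0 < u ∧ 0 < v ∧ u ≤ v ∧
      Nat.Coprime u v ∧ g₁ ∣ u * v * (u + v) ∧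
      3 * a = ((2 ^ i * 3 ^ j * (g₁ * g₂) : ℕ) : ℤ) ^ 2 * (u ^ 2 + u * v + v ^ 2) ∧
      D a b = ((2 ^ i * 3 ^ j * (g₁ * g₂) : ℕ) : ℤ) ^ 6 * (u * v * (u + v)) ^ 2 ∧
      radN (u * v * (u + v)) * (g₁ * g₂) * g₂ ≤ 6 * condS a b := by
    have e0 : v' * u' * (v' + u') = u' * v' * (u' + v') := by ring
    rcases le_total u' v' with h | h
    · exact ⟨u', v', hu', hv', h, hcop', hdvd', h3a', hD', hcond'⟩
    · refine ⟨v', u', hv', hu', h, hcop'.symm, by rw [e0]; exact hdvd', ?_, ?_,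
        by rw [e0]; exact hcond'⟩
      · rw [h3a']; ring
      · rw [hD']; ring
  obtain ⟨s, hs, hsb⟩ : ∃ s : ℤ, s ∈ ({1, -1} : Finset ℤ) ∧ b = s * |b| := by
    rcases le_total 0 b with h0 | h0
    · exact ⟨1, by simp, by rw [abs_of_nonneg h0]; ring⟩
    · exact ⟨-1, by simp, by rw [abs_of_nonpos h0]; ring⟩
  refine ⟨s, i, j, g₁, g₂, u, v, hs, by omega, by omega, hg1, hg2, hu, hv, huv, hcop, hdvd, h3a,
    hD, hcond, ?_⟩
  obtain ⟨g, hg⟩ : ∃ g : ℕ, g = 2 ^ i * 3 ^ j * (g₁ * g₂) := ⟨_, rfl⟩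
  unfold mdl'
  simp only
  rw [← hg] at h3a hD ⊢
  have e1 : ((g : ℕ) : ℤ) ^ 2 * ((u : ℤ) ^ 2 + u * v + (v : ℤ) ^ 2) / 3 = a := by
    rw [← h3a]
    exact Int.mul_ediv_cancel_left _ (by norm_num)
  have e2 : ((g : ℕ) : ℤ) ^ 6 * ((u : ℤ) * v * (u + v)) ^ 2 = D a b := hD.symm
  rw [e1, e2]
  refine Prod.ext rfl ?_
  simp only
  have e3 : (4 * a ^ 3 - D a b) / 27 = |b| ^ 2 := by
    have : 4 * a ^ 3 - D a b = 27 * b ^ 2 := by unfold D; ring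
    rw [this, sq_abs]
    exact Int.mul_ediv_cancel_left _ (by norm_num)
  have e4 : (|b| ^ 2).toNat = (b.natAbs) ^ 2 := by
    rw [Int.abs_eq_natAbs, ← Nat.cast_pow, Int.toNat_natCast]
  rw [e3, e4, Nat.sqrt_eq', ← Int.abs_eq_natAbs]
  exact hsb.symm

/-- the tuples over a family of pairs -/
def Tup (B1 : ℕ) (𝒢 : Finset ℕ) (T : ℕ → Finset (ℕ × ℕ)) : Finset (ℕ × (ℕ × (ℕ × ℕ))) :=
  𝒢.biUnion fun g => (T g).biUnion fun p =>
    ((Icc 1 B1).filter fun d => d.primeFactors ⊆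
      (radN (p.1 * p.2 * (p.1 + p.2))).primeFactors).image fun d => (d, (g, p))

theorem mem_Tup {B1 : ℕ} {𝒢 : Finset ℕ} {T : ℕ → Finset (ℕ × ℕ)} {d g u v : ℕ} (hg : g ∈ 𝒢)
    (hp : (u, v) ∈ T g) (hd1 : 1 ≤ d) (hd : d ≤ B1) (hdv : d ∣ u * v * (u + v))
    (h0 : u * v * (u + v) ≠ 0) : (d, (g, (u, v))) ∈ Tup B1 𝒢 T := by
  unfold Tup
  rw [mem_biUnion]
  refine ⟨g, hg, ?_⟩
  rw [mem_biUnion]
  refine ⟨(u, v), hp, mem_image.2 ⟨d, mem_filter.2 ⟨mem_Icc.2 ⟨hd1, hd⟩, ?_⟩, rfl⟩⟩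
  show d.primeFactors ⊆ (radN (u * v * (u + v))).primeFactors
  rw [radN, Nat.primeFactors_prod fun q hq => Nat.prime_of_mem_primeFactors hq]
  exact Nat.primeFactors_mono hdv h0

theorem tuple_count {e : ℝ} (he : 0 < e) : ∃ D2 : ℝ, 0 < D2 ∧ ∀ X : ℝ, 1 ≤ X →
    ∀ (𝒢 : Finset ℕ) (T : ℕ → Finset (ℕ × ℕ)), (∀ g ∈ 𝒢, ∀ p ∈ T g,
      ((radN (p.1 * p.2 * (p.1 + p.2)) : ℕ) : ℝ) ≤ X) →
    ((Tup ⌊X⌋₊ 𝒢 T).card : ℝ) ≤ D2 * X ^ (2 * e) * ∑ g ∈ 𝒢, ((T g).card : ℝ) := by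
  classical
  obtain ⟨D2, hD2, hsm⟩ := smooth_count e he
  refine ⟨D2, hD2, fun X hX 𝒢 T hT => ?_⟩
  have hX0 : 0 < X := by linarith
  obtain ⟨B1, hB1⟩ : ∃ B1 : ℕ, B1 = ⌊X⌋₊ := ⟨_, rfl⟩
  have hB11 : 1 ≤ B1 := by rw [hB1]; exact Nat.le_floor (by exact_mod_cast hX)
  rw [← hB1]
  unfold Tup
  have h1 : ((𝒢.biUnion fun g => (T g).biUnion fun p =>
    ((Icc 1 B1).filter fun d => d.primeFactors ⊆
      (radN (p.1 * p.2 * (p.1 + p.2))).primeFactors).image fun d => (d, (g, p))).card : ℝ) ≤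
      ∑ g ∈ 𝒢, (((T g).biUnion fun p =>
    ((Icc 1 B1).filter fun d => d.primeFactors ⊆
      (radN (p.1 * p.2 * (p.1 + p.2))).primeFactors).image fun d => (d, (g, p))).card : ℝ) := by
    exact_mod_cast card_biUnion_le
  refine h1.trans ?_
  rw [Finset.mul_sum]
  refine Finset.sum_le_sum fun g hg => ?_
  have h2 : ((((T g).biUnion fun p => ((Icc 1 B1).filter fun d => d.primeFactors ⊆
      (radN (p.1 * p.2 * (p.1 + p.2))).primeFactors).image fun d => (d, (g, p))).card : ℕ) : ℝ) ≤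
      ∑ p ∈ T g, ((((Icc 1 B1).filter fun d => d.primeFactors ⊆
      (radN (p.1 * p.2 * (p.1 + p.2))).primeFactors).image fun d => (d, (g, p))).card : ℝ) := by
    exact_mod_cast card_biUnion_le
  refine h2.trans ?_
  have h3 : ∀ p ∈ T g, ((((Icc 1 B1).filter fun d => d.primeFactors ⊆
      (radN (p.1 * p.2 * (p.1 + p.2))).primeFactors).image fun d => (d, (g, p))).card : ℝ) ≤
      D2 * X ^ (2 * e) := by
    intro p hp
    have hRX := hT g hg p hp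
    have h4 := hsm B1 (radN (p.1 * p.2 * (p.1 + p.2))) hB11 (radN_pos _)
    have h5 : ((((Icc 1 B1).filter fun d => d.primeFactors ⊆
        (radN (p.1 * p.2 * (p.1 + p.2))).primeFactors).image (fun d => (d, (g, p)))).card : ℝ) ≤
        ((((Icc 1 B1).filter fun d => d.primeFactors ⊆
        (radN (p.1 * p.2 * (p.1 + p.2))).primeFactors)).card : ℝ) := by
      exact_mod_cast card_image_le
    refine h5.trans (h4.trans ?_)
    have hBX : (B1 : ℝ) ≤ X := by rw [hB1]; exact Nat.floor_le hX0.le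
    have h6 : X ^ (2 * e) = X ^ e * X ^ e := by rw [two_mul, Real.rpow_add hX0]
    rw [h6, ← mul_assoc]
    refine mul_le_mul ?_ (Real.rpow_le_rpow (Nat.cast_nonneg _) hRX he.le) (by positivity)
      (by positivity)
    exact mul_le_mul_of_nonneg_left (Real.rpow_le_rpow (Nat.cast_nonneg _) hBX he.le) hD2.le
  refine (Finset.sum_le_sum h3).trans (le_of_eq ?_)
  rw [Finset.sum_const, nsmul_eq_mul, mul_comm]

/-- the twelve remaining data -/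
def A12 : Finset (ℤ × ℕ × ℕ) := ({1, -1} : Finset ℤ) ×ˢ (range 2 ×ˢ range 3)

theorem card_A12 : A12.card ≤ 12 := by
  unfold A12
  rw [card_product, card_product, card_range, card_range]
  have h2 : ({1, -1} : Finset ℤ).card ≤ 2 := card_le_two
  omega

/-- from tuples to models -/
theorem count_of {S : Set (ℤ × ℤ)} {G : Finset (ℕ × (ℕ × (ℕ × ℕ)))}
    (h : S ⊆ (((A12 ×ˢ G).image mdl' : Finset (ℤ × ℤ)) : Set (ℤ × ℤ))) :
    S.Finite ∧ (S.ncard : ℝ) ≤ 12 * G.card := by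
  refine ⟨Set.Finite.subset (Finset.finite_toSet _) h, ?_⟩
  have c1 : S.ncard ≤ ((A12 ×ˢ G).image mdl').card := by
    rw [← Set.ncard_coe_finset]
    exact Set.ncard_le_ncard h (Finset.finite_toSet _)
  have c2 : ((A12 ×ˢ G).image mdl').card ≤ 12 * G.card :=
    card_image_le.trans (by rw [card_product]; exact Nat.mul_le_mul_right _ card_A12)
  exact_mod_cast c1.trans c2

/-- the size of `u + v`, for small twists -/
theorem size_of {δ N κ : ℝ} (hδ : 0 < δ) (hδ1 : δ ≤ 1) (hκ : 0 < κ) (hκδ : κ ≤ δ / 60)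
    (hN : Real.exp (200 / δ) ≤ N)
    {i j g₁ g₂ u v : ℕ} (hi : i < 2) (hj : j < 3) (hg1 : 1 ≤ g₁) (hg2 : 1 ≤ g₂) (hu : 0 < u)
    (hv : 0 < v) {a : ℤ} {c : ℝ} (hc1 : N ^ (1 - κ) < c) (hG1 : (g₁ : ℝ) ≤ N ^ κ)
    (hG2 : (g₂ : ℝ) ≤ N ^ κ)
    (ha : 3 * a = ((2 ^ i * 3 ^ j * (g₁ * g₂) : ℕ) : ℤ) ^ 2 * (u ^ 2 + u * v + v ^ 2))
    (hac : c ^ (2 + δ) < 4 * |(a : ℝ)| ^ 3) :
    (1 / 3 + δ / 24) * Real.log (6 * N) ≤ Real.log ((u + v : ℕ) : ℝ) := by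
  have hN0 : 0 < N := lt_of_lt_of_le (Real.exp_pos _) hN
  obtain ⟨ℓ, hℓ⟩ : ∃ ℓ, ℓ = Real.log N := ⟨_, rfl⟩
  have hℓ1 : 200 / δ ≤ ℓ := by rw [hℓ, Real.le_log_iff_exp_le hN0]; exact hN
  have hδℓ : 200 ≤ δ * ℓ := by
    rw [div_le_iff₀ hδ] at hℓ1
    linarith
  have hℓ0 : 0 ≤ ℓ := le_trans (by positivity) hℓ1
  have hl2 := Real.log_two_lt_d9
  have hl6 : Real.log 6 ≤ 3 := by
    have h1 : (6 : ℝ) ≤ 2 ^ 3 := by norm_num
    have h2 := Real.log_le_log (by norm_num) h1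
    rw [Real.log_pow] at h2
    push_cast at h2
    linarith
  have hl60 : 0 ≤ Real.log 6 := Real.log_nonneg (by norm_num)
  have hl18 : Real.log 18 ≤ 4 := by
    have h1 : (18 : ℝ) ≤ 2 ^ 5 := by norm_num
    have h2 := Real.log_le_log (by norm_num) h1
    rw [Real.log_pow] at h2
    push_cast at h2
    linarith
  have h6N : Real.log (6 * N) = Real.log 6 + ℓ := by
    rw [Real.log_mul (by norm_num) hN0.ne', hℓ]
  obtain ⟨g, hg⟩ : ∃ g : ℕ, g = 2 ^ i * 3 ^ j * (g₁ * g₂) := ⟨_, rfl⟩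
  rw [← hg] at ha
  have hgpos : 1 ≤ g := by
    rw [hg]
    exact Nat.mul_pos (Nat.mul_pos (by positivity) (by positivity)) (Nat.mul_pos hg1 hg2)
  have hu1 : (1 : ℝ) ≤ u := by exact_mod_cast hu
  have hv1 : (1 : ℝ) ≤ v := by exact_mod_cast hv
  obtain ⟨s, hs⟩ : ∃ s : ℝ, s = (u : ℝ) + v := ⟨_, rfl⟩
  have hs2 : 2 ≤ s := by rw [hs]; linarith
  have hs' : ((u + v : ℕ) : ℝ) = s := by rw [hs]; push_cast; rfl
  have haR : 3 * (a : ℝ) = (g : ℝ) ^ 2 * ((u : ℝ) ^ 2 + u * v + v ^ 2) := by exact_mod_cast ha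
  have hg1r : (1 : ℝ) ≤ g := by exact_mod_cast hgpos
  have hg18 : (g : ℝ) ≤ 18 * (N ^ κ * N ^ κ) := by
    rw [hg]
    push_cast
    have e1 : (2 : ℝ) ^ i ≤ 2 := by
      have : i ≤ 1 := by omega
      calc (2 : ℝ) ^ i ≤ 2 ^ 1 := pow_le_pow_right₀ (by norm_num) this
        _ = 2 := by norm_num
    have e2 : (3 : ℝ) ^ j ≤ 9 := by
      have : j ≤ 2 := by omega
      calc (3 : ℝ) ^ j ≤ 3 ^ 2 := pow_le_pow_right₀ (by norm_num) this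
        _ = 9 := by norm_num
    have e3 : (2 : ℝ) ^ i * 3 ^ j ≤ 18 := by
      calc (2 : ℝ) ^ i * 3 ^ j ≤ 2 * 9 := mul_le_mul e1 e2 (by positivity) (by norm_num)
        _ = 18 := by norm_num
    exact mul_le_mul e3 (mul_le_mul hG1 hG2 (Nat.cast_nonneg _) (by positivity)) (by positivity)
      (by norm_num)
  have hlg : Real.log g ≤ 4 + 2 * (κ * ℓ) := by
    have h1 := Real.log_le_log (by linarith) hg18
    rw [Real.log_mul (by norm_num) (by positivity), Real.log_mul (by positivity) (by positivity),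
      Real.log_rpow hN0, ← hℓ] at h1
    linarith
  have hc0 : 0 < c := lt_trans (by positivity) hc1
  have hq : (u : ℝ) ^ 2 + u * v + v ^ 2 ≤ s ^ 2 := by
    have : 0 ≤ (u : ℝ) * v := by positivity
    rw [hs]
    nlinarith
  have hq0 : 0 ≤ (u : ℝ) ^ 2 + u * v + v ^ 2 := by positivity
  have ha0 : 0 ≤ (a : ℝ) := by
    have : 0 ≤ 3 * (a : ℝ) := by rw [haR]; positivity
    linarith
  have ha1 : (a : ℝ) ≤ 1 / 3 * ((g : ℝ) ^ 2 * s ^ 2) := by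
    have := mul_le_mul_of_nonneg_left hq (by positivity : (0 : ℝ) ≤ (g : ℝ) ^ 2)
    linarith
  have ha2 : 4 * |(a : ℝ)| ^ 3 ≤ (g : ℝ) ^ 6 * s ^ 6 := by
    rw [abs_of_nonneg ha0]
    have h1 : (a : ℝ) ^ 3 ≤ (1 / 3 * ((g : ℝ) ^ 2 * s ^ 2)) ^ 3 := pow_le_pow_left₀ ha0 ha1 3
    have h2 : (1 / 3 * ((g : ℝ) ^ 2 * s ^ 2)) ^ 3 = 1 / 27 * ((g : ℝ) ^ 6 * s ^ 6) := by ring
    have h3 : 0 ≤ (g : ℝ) ^ 6 * s ^ 6 := by positivity
    rw [h2] at h1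
    linarith
  have h1 : (2 + δ) * ((1 - κ) * ℓ) ≤ 6 * Real.log g + 6 * Real.log s := by
    have h2 := Real.log_le_log (by positivity) (hac.le.trans ha2)
    rw [Real.log_rpow hc0, Real.log_mul (by positivity) (by positivity), Real.log_pow,
      Real.log_pow] at h2
    have h3 := Real.log_le_log (by positivity) hc1.le
    rw [Real.log_rpow hN0, ← hℓ] at h3
    have h4 : (2 + δ) * ((1 - κ) * ℓ) ≤ (2 + δ) * Real.log c :=
      mul_le_mul_of_nonneg_left h3 (by linarith)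
    push_cast at h2
    linarith
  rw [hs', h6N]
  have h9 : κ * ℓ ≤ δ / 60 * ℓ := mul_le_mul_of_nonneg_right hκδ hℓ0
  have h10 : δ * (κ * ℓ) ≤ 1 * (κ * ℓ) := mul_le_mul_of_nonneg_right hδ1 (by positivity)
  have h11 : (2 + δ) * ((1 - κ) * ℓ) = 2 * ℓ + δ * ℓ - 2 * (κ * ℓ) - δ * (κ * ℓ) := by ring
  have h12 : (1 / 3 + δ / 24) * (Real.log 6 + ℓ) = 1 / 3 * Real.log 6 + 1 / 3 * ℓ +
      δ / 24 * Real.log 6 + 1 / 24 * (δ * ℓ) := by ring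
  have h13 : δ / 24 * Real.log 6 ≤ 1 / 24 * 3 := mul_le_mul (by linarith) hl6 hl60 (by norm_num)
  have h14 : δ / 60 * ℓ = 1 / 60 * (δ * ℓ) := by ring
  rw [h11] at h1
  rw [h12]
  linarith

/-- `∑ 1 / √u ≤ 2 √U` -/
theorem sum_sqrt (U : ℕ) : ∑ u ∈ Icc 1 U, 1 / Real.sqrt u ≤ 2 * Real.sqrt U := by
  induction U with
  | zero => simp
  | succ U ih =>
    rw [Finset.sum_Icc_succ_top (by omega)]
    have h0 : (0 : ℝ) ≤ U := Nat.cast_nonneg _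
    have h1 : 0 < Real.sqrt ((U + 1 : ℕ) : ℝ) := Real.sqrt_pos.2 (by positivity)
    have h2 : Real.sqrt (U : ℝ) ≤ Real.sqrt ((U + 1 : ℕ) : ℝ) :=
      Real.sqrt_le_sqrt (by push_cast; linarith)
    have h3 : Real.sqrt ((U + 1 : ℕ) : ℝ) * Real.sqrt ((U + 1 : ℕ) : ℝ) = U + 1 := by
      rw [Real.mul_self_sqrt (by positivity)]; push_cast; rfl
    have h4 : Real.sqrt (U : ℝ) * Real.sqrt (U : ℝ) = U := Real.mul_self_sqrt h0
    have h5 : 0 ≤ Real.sqrt (U : ℝ) := Real.sqrt_nonneg _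
    have h6 : 1 / Real.sqrt ((U + 1 : ℕ) : ℝ) ≤
        2 * Real.sqrt ((U + 1 : ℕ) : ℝ) - 2 * Real.sqrt (U : ℝ) := by
      rw [div_le_iff₀ h1]
      nlinarith [sq_nonneg (Real.sqrt ((U + 1 : ℕ) : ℝ) - Real.sqrt (U : ℝ))]
    linarith

/-- pairs with `u v² ≤ T` -/
theorem pairs_small (T : ℝ) (hT : 0 ≤ T) (P : Finset (ℕ × ℕ)) (hP : ∀ p ∈ P, 0 < p.1 ∧ p.1 ≤ p.2 ∧
    (p.1 : ℝ) * (p.2 : ℝ) ^ 2 ≤ T) : (P.card : ℝ) ≤ 2 * T ^ ((2 : ℝ) / 3) := by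
  classical
  obtain ⟨U, hU⟩ : ∃ U, U = ⌊T ^ ((1 : ℝ) / 3)⌋₊ := ⟨_, rfl⟩
  have hU1 : (U : ℝ) ≤ T ^ ((1 : ℝ) / 3) := by rw [hU]; exact Nat.floor_le (by positivity)
  have hsub : P ⊆ (Icc 1 U).biUnion fun u => (Icc 1 ⌊Real.sqrt (T / u)⌋₊).image fun v => (u, v) := by
    rintro ⟨u, v⟩ hp
    obtain ⟨h1, h2, h3⟩ := hP _ hp
    simp only at h1 h2 h3
    have hu : (0 : ℝ) < u := by exact_mod_cast h1
    have huv : (u : ℝ) ≤ v := by exact_mod_cast h2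
    rw [mem_biUnion]
    refine ⟨u, mem_Icc.2 ⟨h1, ?_⟩, mem_image.2 ⟨v, mem_Icc.2 ⟨by omega, ?_⟩, rfl⟩⟩
    · rw [hU]
      refine Nat.le_floor ?_
      have h4 : (u : ℝ) ^ 3 ≤ T := by
        have : (u : ℝ) ^ 2 ≤ (v : ℝ) ^ 2 := pow_le_pow_left₀ hu.le huv 2
        calc (u : ℝ) ^ 3 = (u : ℝ) * (u : ℝ) ^ 2 := by ring
          _ ≤ (u : ℝ) * (v : ℝ) ^ 2 := mul_le_mul_of_nonneg_left this hu.le
          _ ≤ T := h3
      calc (u : ℝ) = ((u : ℝ) ^ 3) ^ ((1 : ℝ) / 3) := by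
            rw [← Real.rpow_natCast, ← Real.rpow_mul hu.le]; norm_num
        _ ≤ T ^ ((1 : ℝ) / 3) := Real.rpow_le_rpow (by positivity) h4 (by norm_num)
    · refine Nat.le_floor (Real.le_sqrt_of_sq_le ?_)
      rw [le_div_iff₀ hu]
      linarith
  have h1 : (P.card : ℝ) ≤ ∑ u ∈ Icc 1 U, Real.sqrt (T / u) := by
    have h2 := (Finset.card_le_card hsub).trans Finset.card_biUnion_le
    have h3 : ∑ u ∈ Icc 1 U, ((Icc 1 ⌊Real.sqrt (T / u)⌋₊).image fun v => (u, v)).card ≤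
        ∑ u ∈ Icc 1 U, ⌊Real.sqrt (T / u)⌋₊ := by
      refine Finset.sum_le_sum fun u _ => ?_
      refine card_image_le.trans ?_
      rw [Nat.card_Icc, Nat.add_sub_cancel]
    have h4 : (P.card : ℝ) ≤ ∑ u ∈ Icc 1 U, ((⌊Real.sqrt (T / u)⌋₊ : ℕ) : ℝ) := by
      exact_mod_cast h2.trans h3
    exact h4.trans (Finset.sum_le_sum fun u _ => Nat.floor_le (Real.sqrt_nonneg _))
  have h2 : ∑ u ∈ Icc 1 U, Real.sqrt (T / u) = Real.sqrt T * ∑ u ∈ Icc 1 U, 1 / Real.sqrt u := by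
    rw [Finset.mul_sum]
    refine Finset.sum_congr rfl fun u _ => ?_
    rw [Real.sqrt_div hT, mul_one_div]
  rw [h2] at h1
  have h3 : Real.sqrt (U : ℝ) ≤ T ^ ((1 : ℝ) / 6) := by
    have h4 : Real.sqrt (U : ℝ) ≤ Real.sqrt (T ^ ((1 : ℝ) / 3)) := Real.sqrt_le_sqrt hU1
    rw [Real.sqrt_eq_rpow (T ^ ((1 : ℝ) / 3)), ← Real.rpow_mul hT] at h4
    norm_num at h4
    norm_num
    exact h4
  have h5 : Real.sqrt T * (2 * T ^ ((1 : ℝ) / 6)) = 2 * T ^ ((2 : ℝ) / 3) := by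
    rcases hT.eq_or_lt with h0 | h0
    · rw [← h0, Real.sqrt_zero, Real.zero_rpow (by norm_num)]; ring
    · rw [Real.sqrt_eq_rpow]
      have : T ^ ((2 : ℝ) / 3) = T ^ ((1 : ℝ) / 2) * T ^ ((1 : ℝ) / 6) := by
        rw [← Real.rpow_add h0]; norm_num
      rw [this]; ring
  calc (P.card : ℝ) ≤ Real.sqrt T * ∑ u ∈ Icc 1 U, 1 / Real.sqrt u := h1
    _ ≤ Real.sqrt T * (2 * Real.sqrt U) := mul_le_mul_of_nonneg_left (sum_sqrt U) (Real.sqrt_nonneg _)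
    _ ≤ Real.sqrt T * (2 * T ^ ((1 : ℝ) / 6)) :=
        mul_le_mul_of_nonneg_left (by linarith) (Real.sqrt_nonneg _)
    _ = _ := h5

end Pool.Agent.Y679.Cur
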