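import Pool.Agent.Y679.Cur

/-! **Elliptic curves over `ℚ` with full rational 2-torsion, by conductor: the exceptional set of
Szpiro's inequality with exponent `2 + δ`**, from the statement for triples (helper679). -/

set_option autoImplicit false

namespace Pool.Agent.Y679.Cur

open Finset Pool.Agent.TH867.SR Pool.Agent.TH867.EC Pool.Agent.H925R.Szpiro

/-- almost all triples, counted by their radicals, satisfy `c ≤ X ^ (1/3 + δ)` -/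
def StmtAA : Prop :=
  ∀ δ : ℝ, 0 < δ → ∃ ν : ℝ, 0 < ν ∧ ∃ C : ℝ, 0 < C ∧ ∀ X : ℝ, 1 ≤ X →
    ∀ F : Finset (Fin 3 → ℕ), (∀ t ∈ F, Tr t ∧ rr t 0 + rr t 1 + rr t 2 ≤ Real.log X ∧
      (1 / 3 + δ) * Real.log X ≤ Real.log (t 2)) → (F.card : ℝ) ≤ C * X ^ (2 / 3 - ν)

/-- the upper exceptional set: `4 |a| ³` exceeds the power `2 + δ` of the conductor -/
def Up (δ N : ℝ) : Set (ℤ × ℤ) :=
  {q | IsMin q.1 q.2 ∧ FullS q.1 q.2 ∧ (condS q.1 q.2 : ℝ) ≤ N ∧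
    (condS q.1 q.2 : ℝ) ^ (2 + δ) < 4 * |(q.1 : ℝ)| ^ 3}

/-- the lower exceptional set -/
def Lo (δ N : ℝ) : Set (ℤ × ℤ) :=
  {q | IsMin q.1 q.2 ∧ FullS q.1 q.2 ∧ (condS q.1 q.2 : ℝ) ≤ N ∧
    |((D q.1 q.2 : ℤ) : ℝ)| < (condS q.1 q.2 : ℝ) ^ (2 - δ)}

/-- all curves of conductor at most `N` -/
theorem cur_fin {ε : ℝ} (hε : 0 < ε) : ∃ C : ℝ, 0 < C ∧ ∀ N : ℝ, 1 ≤ N →
    {q : ℤ × ℤ | IsMin q.1 q.2 ∧ FullS q.1 q.2 ∧ (condS q.1 q.2 : ℝ) ≤ N}.Finite ∧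
    (({q : ℤ × ℤ | IsMin q.1 q.2 ∧ FullS q.1 q.2 ∧ (condS q.1 q.2 : ℝ) ≤ N}.ncard : ℕ) : ℝ) ≤
      C * N ^ (2 / 3 + ε) := by
  obtain ⟨C, hC, h⟩ := curS_all ε hε
  refine ⟨C, hC, fun N hN => ?_⟩
  have hU : {q : ℤ × ℤ | IsMin q.1 q.2 ∧ FullS q.1 q.2 ∧ (condS q.1 q.2 : ℝ) ≤ N} =
      ⋃ H, CurS N H := by
    ext q
    rw [Set.mem_iUnion]
    constructor
    · rintro ⟨h1, h2, h3⟩
      exact ⟨_, h1, h2, h3, le_rfl⟩
    · rintro ⟨H, h1, h2, h3, _⟩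
      exact ⟨h1, h2, h3⟩
  rw [hU]
  exact union_card (S := fun H => CurS N H) (B := C * N ^ (2 / 3 + ε))
    (fun H H' hHH q hq => ⟨hq.1, hq.2.1, hq.2.2.1, hq.2.2.2.trans hHH⟩)
    (fun H hH => h N H hN hH)

theorem sum_small (M : ℕ) {s G : ℝ} (hs : 4 / 3 ≤ s) (hG : 0 < G) :
    ∑ n ∈ (Icc 1 M).filter (fun n : ℕ => G < (n : ℝ)), ((n : ℝ) ^ s)⁻¹ ≤
      G ^ (-((1 : ℝ) / 6)) * ∑' n : ℕ, ((n : ℝ) ^ ((7 : ℝ) / 6))⁻¹ := by
  have hsm : Summable fun n : ℕ => ((n : ℝ) ^ ((7 : ℝ) / 6))⁻¹ :=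
    Real.summable_nat_rpow_inv.2 (by norm_num)
  rw [← tsum_mul_left]
  refine le_trans (Finset.sum_le_sum
    (g := fun n : ℕ => G ^ (-((1 : ℝ) / 6)) * ((n : ℝ) ^ ((7 : ℝ) / 6))⁻¹) ?_)
    ((hsm.mul_left _).sum_le_tsum _ (fun n _ => by positivity))
  intro n hn
  rw [mem_filter] at hn
  have hn1 : (1 : ℝ) ≤ n := by exact_mod_cast (mem_Icc.1 hn.1).1
  have hn0 : (0 : ℝ) < n := by linarith
  have h1 : (n : ℝ) ^ ((4 : ℝ) / 3) ≤ (n : ℝ) ^ s := Real.rpow_le_rpow_of_exponent_le hn1 hs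
  have h2 : (n : ℝ) ^ ((4 : ℝ) / 3) = (n : ℝ) ^ ((1 : ℝ) / 6) * (n : ℝ) ^ ((7 : ℝ) / 6) := by
    rw [← Real.rpow_add hn0]; norm_num
  have h3 : G ^ ((1 : ℝ) / 6) ≤ (n : ℝ) ^ ((1 : ℝ) / 6) :=
    Real.rpow_le_rpow hG.le hn.2.le (by norm_num)
  have h4 : G ^ ((1 : ℝ) / 6) * (n : ℝ) ^ ((7 : ℝ) / 6) ≤ (n : ℝ) ^ s := by
    refine le_trans ?_ h1
    rw [h2]
    exact mul_le_mul_of_nonneg_right h3 (by positivity)
  rw [Real.rpow_neg hG.le, ← mul_inv]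
  exact inv_anti₀ (by positivity) h4

/-- the curves of the upper exceptional set of nearly maximal conductor -/
theorem up_main (hAA : StmtAA) {δ : ℝ} (hδ : 0 < δ) (hδ1 : δ ≤ 1) : ∃ κ : ℝ, 0 < κ ∧ κ ≤ 1 / 60 ∧
    ∃ C : ℝ, 0 < C ∧ ∀ N : ℝ, Real.exp (200 / δ) ≤ N → ∀ S : Finset (ℤ × ℤ),
      (∀ q ∈ S, IsMin q.1 q.2 ∧ FullS q.1 q.2 ∧ (condS q.1 q.2 : ℝ) ≤ N ∧
        N ^ (1 - κ) < (condS q.1 q.2 : ℝ) ∧
        (condS q.1 q.2 : ℝ) ^ (2 + δ) < 4 * |(q.1 : ℝ)| ^ 3) →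
      (S.card : ℝ) ≤ C * N ^ (2 / 3 - κ / 20) := by
  classical
  obtain ⟨ν, hν, D1, hD1, hbad⟩ := hAA (δ / 24) (by positivity)
  obtain ⟨κ, hκ⟩ : ∃ κ, κ = min (δ / 60) (ν / 2) := ⟨_, rfl⟩
  have hκ0 : 0 < κ := by rw [hκ]; exact lt_min (by positivity) (by positivity)
  have hκδ : κ ≤ δ / 60 := by rw [hκ]; exact min_le_left _ _
  have hκν : κ ≤ ν / 2 := by rw [hκ]; exact min_le_right _ _
  obtain ⟨e, he⟩ : ∃ e : ℝ, e = κ / 100 := ⟨_, rfl⟩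
  have he0 : 0 < e := by rw [he]; positivity
  obtain ⟨Dp, hDp, hup⟩ := pairs_all e he0
  obtain ⟨D2, hD2, htup⟩ := tuple_count he0
  obtain ⟨Z, hZ⟩ : ∃ Z : ℝ, Z = ∑' n : ℕ, ((n : ℝ) ^ ((4 : ℝ) / 3))⁻¹ := ⟨_, rfl⟩
  obtain ⟨Z1, hZ1⟩ : ∃ Z1 : ℝ, Z1 = ∑' n : ℕ, ((n : ℝ) ^ ((7 : ℝ) / 6))⁻¹ := ⟨_, rfl⟩
  have hZ0 : 0 ≤ Z := by rw [hZ]; exact tsum_nonneg fun n => by positivity
  have hZ10 : 0 ≤ Z1 := by rw [hZ1]; exact tsum_nonneg fun n => by positivity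
  refine ⟨κ, hκ0, by linarith, 12 * (D2 * 6 * (6 * Dp * Z1 + 6 * Dp * Z + 6 * D1)) + 1,
    by positivity, fun N hN S hS => ?_⟩
  have hN0 : 0 < N := lt_of_lt_of_le (Real.exp_pos _) hN
  have hN1 : 1 ≤ N := le_trans (Real.one_le_exp (by positivity)) hN
  obtain ⟨X, hX⟩ : ∃ X : ℝ, X = 6 * N := ⟨_, rfl⟩
  have hX1 : 1 ≤ X := by rw [hX]; linarith
  have hX0 : 0 < X := by linarith
  have hXN : ∀ θ : ℝ, 0 ≤ θ → θ ≤ 1 → X ^ θ ≤ 6 * N ^ θ := by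
    intro θ h0 h1
    rw [hX, Real.mul_rpow (by norm_num) hN0.le]
    refine mul_le_mul_of_nonneg_right ?_ (by positivity)
    calc (6 : ℝ) ^ θ ≤ 6 ^ (1 : ℝ) := Real.rpow_le_rpow_of_exponent_le (by norm_num) h1
      _ = 6 := Real.rpow_one 6
  obtain ⟨G, hG⟩ : ∃ G : ℝ, G = N ^ κ := ⟨_, rfl⟩
  have hG0 : 0 < G := by rw [hG]; positivity
  have hG1 : 1 ≤ G := by rw [hG]; exact Real.one_le_rpow hN1 hκ0.le
  obtain ⟨M, hM⟩ : ∃ M : ℕ, M = ⌊Real.sqrt X⌋₊ := ⟨_, rfl⟩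
  -- bounds of the heights in the finite set
  obtain ⟨Hb, hHb⟩ : ∃ Hb : ℝ, 1 ≤ Hb ∧ ∀ q ∈ S, Real.log |((D q.1 q.2 : ℤ) : ℝ)| ≤ Hb := by
    rcases S.eq_empty_or_nonempty with rfl | hne
    · exact ⟨1, le_rfl, fun q hq => absurd hq (Finset.notMem_empty q)⟩
    · obtain ⟨q0, hq0, hmax⟩ := Finset.exists_max_image S
        (fun q => Real.log |((D q.1 q.2 : ℤ) : ℝ)|) hne
      exact ⟨max 1 (Real.log |((D q0.1 q0.2 : ℤ) : ℝ)|), le_max_left _ _,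
        fun q hq => (hmax q hq).trans (le_max_right _ _)⟩
  obtain ⟨H', hH'⟩ : ∃ H' : ℝ, H' = Hb / 4 + 2 := ⟨_, rfl⟩
  have hH'1 : 1 ≤ H' := by rw [hH']; linarith [hHb.1]
  obtain ⟨B, hB⟩ : ∃ B : ℕ, B = ⌊Real.exp H'⌋₊ := ⟨_, rfl⟩
  obtain ⟨base, hbase⟩ : ∃ base : Finset (ℕ × ℕ), base = ((range (B + 1)) ×ˢ
      (range (B + 1))).filter (fun p => 0 < p.1 ∧ p.1 ≤ p.2 ∧ Nat.Coprime p.1 p.2 ∧
        Real.log ((p.1 + p.2 : ℕ) : ℝ) ≤ H') := ⟨_, rfl⟩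
  obtain ⟨Ta, hTa⟩ : ∃ Ta : ℕ → Finset (ℕ × ℕ), Ta = fun g : ℕ => base.filter fun p =>
    ((radN (p.1 * p.2 * (p.1 + p.2)) : ℕ) : ℝ) ≤ X / (g : ℝ) ^ 2 := ⟨_, rfl⟩
  obtain ⟨Tb, hTb⟩ : ∃ Tb : ℕ → Finset (ℕ × ℕ), Tb = fun g : ℕ => base.filter fun p =>
    ((radN (p.1 * p.2 * (p.1 + p.2)) : ℕ) : ℝ) ≤ X / (G * (g : ℝ) ^ 2) := ⟨_, rfl⟩
  obtain ⟨Tc, hTc⟩ : ∃ Tc : ℕ → Finset (ℕ × ℕ), Tc = fun _ => base.filter fun p =>
    ((radN (p.1 * p.2 * (p.1 + p.2)) : ℕ) : ℝ) ≤ X ∧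
      (1 / 3 + δ / 24) * Real.log X ≤ Real.log ((p.1 + p.2 : ℕ) : ℝ) := ⟨_, rfl⟩
  obtain ⟨Ga, hGa⟩ : ∃ Ga, Ga = (Icc 1 M).filter fun g : ℕ => G < (g : ℝ) := ⟨_, rfl⟩
  obtain ⟨Gc, hGc⟩ : ∃ Gc, Gc = (Icc 1 M).filter fun g : ℕ => ¬ G < (g : ℝ) := ⟨_, rfl⟩
  have hbasep : ∀ p ∈ base, 0 < p.1 ∧ p.1 ≤ p.2 ∧ Nat.Coprime p.1 p.2 ∧
      Real.log ((p.1 + p.2 : ℕ) : ℝ) ≤ H' := by
    intro p hp
    rw [hbase] at hp
    exact (mem_filter.1 hp).2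
  -- the inclusion
  have hsub : (S : Set (ℤ × ℤ)) ⊆ (((A12 ×ˢ (Tup ⌊X⌋₊ Ga Ta ∪ (Tup ⌊X⌋₊ (Icc 1 M) Tb ∪
      Tup ⌊X⌋₊ Gc Tc))).image mdl' : Finset (ℤ × ℤ)) : Set (ℤ × ℤ)) := by
    rintro ⟨a, b⟩ hab
    obtain ⟨hmin, hf, hN', hN'', hbadq⟩ := hS _ (Finset.mem_coe.1 hab)
    have hH := hHb.2 _ (Finset.mem_coe.1 hab)
    simp only at hmin hf hN' hN'' hbadq hH
    obtain ⟨s, i, j, g₁, g₂, u, v, hs, hi, hj, hg1, hg2, hu, hv, huv, hcop, hdvd, h3a, hD, hcond,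
      hmdl⟩ := decomp hmin hf
    obtain ⟨R, hR⟩ : ∃ R : ℕ, R = radN (u * v * (u + v)) := ⟨_, rfl⟩
    rw [← hR] at hcond
    have hR1 : 1 ≤ R := by rw [hR]; exact radN_pos _
    have hcR : (R : ℝ) * ((g₁ : ℝ) * g₂) * g₂ ≤ X := by
      have : (R : ℝ) * ((g₁ : ℝ) * g₂) * g₂ ≤ 6 * (condS a b : ℝ) := by exact_mod_cast hcond
      rw [hX]
      linarith
    have r1 : (1 : ℝ) ≤ R := by exact_mod_cast hR1
    have r2 : (1 : ℝ) ≤ g₁ := by exact_mod_cast hg1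
    have r3 : (1 : ℝ) ≤ g₂ := by exact_mod_cast hg2
    have hRgg : (R : ℝ) * ((g₁ : ℝ) * (g₂ : ℝ) ^ 2) ≤ X := by
      have : (R : ℝ) * ((g₁ : ℝ) * (g₂ : ℝ) ^ 2) = (R : ℝ) * ((g₁ : ℝ) * g₂) * g₂ := by ring
      rw [this]; exact hcR
    have hg22 : (1 : ℝ) ≤ (g₂ : ℝ) ^ 2 := one_le_pow₀ r3
    have hRg : (R : ℝ) * (g₂ : ℝ) ^ 2 ≤ X := by
      refine le_trans ?_ hRgg
      have h0 : 0 ≤ (R : ℝ) * (g₂ : ℝ) ^ 2 := by positivity
      calc (R : ℝ) * (g₂ : ℝ) ^ 2 = 1 * ((R : ℝ) * (g₂ : ℝ) ^ 2) := by ring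
        _ ≤ (g₁ : ℝ) * ((R : ℝ) * (g₂ : ℝ) ^ 2) := mul_le_mul_of_nonneg_right r2 h0
        _ = _ := by ring
    have hg2X : (g₂ : ℝ) ^ 2 ≤ X := by
      refine le_trans ?_ hRg
      calc (g₂ : ℝ) ^ 2 = 1 * (g₂ : ℝ) ^ 2 := by ring
        _ ≤ (R : ℝ) * (g₂ : ℝ) ^ 2 := mul_le_mul_of_nonneg_right r1 (by positivity)
    have hRX : (R : ℝ) ≤ X := by
      refine le_trans ?_ hRg
      calc (R : ℝ) = (R : ℝ) * 1 := by ring
        _ ≤ (R : ℝ) * (g₂ : ℝ) ^ 2 := mul_le_mul_of_nonneg_left hg22 (by linarith)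
    have hg1X : (g₁ : ℝ) ≤ X := by
      refine le_trans ?_ hRgg
      have h1 : (g₁ : ℝ) * 1 ≤ (g₁ : ℝ) * (g₂ : ℝ) ^ 2 :=
        mul_le_mul_of_nonneg_left hg22 (by linarith)
      have h2 : 1 * ((g₁ : ℝ) * (g₂ : ℝ) ^ 2) ≤ (R : ℝ) * ((g₁ : ℝ) * (g₂ : ℝ) ^ 2) :=
        mul_le_mul_of_nonneg_right r1 (by positivity)
      linarith
    have hn0 : u * v * (u + v) ≠ 0 := by positivity
    have hgpos : 1 ≤ 2 ^ i * 3 ^ j * (g₁ * g₂) :=
      Nat.mul_pos (Nat.mul_pos (by positivity) (by positivity)) (Nat.mul_pos hg1 hg2)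
    have hlog : Real.log ((u + v : ℕ) : ℝ) ≤ H' := by
      rw [hH']
      exact log_sum_le2 hgpos hu hv hD hH
    have hle : u + v ≤ B := by
      rw [hB]
      refine Nat.le_floor ?_
      rw [← Real.log_le_iff_le_exp (by exact_mod_cast (by omega : 0 < u + v))]
      exact hlog
    have hpb : (u, v) ∈ base := by
      rw [hbase, mem_filter, mem_product, mem_range, mem_range]
      exact ⟨⟨by simp only; omega, by simp only; omega⟩, hu, huv, hcop, hlog⟩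
    have hg2M : g₂ ∈ Icc 1 M := by
      rw [mem_Icc, hM]
      exact ⟨hg2, Nat.le_floor (Real.le_sqrt_of_sq_le hg2X)⟩
    have hg1f : g₁ ≤ ⌊X⌋₊ := Nat.le_floor hg1X
    rw [mem_coe, mem_image]
    refine ⟨((s, i, j), (g₁, (g₂, (u, v)))), ?_, hmdl⟩
    rw [mem_product]
    refine ⟨?_, ?_⟩
    · unfold A12
      rw [mem_product, mem_product]
      exact ⟨hs, mem_range.mpr hi, mem_range.mpr hj⟩
    rw [mem_union, mem_union]
    by_cases hc2 : G < (g₂ : ℝ)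
    · left
      refine mem_Tup ?_ ?_ hg1 hg1f hdvd hn0
      · rw [hGa, mem_filter]
        exact ⟨hg2M, hc2⟩
      · rw [hTa, mem_filter]
        refine ⟨hpb, ?_⟩
        simp only
        rw [← hR, le_div_iff₀ (by positivity)]
        exact hRg
    · right
      by_cases hc1 : G < (g₁ : ℝ)
      · left
        refine mem_Tup hg2M ?_ hg1 hg1f hdvd hn0
        rw [hTb, mem_filter]
        refine ⟨hpb, ?_⟩
        simp only
        rw [← hR, le_div_iff₀ (by positivity)]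
        refine le_trans ?_ hRgg
        refine mul_le_mul_of_nonneg_left ?_ (by linarith)
        exact mul_le_mul_of_nonneg_right hc1.le (by positivity)
      · right
        refine mem_Tup ?_ ?_ hg1 hg1f hdvd hn0
        · rw [hGc, mem_filter]
          exact ⟨hg2M, hc2⟩
        · rw [hTc, mem_filter]
          refine ⟨hpb, ?_, ?_⟩
          · simp only
            rw [← hR]
            exact hRX
          · simp only
            rw [not_lt] at hc1 hc2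
            rw [hG] at hc1 hc2
            rw [hX]
            exact size_of hδ hδ1 hκ0 hκδ hN hi hj hg1 hg2 hu hv hN'' hc1 hc2 h3a hbadq
  obtain ⟨-, hcard⟩ := count_of hsub
  rw [Set.ncard_coe_finset] at hcard
  -- the three counts
  have hXpow : 1 ≤ X ^ (2 * e) := Real.one_le_rpow hX1 (by positivity)
  have hpair : ∀ (T : Finset (ℕ × ℕ)) (Y : ℝ), T ⊆ base → (∀ p ∈ T,
      ((radN (p.1 * p.2 * (p.1 + p.2)) : ℕ) : ℝ) ≤ Y) → 0 < Y →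
      (T.card : ℝ) ≤ Dp * Y ^ (2 / 3 + e) := by
    intro T Y hT hY hY0
    rcases le_or_gt 1 Y with h1 | h1
    · refine hup Y H' h1 hH'1 T fun p hp => ?_
      obtain ⟨b1, b2, b3, b4⟩ := hbasep p (hT hp)
      exact ⟨b1, b2, b3, hY p hp, b4⟩
    · have : T = ∅ := by
        rw [Finset.eq_empty_iff_forall_notMem]
        intro p hp
        have h2 := hY p hp
        have h3 : (1 : ℝ) ≤ ((radN (p.1 * p.2 * (p.1 + p.2)) : ℕ) : ℝ) := by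
          exact_mod_cast radN_pos _
        linarith
      rw [this, Finset.card_empty, Nat.cast_zero]
      positivity
  have ca : ((Tup ⌊X⌋₊ Ga Ta).card : ℝ) ≤ D2 * X ^ (2 * e) * (6 * Dp * Z1 * N ^ (2 / 3 - κ / 8)) := by
    refine (htup X hX1 Ga Ta ?_).trans (mul_le_mul_of_nonneg_left ?_ (by positivity))
    · intro g hg p hp
      rw [hTa, mem_filter] at hp
      rw [hGa, mem_filter] at hg
      have hg1 : (1 : ℝ) ≤ g := by exact_mod_cast (mem_Icc.1 hg.1).1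
      exact hp.2.trans (div_le_self hX0.le (one_le_pow₀ hg1))
    · have h1 : ∀ g ∈ Ga, ((Ta g).card : ℝ) ≤
          Dp * X ^ (2 / 3 + e) * ((g : ℝ) ^ (2 * (2 / 3 + e)))⁻¹ := by
        intro g hg
        rw [hGa, mem_filter] at hg
        have hg1 : (1 : ℝ) ≤ g := by exact_mod_cast (mem_Icc.1 hg.1).1
        have hg0 : (0 : ℝ) < g := by linarith
        have h2 := hpair (Ta g) (X / (g : ℝ) ^ 2) (by rw [hTa]; exact filter_subset _ _)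
          (fun p hp => by rw [hTa, mem_filter] at hp; exact hp.2) (by positivity)
        refine h2.trans (le_of_eq ?_)
        rw [Real.div_rpow hX0.le (by positivity), ← Real.rpow_natCast (g : ℝ) 2,
          ← Real.rpow_mul hg0.le]
        push_cast
        rw [div_eq_mul_inv, mul_assoc]
      refine (Finset.sum_le_sum h1).trans ?_
      rw [← Finset.mul_sum]
      have h2 := sum_small M (s := 2 * (2 / 3 + e)) (G := G) (by linarith) hG0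
      rw [← hGa, ← hZ1] at h2
      have h3 : G ^ (-((1 : ℝ) / 6)) = N ^ (-(κ / 6)) := by
        rw [hG, ← Real.rpow_mul hN0.le]; congr 1; ring
      rw [h3] at h2
      calc Dp * X ^ (2 / 3 + e) * ∑ i ∈ Ga, ((i : ℝ) ^ (2 * (2 / 3 + e)))⁻¹ ≤
          Dp * (6 * N ^ (2 / 3 + e)) * (N ^ (-(κ / 6)) * Z1) := by
            refine mul_le_mul (mul_le_mul_of_nonneg_left (hXN _ (by linarith) (by linarith))
              hDp.le) h2 (Finset.sum_nonneg fun i _ => by positivity) (by positivity)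
        _ = 6 * Dp * Z1 * N ^ (2 / 3 + e + -(κ / 6)) := by
            rw [Real.rpow_add hN0 (2 / 3 + e)]; ring
        _ ≤ _ := by
            refine mul_le_mul_of_nonneg_left ?_ (by positivity)
            exact Real.rpow_le_rpow_of_exponent_le hN1 (by rw [he]; linarith)
  have cb : ((Tup ⌊X⌋₊ (Icc 1 M) Tb).card : ℝ) ≤
      D2 * X ^ (2 * e) * (6 * Dp * Z * N ^ (2 / 3 - κ / 8)) := by
    refine (htup X hX1 (Icc 1 M) Tb ?_).trans (mul_le_mul_of_nonneg_left ?_ (by positivity))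
    · intro g hg p hp
      rw [hTb, mem_filter] at hp
      have hg1 : (1 : ℝ) ≤ g := by exact_mod_cast (mem_Icc.1 hg).1
      have hg2 : (1 : ℝ) ≤ (g : ℝ) ^ 2 := one_le_pow₀ hg1
      refine hp.2.trans (div_le_self hX0.le ?_)
      calc (1 : ℝ) = 1 * 1 := by ring
        _ ≤ G * (g : ℝ) ^ 2 := mul_le_mul hG1 hg2 (by norm_num) hG0.le
    · have h1 : ∀ g ∈ Icc 1 M, ((Tb g).card : ℝ) ≤
          Dp * ((X / G) ^ (2 / 3 + e)) * ((g : ℝ) ^ (2 * (2 / 3 + e)))⁻¹ := by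
        intro g hg
        have hg1 : (1 : ℝ) ≤ g := by exact_mod_cast (mem_Icc.1 hg).1
        have hg0 : (0 : ℝ) < g := by linarith
        have h2 := hpair (Tb g) (X / (G * (g : ℝ) ^ 2)) (by rw [hTb]; exact filter_subset _ _)
          (fun p hp => by rw [hTb, mem_filter] at hp; exact hp.2) (by positivity)
        refine h2.trans (le_of_eq ?_)
        rw [← div_div, Real.div_rpow (by positivity : 0 ≤ X / G) (by positivity),
          ← Real.rpow_natCast (g : ℝ) 2, ← Real.rpow_mul hg0.le]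
        push_cast
        rw [div_eq_mul_inv ((X / G) ^ (2 / 3 + e)), mul_assoc]
      refine (Finset.sum_le_sum h1).trans ?_
      rw [← Finset.mul_sum]
      have h2 := sum_rpow_le M (s := 2 * (2 / 3 + e)) (by linarith)
      rw [← hZ] at h2
      have h3 : (X / G) ^ (2 / 3 + e) ≤ 6 * N ^ (2 / 3 - κ / 8) := by
        rw [Real.div_rpow hX0.le hG0.le, div_le_iff₀ (by positivity)]
        have h4 : G ^ (2 / 3 + e) = N ^ (κ * (2 / 3 + e)) := by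
          rw [hG, ← Real.rpow_mul hN0.le]
        rw [h4, mul_assoc, ← Real.rpow_add hN0]
        refine (hXN _ (by linarith) (by linarith)).trans ?_
        refine mul_le_mul_of_nonneg_left ?_ (by norm_num)
        refine Real.rpow_le_rpow_of_exponent_le hN1 ?_
        have : 0 ≤ κ * e := by positivity
        rw [he] at this ⊢
        nlinarith
      calc Dp * ((X / G) ^ (2 / 3 + e)) * ∑ i ∈ Icc 1 M, ((i : ℝ) ^ (2 * (2 / 3 + e)))⁻¹ ≤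
          Dp * (6 * N ^ (2 / 3 - κ / 8)) * Z := by
            refine mul_le_mul (mul_le_mul_of_nonneg_left h3 hDp.le) h2
              (Finset.sum_nonneg fun i _ => by positivity) (by positivity)
        _ = _ := by ring
  have cc : ((Tup ⌊X⌋₊ Gc Tc).card : ℝ) ≤
      D2 * X ^ (2 * e) * (6 * D1 * N ^ (2 / 3 - κ / 8)) := by
    refine (htup X hX1 Gc Tc ?_).trans (mul_le_mul_of_nonneg_left ?_ (by positivity))
    · intro g hg p hp
      rw [hTc, mem_filter] at hp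
      exact hp.2.1
    · have h1 : ∀ g ∈ Gc, ((Tc g).card : ℝ) ≤ D1 * X ^ (2 / 3 - ν) := by
        intro g _
        have h2 := hbad X hX1 ((Tc g).image toT) (fun t ht => by
          obtain ⟨p, hp, rfl⟩ := Finset.mem_image.1 ht
          rw [hTc, mem_filter] at hp
          obtain ⟨hpb, hp1, hp2⟩ := hp
          obtain ⟨b1, b2, b3, b4⟩ := hbasep p hpb
          have ht : Tr (toT p) := ⟨b1, b2, b3, rfl⟩
          refine ⟨ht, ?_, hp2⟩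
          rw [← rr_sum ht, ← log_prod_primes fun q hq => Nat.prime_of_mem_primeFactors hq]
          refine Real.log_le_log ?_ hp1
          exact_mod_cast Finset.prod_pos fun q hq => (Nat.prime_of_mem_primeFactors hq).pos)
        rwa [Finset.card_image_of_injective _ toT_inj] at h2
      refine (Finset.sum_le_sum h1).trans ?_
      rw [Finset.sum_const, nsmul_eq_mul]
      have h2 : (Gc.card : ℝ) ≤ G := by
        have h3 : Gc ⊆ Icc 1 ⌊G⌋₊ := by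
          intro g hg
          rw [hGc, mem_filter, not_lt] at hg
          exact mem_Icc.2 ⟨(mem_Icc.1 hg.1).1, Nat.le_floor hg.2⟩
        have h4 := Finset.card_le_card h3
        rw [Nat.card_Icc, Nat.add_sub_cancel] at h4
        calc (Gc.card : ℝ) ≤ (⌊G⌋₊ : ℝ) := by exact_mod_cast h4
          _ ≤ G := Nat.floor_le hG0.le
      have h5 : X ^ (2 / 3 - ν) ≤ 6 * N ^ (2 / 3 - ν) := by
        rw [hX, Real.mul_rpow (by norm_num) hN0.le]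
        refine mul_le_mul_of_nonneg_right ?_ (by positivity)
        calc (6 : ℝ) ^ (2 / 3 - ν) ≤ 6 ^ (1 : ℝ) :=
              Real.rpow_le_rpow_of_exponent_le (by norm_num) (by linarith)
          _ = 6 := Real.rpow_one 6
      calc (Gc.card : ℝ) * (D1 * X ^ (2 / 3 - ν)) ≤ N ^ κ * (D1 * (6 * N ^ (2 / 3 - ν))) := by
            refine mul_le_mul (h2.trans (le_of_eq hG)) (mul_le_mul_of_nonneg_left h5 hD1.le)
              (by positivity) (by positivity)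
        _ = 6 * D1 * N ^ (κ + (2 / 3 - ν)) := by rw [Real.rpow_add hN0]; ring
        _ ≤ _ := by
            refine mul_le_mul_of_nonneg_left ?_ (by positivity)
            exact Real.rpow_le_rpow_of_exponent_le hN1 (by linarith)
  have hunion : ((Tup ⌊X⌋₊ Ga Ta ∪ (Tup ⌊X⌋₊ (Icc 1 M) Tb ∪ Tup ⌊X⌋₊ Gc Tc)).card : ℝ) ≤
      ((Tup ⌊X⌋₊ Ga Ta).card : ℝ) + (((Tup ⌊X⌋₊ (Icc 1 M) Tb).card : ℝ) +
        ((Tup ⌊X⌋₊ Gc Tc).card : ℝ)) := by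
    have h1 := (Finset.card_union_le (Tup ⌊X⌋₊ Ga Ta) (Tup ⌊X⌋₊ (Icc 1 M) Tb ∪ Tup ⌊X⌋₊ Gc Tc)).trans
      (Nat.add_le_add_left (Finset.card_union_le _ _) _)
    exact_mod_cast h1
  have hX2e : X ^ (2 * e) ≤ 6 * N ^ (2 * e) := hXN _ (by positivity) (by linarith)
  obtain ⟨W, hW⟩ : ∃ W, W = 6 * Dp * Z1 + 6 * Dp * Z + 6 * D1 := ⟨_, rfl⟩
  have hW0 : 0 ≤ W := by rw [hW]; positivity
  have hsum : ((Tup ⌊X⌋₊ Ga Ta ∪ (Tup ⌊X⌋₊ (Icc 1 M) Tb ∪ Tup ⌊X⌋₊ Gc Tc)).card : ℝ) ≤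
      D2 * X ^ (2 * e) * (W * N ^ (2 / 3 - κ / 8)) := by
    refine hunion.trans ((add_le_add ca (add_le_add cb cc)).trans (le_of_eq ?_))
    rw [hW]; ring
  have hfin : D2 * X ^ (2 * e) * (W * N ^ (2 / 3 - κ / 8)) ≤ D2 * 6 * W * N ^ (2 / 3 - κ / 20) := by
    calc D2 * X ^ (2 * e) * (W * N ^ (2 / 3 - κ / 8)) ≤
        D2 * (6 * N ^ (2 * e)) * (W * N ^ (2 / 3 - κ / 8)) := by
          refine mul_le_mul_of_nonneg_right ?_ (by positivity)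
          exact mul_le_mul_of_nonneg_left hX2e hD2.le
      _ = D2 * 6 * W * N ^ (2 * e + (2 / 3 - κ / 8)) := by
          rw [Real.rpow_add hN0 (2 * e)]; ring
      _ ≤ _ := by
          refine mul_le_mul_of_nonneg_left ?_ (by positivity)
          exact Real.rpow_le_rpow_of_exponent_le hN1 (by rw [he]; linarith)
  have hNp : 0 ≤ N ^ (2 / 3 - κ / 20) := by positivity
  calc (S.card : ℝ) ≤ 12 * (D2 * 6 * W * N ^ (2 / 3 - κ / 20)) := by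
        refine hcard.trans ?_
        exact mul_le_mul_of_nonneg_left (hsum.trans hfin) (by norm_num)
    _ ≤ (12 * (D2 * 6 * W) + 1) * N ^ (2 / 3 - κ / 20) := by linarith
    _ = _ := by rw [hW]

end Pool.Agent.Y679.Cur
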