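import Pool.Agent.Y679.AA

/-! **Szpiro's inequality for almost all elliptic curves over `ℚ` with full rational 2-torsion,
ordered by conductor** (helper679). -/

set_option autoImplicit false

namespace Pool.Agent.Y679.Cur

open Finset Pool.Agent.TH867.SR Pool.Agent.TH867.EC Pool.Agent.H925R.Szpiro

/-- the discriminant of a curve with full rational 2-torsion is at most `4 |a| ³` -/
theorem disc_le {a b : ℤ} (hmin : IsMin a b) (hf : FullS a b) :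
    |((D a b : ℤ) : ℝ)| ≤ 4 * |(a : ℝ)| ^ 3 := by
  obtain ⟨s, i, j, g₁, g₂, u, v, hs, hi, hj, hg1, hg2, hu, hv, huv, hcop, hdvd, h3a, hD, hcond,
    -⟩ := decomp hmin hf
  have h0 : 0 ≤ D a b := by
    rw [hD]
    positivity
  have h1 : ((D a b : ℤ) : ℝ) = 4 * (a : ℝ) ^ 3 - 27 * (b : ℝ) ^ 2 := by
    unfold D
    push_cast
    ring
  have h2 : (0 : ℝ) ≤ ((D a b : ℤ) : ℝ) := by exact_mod_cast h0
  rw [abs_of_nonneg h2, h1]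
  have h3 : (a : ℝ) ^ 3 ≤ |(a : ℝ)| ^ 3 := by
    rw [← abs_pow]
    exact le_abs_self _
  have h4 : 0 ≤ (b : ℝ) ^ 2 := sq_nonneg _
  linarith

/-- the curves of conductor at most `N` -/
def All (N : ℝ) : Set (ℤ × ℤ) :=
  {q | IsMin q.1 q.2 ∧ FullS q.1 q.2 ∧ (condS q.1 q.2 : ℝ) ≤ N}

theorem all_finite (N : ℝ) (hN : 1 ≤ N) : (All N).Finite := by
  obtain ⟨C, -, h⟩ := cur_fin (ε := 1) one_pos
  exact (h N hN).1

theorem all_lower {N : ℝ} (hN : 576 ≤ N) :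
    1 / 600 * N ^ ((2 : ℝ) / 3) ≤ ((All N).ncard : ℝ) := by
  refine (curS_lower N (2 * Real.log N) hN le_rfl).trans ?_
  have h3 : (CurS N (2 * Real.log N)).ncard ≤ (All N).ncard :=
    Set.ncard_le_ncard (fun q hq => ⟨hq.1, hq.2.1, hq.2.2.1⟩) (all_finite N (by linarith))
  exact_mod_cast h3

/-- **The theorem on curves.** -/
theorem top {δ : ℝ} (hδ : 0 < δ) : ∃ η : ℝ, 0 < η ∧ ∃ C : ℝ, 0 < C ∧ ∀ N : ℝ, 1 ≤ N →
    ((({q : ℤ × ℤ | q ∈ All N ∧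
      ¬ ((condS q.1 q.2 : ℝ) ^ (2 - δ) ≤ |((D q.1 q.2 : ℤ) : ℝ)| ∧
        4 * |(q.1 : ℝ)| ^ 3 ≤ (condS q.1 q.2 : ℝ) ^ (2 + δ))}).ncard : ℕ) : ℝ) ≤
      C * N ^ (2 / 3 - η) := by
  obtain ⟨η₁, hη₁, C₁, hC₁, h1⟩ := up stmtAA hδ
  obtain ⟨η₂, hη₂, C₂, hC₂, h2⟩ := lo hδ
  refine ⟨min η₁ η₂, lt_min hη₁ hη₂, C₁ + C₂, by positivity, fun N hN => ?_⟩
  have hsub : {q : ℤ × ℤ | q ∈ All N ∧
      ¬ ((condS q.1 q.2 : ℝ) ^ (2 - δ) ≤ |((D q.1 q.2 : ℤ) : ℝ)| ∧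
        4 * |(q.1 : ℝ)| ^ 3 ≤ (condS q.1 q.2 : ℝ) ^ (2 + δ))} ⊆ Lo δ N ∪ Up δ N := by
    rintro q ⟨⟨q1, q2, q3⟩, q4⟩
    rw [not_and_or, not_le, not_le] at q4
    rcases q4 with q4 | q4
    · exact Or.inl ⟨q1, q2, q3, q4⟩
    · exact Or.inr ⟨q1, q2, q3, q4⟩
  have hL : (Lo δ N).Finite := (all_finite N hN).subset fun q hq => ⟨hq.1, hq.2.1, hq.2.2.1⟩
  have hU : (Up δ N).Finite := (all_finite N hN).subset fun q hq => ⟨hq.1, hq.2.1, hq.2.2.1⟩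
  have h3 := Set.ncard_le_ncard hsub (hL.union hU)
  have h4 := Set.ncard_union_le (Lo δ N) (Up δ N)
  have h5 := h1 N hN
  have h6 := h2 N hN
  have e1 : N ^ (2 / 3 - η₁) ≤ N ^ (2 / 3 - min η₁ η₂) :=
    Real.rpow_le_rpow_of_exponent_le hN (by linarith [min_le_left η₁ η₂])
  have e2 : N ^ (2 / 3 - η₂) ≤ N ^ (2 / 3 - min η₁ η₂) :=
    Real.rpow_le_rpow_of_exponent_le hN (by linarith [min_le_right η₁ η₂])
  have h7 : ((({q : ℤ × ℤ | q ∈ All N ∧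
      ¬ ((condS q.1 q.2 : ℝ) ^ (2 - δ) ≤ |((D q.1 q.2 : ℤ) : ℝ)| ∧
        4 * |(q.1 : ℝ)| ^ 3 ≤ (condS q.1 q.2 : ℝ) ^ (2 + δ))}).ncard : ℕ) : ℝ) ≤
      ((Lo δ N).ncard : ℝ) + ((Up δ N).ncard : ℝ) := by
    exact_mod_cast h3.trans h4
  calc _ ≤ _ := h7
    _ ≤ C₂ * N ^ (2 / 3 - η₂) + C₁ * N ^ (2 / 3 - η₁) := add_le_add h6 h5
    _ ≤ C₂ * N ^ (2 / 3 - min η₁ η₂) + C₁ * N ^ (2 / 3 - min η₁ η₂) :=
        add_le_add (mul_le_mul_of_nonneg_left e2 hC₂.le) (mul_le_mul_of_nonneg_left e1 hC₁.le)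
    _ = _ := by ring

end Pool.Agent.Y679.Cur
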