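import Pool.Agent.Y679.Dw

/-! **The distribution of the quotient of the discriminant by the square of the conductor**
(helper679). -/

set_option autoImplicit false

namespace Pool.Agent.Y679.Par

open Finset Filter Topology Pool.Agent.TH498.AR Pool.Agent.H925R.Szpiro Pool.Agent.Y679.Cur

/-- the models with `lam q * N₆ ≤ N` -/
def Md (lam : ℤ × ℤ → ℕ) (N : ℝ) : Set (ℤ × ℤ) :=
  {q | IsMin q.1 q.2 ∧ FullS q.1 q.2 ∧ ((lam q * condS q.1 q.2 : ℕ) : ℝ) ≤ N}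

/-- those with quotient `w` -/
def Mw (lam : ℤ × ℤ → ℕ) (w : ℕ) (N : ℝ) : Set (ℤ × ℤ) :=
  {q | q ∈ Md lam N ∧ D q.1 q.2 = ((w * condS q.1 q.2 : ℕ) : ℤ) ^ 2}

/-- those with quotient larger than `W` -/
def Ml (lam : ℤ × ℤ → ℕ) (W N : ℝ) : Set (ℤ × ℤ) :=
  {q | q ∈ Md lam N ∧ (W * (condS q.1 q.2 : ℝ)) ^ 2 < |((D q.1 q.2 : ℤ) : ℝ)|}

theorem quot {a b : ℤ} (hmin : IsMin a b) (hf : FullS a b) :
    ∃ w : ℕ, 0 < w ∧ D a b = ((w * condS a b : ℕ) : ℤ) ^ 2 := by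
  obtain ⟨p, hp, he⟩ := mo_surj hmin hf
  have h1 : D a b = (nn p : ℤ) ^ 2 := by
    have := mo_D hp.2.2.1
    rwa [he] at this
  have h2 : condS a b = g6 p := by
    have := mo_cond hp
    rwa [he] at this
  obtain ⟨w, hw⟩ := g6_dvd hp.1 hp.2.1
  refine ⟨w, Nat.pos_of_ne_zero fun h0 => ?_, ?_⟩
  · have := nn_pos' hp
    rw [hw, h0, mul_zero] at this
    omega
  · rw [h1, h2, hw, mul_comm w]

theorem Mw_limit {lam : ℤ × ℤ → ℕ} (hl : Fac lam) {w : ℕ} (hw : 0 < w) : ∃ κ : ℝ, 0 ≤ κ ∧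
    Tendsto (fun N : ℝ => ((Mw lam w N).ncard : ℝ) / N ^ ((2 : ℝ) / 3)) atTop (𝓝 κ) := by
  classical
  choose κ hκ0 hκ using fun l : ℕ => Ax_limit (Pw_loc hl hw l)
  have hw0 : (0 : ℝ) < w := by exact_mod_cast hw
  refine ⟨∑ l ∈ Icc 1 62208, κ l * ((w : ℝ) / l) ^ ((2 : ℝ) / 3),
    sum_nonneg fun l _ => mul_nonneg (hκ0 l) (by positivity), ?_⟩
  have hlim : Tendsto (fun N : ℝ => ∑ l ∈ Icc 1 62208,
      ((Ax (Pw lam w l) (((w : ℝ) / l * N) ^ ((1 : ℝ) / 3))).ncard : ℝ) /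
        (((w : ℝ) / l * N) ^ ((1 : ℝ) / 3)) ^ 2 * ((w : ℝ) / l) ^ ((2 : ℝ) / 3)) atTop
      (𝓝 (∑ l ∈ Icc 1 62208, κ l * ((w : ℝ) / l) ^ ((2 : ℝ) / 3))) := by
    refine tendsto_finsetSum _ fun l hl' => ?_
    have hl0 : (0 : ℝ) < l := by exact_mod_cast (mem_Icc.1 hl').1
    refine Tendsto.mul_const _ ((hκ l).comp ?_)
    refine (tendsto_rpow_atTop (by norm_num)).comp ?_
    exact tendsto_id.const_mul_atTop (by positivity)
  refine hlim.congr' ?_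
  filter_upwards [eventually_gt_atTop 0] with N hN
  obtain ⟨FA, hFA⟩ : ∃ FA : ℕ → Finset (ℕ × ℕ), FA = fun l =>
    (Ax_fin (Pw lam w l) (((w : ℝ) / l * N) ^ ((1 : ℝ) / 3))).toFinset := ⟨_, rfl⟩
  have hmemFA : ∀ (l : ℕ) (p : ℕ × ℕ), 0 < l → (p ∈ FA l ↔
      (p ∈ Pw lam w l ∧ (l : ℝ) * g6 p ≤ N)) := by
    intro l p hl'
    have hl0 : (0 : ℝ) < l := by exact_mod_cast hl'
    rw [hFA]
    simp only [Set.Finite.mem_toFinset]
    have e : (((w : ℝ) / l * N) ^ ((1 : ℝ) / 3)) ^ 3 = (w : ℝ) / l * N := by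
      rw [← Real.rpow_natCast, ← Real.rpow_mul (by positivity)]
      norm_num
    constructor
    · rintro ⟨hp, h1, h2, h3⟩
      refine ⟨hp, ?_⟩
      rw [e] at h3
      have h4 : (p.1 : ℝ) * p.2 * (p.1 + p.2) = w * g6 p := by
        have := hp.1.2
        unfold nn at this
        exact_mod_cast this
      rw [h4] at h3
      have h5 : (w : ℝ) * (l * g6 p) ≤ w * N := by
        calc (w : ℝ) * (l * g6 p) = l * (w * g6 p) := by ring
          _ ≤ l * ((w : ℝ) / l * N) := mul_le_mul_of_nonneg_left h3 hl0.le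
          _ = w * N := by field_simp
      exact le_of_mul_le_mul_left h5 hw0
    · rintro ⟨hp, h1⟩
      refine ⟨hp, hp.1.1.1, hp.1.1.2.1, ?_⟩
      rw [e]
      have h4 : (p.1 : ℝ) * p.2 * (p.1 + p.2) = w * g6 p := by
        have := hp.1.2
        unfold nn at this
        exact_mod_cast this
      rw [h4]
      calc (w : ℝ) * g6 p = (w : ℝ) / l * (l * g6 p) := by field_simp
        _ ≤ (w : ℝ) / l * N := mul_le_mul_of_nonneg_left h1 (by positivity)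
  have hset : Mw lam w N = (((Icc 1 62208).biUnion (fun l => (FA l).image mo) :
      Finset (ℤ × ℤ)) : Set (ℤ × ℤ)) := by
    ext q
    rw [mem_coe, mem_biUnion]
    constructor
    · rintro ⟨⟨h1, h2, h3⟩, h4⟩
      obtain ⟨l1, l2⟩ := hl.1 q h1 h2
      obtain ⟨p, hp, he⟩ := mo_surj h1 h2
      have he' : mo p = q := he
      refine ⟨lam q, mem_Icc.2 ⟨l1, l2⟩, mem_image.2 ⟨p, ?_, he'⟩⟩
      have hc : condS q.1 q.2 = g6 p := by rw [← he']; exact mo_cond hp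
      have hD : D q.1 q.2 = (nn p : ℤ) ^ 2 := by rw [← he']; exact mo_D hp.2.2.1
      rw [hmemFA _ _ l1]
      rw [hc] at h3 h4
      rw [hD] at h4
      refine ⟨⟨⟨hp, ?_⟩, by rw [he']⟩, ?_⟩
      · have h5 : nn p ^ 2 = (w * g6 p) ^ 2 := by exact_mod_cast h4
        exact (Nat.pow_left_injective (by norm_num : 2 ≠ 0)) h5
      · push_cast at h3
        exact h3
    · rintro ⟨l, hl', hq⟩
      obtain ⟨p, hp, rfl⟩ := mem_image.1 hq
      rw [hmemFA _ _ (mem_Icc.1 hl').1] at hp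
      obtain ⟨⟨⟨hp1, hp2⟩, hp3⟩, hp4⟩ := hp
      refine ⟨⟨mo_min hp1, mo_full hp1.2.2.1, ?_⟩, ?_⟩
      · rw [mo_cond hp1, hp3]
        push_cast
        exact hp4
      · rw [mo_D hp1.2.2.1, mo_cond hp1, ← hp2]
  have hcard : ((Mw lam w N).ncard : ℝ) = ∑ l ∈ Icc 1 62208,
      ((Ax (Pw lam w l) (((w : ℝ) / l * N) ^ ((1 : ℝ) / 3))).ncard : ℝ) := by
    rw [hset, Set.ncard_coe_finset, card_biUnion]
    · push_cast
      refine sum_congr rfl fun l hl' => ?_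
      rw [Set.ncard_eq_toFinset_card _ (Ax_fin _ _), card_image_of_injOn, hFA]
      intro p hp p' hp' heq
      rw [mem_coe, hmemFA _ _ (mem_Icc.1 hl').1] at hp hp'
      exact mo_inj hp.1.1.1 hp'.1.1.1 heq
    · intro l hl1 l' hl2 hne
      rw [Function.onFun, disjoint_left]
      intro q hq hq'
      obtain ⟨p, hp, rfl⟩ := mem_image.1 hq
      obtain ⟨p', hp', he⟩ := mem_image.1 hq'
      rw [hmemFA _ _ (mem_Icc.1 hl1).1] at hp
      rw [hmemFA _ _ (mem_Icc.1 hl2).1] at hp'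
      apply hne
      rw [← hp.1.2, ← hp'.1.2, he]
  rw [hcard, sum_div]
  refine sum_congr rfl fun l hl' => ?_
  have hl0 : (0 : ℝ) < l := by exact_mod_cast (mem_Icc.1 hl').1
  have e : (((w : ℝ) / l * N) ^ ((1 : ℝ) / 3)) ^ 2 =
      ((w : ℝ) / l) ^ ((2 : ℝ) / 3) * N ^ ((2 : ℝ) / 3) := by
    rw [← Real.rpow_natCast, ← Real.rpow_mul (by positivity), Real.mul_rpow (by positivity) hN.le]
    norm_num
  rw [e]
  have h1 : ((w : ℝ) / l) ^ ((2 : ℝ) / 3) ≠ 0 := by positivity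
  have h2 : N ^ ((2 : ℝ) / 3) ≠ 0 := by positivity
  field_simp

theorem Gd_swap {p : ℕ × ℕ} (h : Gd p) : Gd p.swap := by
  obtain ⟨h1, h2, h3, h4, h5⟩ := h
  have e : ((p.swap.1 : ℤ) - p.swap.2) = -((p.1 : ℤ) - p.2) := by
    simp only [Prod.fst_swap, Prod.snd_swap]; ring
  refine ⟨h2, h1, ?_, fun q hq hq3 hc => h4 q hq hq3 ⟨hc.2, hc.1⟩, ?_⟩
  · rw [e]; exact h3.neg_right
  · rintro ⟨c1, c2⟩
    rw [e] at c2
    have c2' := (dvd_neg).1 c2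
    refine h5 ⟨?_, c2'⟩
    have c3 : (9 : ℤ) ∣ (p.2 : ℤ) := by exact_mod_cast c1
    have c4 : (9 : ℤ) ∣ (p.1 : ℤ) - p.2 := (by norm_num : (9 : ℤ) ∣ 27).trans c2'
    have c5 := dvd_add c4 c3
    rw [sub_add_cancel] at c5
    exact_mod_cast c5

theorem nn_swap (p : ℕ × ℕ) : nn p.swap = nn p := by
  unfold nn
  simp only [Prod.fst_swap, Prod.snd_swap]
  ring

theorem g6_swap (p : ℕ × ℕ) : g6 p.swap = g6 p := by
  unfold g6
  rw [nn_swap]
  refine prod_congr rfl fun q _ => ?_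
  simp only [Prod.fst_swap, Prod.snd_swap]
  by_cases h : q ∣ p.1 ∧ q ∣ p.2
  · rw [if_pos h, if_pos ⟨h.2, h.1⟩]
  · rw [if_neg h, if_neg fun hc => h ⟨hc.2, hc.1⟩]

/-- **The models with a large quotient.** -/
theorem Ml_le {σ : ℝ} (hσ : 0 < σ) (hσ1 : σ < 1 / 3) : ∃ η C : ℝ, 0 < η ∧ 0 < C ∧
    ∀ lam : ℤ × ℤ → ℕ, (∀ q : ℤ × ℤ, IsMin q.1 q.2 → FullS q.1 q.2 → 1 ≤ lam q) →
    ∀ N W : ℝ, 1 ≤ N → 1 ≤ W →
    ((Ml lam W N).ncard : ℝ) ≤ C * (W ^ (-σ) * N ^ ((2 : ℝ) / 3) + N ^ (2 / 3 - η)) := by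
  classical
  obtain ⟨η, hη, C1, hC1, hup⟩ := up stmtAA (δ := 1 / 80) (by norm_num)
  obtain ⟨C2, hC2, htail⟩ := tail_pairs hσ hσ1
  refine ⟨min η (1 / 120), C1 + 2 * C2, lt_min hη (by norm_num), by positivity, ?_⟩
  intro lam hlam N W hN hW
  have hN0 : 0 < N := by linarith
  have hW0 : 0 < W := by linarith
  obtain ⟨B, hB⟩ : ∃ B : ℕ, B = ⌊2 * N ^ (1 / 3 + 1 / 480 : ℝ)⌋₊ := ⟨_, rfl⟩
  obtain ⟨E, hE⟩ : ∃ E : Finset (ℕ × ℕ), E = (range (B + 1) ×ˢ range (B + 1)).filter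
    (fun p => Gd p ∧ (g6 p : ℝ) ≤ N ∧ W * (g6 p : ℝ) < nn p ∧
      ((p.1 + p.2 : ℕ) : ℝ) ≤ 2 * N ^ (1 / 3 + 1 / 480 : ℝ)) := ⟨_, rfl⟩
  have hEm : ∀ p ∈ E, Gd p ∧ (g6 p : ℝ) ≤ N ∧ W * (g6 p : ℝ) < nn p ∧
      ((p.1 + p.2 : ℕ) : ℝ) ≤ 2 * N ^ (1 / 3 + 1 / 480 : ℝ) := by
    intro p hp
    rw [hE] at hp
    exact (mem_filter.1 hp).2
  have hcE : (E.card : ℝ) ≤ 2 * (C2 * (W ^ (-σ) * N ^ ((2 : ℝ) / 3) +
      N ^ (2 / 3 - 1 / 120 : ℝ))) := by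
    have h1 := htail N W hN hW (E.filter (fun p => p.1 ≤ p.2)) (by
      intro p hp
      obtain ⟨hp1, hp2⟩ := mem_filter.1 hp
      obtain ⟨a1, a2, a3, a4⟩ := hEm p hp1
      exact ⟨a1, hp2, a2, a3, a4⟩)
    have h2 := htail N W hN hW ((E.filter (fun p => ¬ p.1 ≤ p.2)).image Prod.swap) (by
      intro p hp
      obtain ⟨q, hq, rfl⟩ := mem_image.1 hp
      obtain ⟨hq1, hq2⟩ := mem_filter.1 hq
      obtain ⟨a1, a2, a3, a4⟩ := hEm q hq1
      refine ⟨Gd_swap a1, ?_, by rw [g6_swap]; exact a2, by rw [g6_swap, nn_swap]; exact a3, ?_⟩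
      · simp only [Prod.fst_swap, Prod.snd_swap]; omega
      · simp only [Prod.fst_swap, Prod.snd_swap]
        rw [add_comm]
        exact a4)
    rw [card_image_of_injective _ Prod.swap_injective] at h2
    have h3 : E.card = (E.filter (fun p => p.1 ≤ p.2)).card +
        (E.filter (fun p => ¬ p.1 ≤ p.2)).card := (card_filter_add_card_filter_not _).symm
    calc (E.card : ℝ) = (E.filter (fun p => p.1 ≤ p.2)).card +
          (E.filter (fun p => ¬ p.1 ≤ p.2)).card := by exact_mod_cast h3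
      _ ≤ _ := by linarith
  have hUfin : (Up (1 / 80) N).Finite :=
    (all_finite N hN).subset fun q hq => ⟨hq.1, hq.2.1, hq.2.2.1⟩
  have hsub : Ml lam W N ⊆ Up (1 / 80) N ∪ ((E.image mo : Finset (ℤ × ℤ)) : Set (ℤ × ℤ)) := by
    rintro ⟨a, b⟩ ⟨⟨hmin, hf, hN'⟩, hlarge⟩
    simp only at hmin hf hN' hlarge
    have hl1 := hlam (a, b) hmin hf
    have hcN : (condS a b : ℝ) ≤ N := by
      refine le_trans ?_ hN'
      exact_mod_cast Nat.le_mul_of_pos_left _ hl1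
    rcases lt_or_ge ((condS a b : ℝ) ^ (2 + 1 / 80 : ℝ)) (4 * |(a : ℝ)| ^ 3) with hc | hc
    · exact Or.inl ⟨hmin, hf, hcN, hc⟩
    right
    obtain ⟨p, hp, he⟩ := mo_surj hmin hf
    have hD : D a b = (nn p : ℤ) ^ 2 := by
      have := mo_D hp.2.2.1
      rwa [he] at this
    have hcond : condS a b = g6 p := by
      have := mo_cond hp
      rwa [he] at this
    have ha : 3 * a = (p.1 : ℤ) ^ 2 + p.1 * p.2 + (p.2 : ℤ) ^ 2 := by
      have := mo_a hp.2.2.1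
      rwa [he] at this
    rw [hcond] at hcN hlarge
    have h1 : W * (g6 p : ℝ) < nn p := by
      rw [hD] at hlarge
      push_cast at hlarge
      rw [abs_of_nonneg (by positivity)] at hlarge
      exact lt_of_pow_lt_pow_left₀ 2 (Nat.cast_nonneg _) hlarge
    have h2 : ((p.1 + p.2 : ℕ) : ℝ) ≤ 2 * N ^ (1 / 3 + 1 / 480 : ℝ) := by
      obtain ⟨s, hs⟩ : ∃ s : ℝ, s = (p.1 : ℝ) + p.2 := ⟨_, rfl⟩
      have hp1 : (0 : ℝ) < p.1 := by exact_mod_cast hp.1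
      have hp2 : (0 : ℝ) < p.2 := by exact_mod_cast hp.2.1
      have hs0 : 0 < s := by rw [hs]; positivity
      have haR : 3 * (a : ℝ) = (p.1 : ℝ) ^ 2 + p.1 * p.2 + (p.2 : ℝ) ^ 2 := by exact_mod_cast ha
      have ha1 : s ^ 2 / 4 ≤ (a : ℝ) := by
        have : 3 / 4 * s ^ 2 ≤ 3 * (a : ℝ) := by
          rw [haR, hs]
          nlinarith [sq_nonneg ((p.1 : ℝ) - p.2)]
        linarith
      have ha0 : 0 < (a : ℝ) := lt_of_lt_of_le (by positivity) ha1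
      rw [abs_of_pos ha0] at hc
      have h3 : 4 * (s ^ 2 / 4) ^ 3 ≤ 4 * (a : ℝ) ^ 3 := by
        have := pow_le_pow_left₀ (by positivity) ha1 3
        linarith
      have h4 : (condS a b : ℝ) ^ (2 + 1 / 80 : ℝ) ≤ N ^ (2 + 1 / 80 : ℝ) := by
        rw [hcond]
        exact Real.rpow_le_rpow (Nat.cast_nonneg _) hcN (by norm_num)
      have h5 : s ^ 6 ≤ 64 * N ^ (2 + 1 / 80 : ℝ) := by
        have e : 4 * (s ^ 2 / 4) ^ 3 = s ^ 6 / 16 := by ring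
        rw [e] at h3
        have : 0 ≤ N ^ (2 + 1 / 80 : ℝ) := by positivity
        linarith
      have h6 : (2 * N ^ (1 / 3 + 1 / 480 : ℝ)) ^ 6 = 64 * N ^ (2 + 1 / 80 : ℝ) := by
        rw [mul_pow, ← Real.rpow_natCast (N ^ (1 / 3 + 1 / 480 : ℝ)) 6, ← Real.rpow_mul hN0.le]
        norm_num
      rw [← h6] at h5
      have h7 := (pow_le_pow_iff_left₀ hs0.le (by positivity) (by norm_num : 6 ≠ 0)).1 h5
      rw [hs] at h7
      push_cast
      exact h7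
    rw [mem_coe, mem_image]
    refine ⟨p, ?_, he⟩
    rw [hE, mem_filter, mem_product, mem_range, mem_range]
    have h3 : p.1 + p.2 ≤ B := by rw [hB]; exact Nat.le_floor h2
    exact ⟨⟨by omega, by omega⟩, hp, hcN, h1, h2⟩
  have h1 := Set.ncard_le_ncard hsub (hUfin.union (Finset.finite_toSet _))
  have h2 := Set.ncard_union_le (Up (1 / 80) N) ((E.image mo : Finset (ℤ × ℤ)) : Set (ℤ × ℤ))
  rw [Set.ncard_coe_finset] at h2
  have h3 : (E.image mo).card ≤ E.card := card_image_le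
  have h4 := hup N hN
  have h5 : ((Ml lam W N).ncard : ℝ) ≤ (Up (1 / 80) N).ncard + E.card := by
    have : (Ml lam W N).ncard ≤ (Up (1 / 80) N).ncard + E.card := by omega
    exact_mod_cast this
  have e1 : N ^ (2 / 3 - η) ≤ N ^ (2 / 3 - min η (1 / 120)) :=
    Real.rpow_le_rpow_of_exponent_le hN (by linarith [min_le_left η (1 / 120)])
  have e2 : N ^ (2 / 3 - 1 / 120 : ℝ) ≤ N ^ (2 / 3 - min η (1 / 120)) :=
    Real.rpow_le_rpow_of_exponent_le hN (by linarith [min_le_right η (1 / 120)])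
  have e3 : 0 ≤ W ^ (-σ) * N ^ ((2 : ℝ) / 3) := by positivity
  have e4 : 0 ≤ N ^ (2 / 3 - min η (1 / 120)) := by positivity
  calc ((Ml lam W N).ncard : ℝ) ≤ C1 * N ^ (2 / 3 - η) + 2 * (C2 * (W ^ (-σ) * N ^ ((2 : ℝ) / 3) +
        N ^ (2 / 3 - 1 / 120 : ℝ))) := h5.trans (add_le_add h4 hcE)
    _ ≤ C1 * N ^ (2 / 3 - min η (1 / 120)) + 2 * (C2 * (W ^ (-σ) * N ^ ((2 : ℝ) / 3) +
        N ^ (2 / 3 - min η (1 / 120)))) := by gcongr
    _ ≤ _ := by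
        have : 0 ≤ C1 * (W ^ (-σ) * N ^ ((2 : ℝ) / 3)) := by positivity
        linarith

end Pool.Agent.Y679.Par
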