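import Pool.Agent.Y679.Tm

/-! **Densities of the models with a given quotient** (helper679). -/

set_option autoImplicit false

namespace Pool.Agent.Y679.Par

open Finset Filter Topology Pool.Agent.TH498.AR Pool.Agent.H925R.Szpiro

/-- the factor between the prime-to-6 part of the conductor and the function by which the curves
are ordered -/
def Fac (lam : ℤ × ℤ → ℕ) : Prop :=
  (∀ q : ℤ × ℤ, IsMin q.1 q.2 → FullS q.1 q.2 → 1 ≤ lam q ∧ lam q ≤ 62208) ∧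
  ∀ m : ℕ, ∃ k : ℕ, ∀ q q' : ℤ × ℤ, IsMin q.1 q.2 → FullS q.1 q.2 → IsMin q'.1 q'.2 →
    FullS q'.1 q'.2 → ¬ (2 : ℤ) ^ m ∣ D q.1 q.2 → ¬ (3 : ℤ) ^ m ∣ D q.1 q.2 →
    ¬ (2 : ℤ) ^ m ∣ D q'.1 q'.2 → ¬ (3 : ℤ) ^ m ∣ D q'.1 q'.2 →
    (6 : ℤ) ^ k ∣ q.1 - q'.1 → (6 : ℤ) ^ k ∣ q.2 - q'.2 → lam q = lam q'

/-- the pairs with quotient `w` and factor `l` -/
def Pw (lam : ℤ × ℤ → ℕ) (w l : ℕ) : Set (ℕ × ℕ) := {p | p ∈ Sw w ∧ lam (mo p) = l}

theorem small_pow {w : ℕ} (hw : 0 < w) {p : ℕ × ℕ} (hp : p ∈ Sw w) {r : ℕ} (hr : r.Prime)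
    (hr5 : r < 5) : ¬ (r : ℤ) ^ (2 * w + 1) ∣ D (mo p).1 (mo p).2 := by
  obtain ⟨⟨h1, h2, h3, -⟩, h6⟩ := hp
  have hn : 0 < nn p := nn_pos h1 h2
  rw [mo_D h3]
  intro hd
  have hd' : r ^ (2 * w + 1) ∣ nn p ^ 2 := by exact_mod_cast hd
  have h7 := (hr.pow_dvd_iff_le_factorization (pow_ne_zero 2 hn.ne')).1 hd'
  rw [Nat.factorization_pow, Finsupp.smul_apply, smul_eq_mul, h6,
    Nat.factorization_mul hw.ne' (g6_pos p).ne', Finsupp.add_apply, fact_g6 h1 h2 hr] at h7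
  have h8 : kq p r = 0 := by
    unfold kq
    rw [if_neg (by omega)]
  have h9 := Nat.factorization_lt r hw.ne'
  omega

theorem Pw_loc {lam : ℤ × ℤ → ℕ} (hl : Fac lam) {w : ℕ} (hw : 0 < w) (l : ℕ) :
    IsLoc (Pw lam w l) := by
  classical
  intro P1
  obtain ⟨P0, hP1, Q0, hQ0, T0, -, hT1, hT2⟩ := Sw_loc hw P1
  obtain ⟨k, hk⟩ := hl.2 (2 * w + 1)
  obtain ⟨Q, hQ⟩ : ∃ Q, Q = Q0 * (3 * 6 ^ k) := ⟨_, rfl⟩
  have hQpos : 0 < Q := by rw [hQ]; positivity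
  refine ⟨P0, hP1, Q, hQpos, (range Q ×ˢ range Q).filter
    (fun t => ∃ p ∈ Pw lam w l, p.1 % Q = t.1 ∧ p.2 % Q = t.2), filter_subset _ _, ?_, ?_⟩
  · intro p hp
    rw [mem_filter, mem_product, mem_range, mem_range]
    exact ⟨⟨Nat.mod_lt _ hQpos, Nat.mod_lt _ hQpos⟩, p, hp, rfl, rfl⟩
  · intro p h1 h2 ht hlarge
    rw [mem_filter] at ht
    obtain ⟨-, p', ⟨hp'S, hp'l⟩, e1, e2⟩ := ht
    simp only at e1 e2
    have m1 : p'.1 ≡ p.1 [MOD Q] := e1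
    have m2 : p'.2 ≡ p.2 [MOD Q] := e2
    have hQ0d : Q0 ∣ Q := ⟨_, hQ⟩
    have hpS : p ∈ Sw w := by
      refine hT2 p h1 h2 ?_ hlarge
      have c1 : p'.1 % Q0 = p.1 % Q0 := Nat.ModEq.of_dvd hQ0d m1
      have c2 : p'.2 % Q0 = p.2 % Q0 := Nat.ModEq.of_dvd hQ0d m2
      rw [← c1, ← c2]
      exact hT1 p' hp'S
    refine ⟨hpS, ?_⟩
    rw [← hp'l]
    have h3 : (3 : ℤ) ∣ (p.1 : ℤ) - p.2 := hpS.1.2.2.1
    have h3' : (3 : ℤ) ∣ (p'.1 : ℤ) - p'.2 := hp'S.1.2.2.1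
    have hd36 : (3 * 6 ^ k : ℕ) ∣ Q := ⟨Q0, by rw [hQ]; ring⟩
    have d1 : ((3 * 6 ^ k : ℕ) : ℤ) ∣ (p'.1 : ℤ) - p.1 :=
      Nat.modEq_iff_dvd.1 (Nat.ModEq.of_dvd hd36 m1).symm
    have d2 : ((3 * 6 ^ k : ℕ) : ℤ) ∣ (p'.2 : ℤ) - p.2 :=
      Nat.modEq_iff_dvd.1 (Nat.ModEq.of_dvd hd36 m2).symm
    have dm : (6 : ℤ) ^ k ∣ mid p' - mid p := by
      have h4 : (3 : ℤ) * 6 ^ k ∣ 3 * (mid p' - mid p) := by
        have e : 3 * (mid p' - mid p) = ((p'.1 : ℤ) - p.1) - ((p'.2 : ℤ) - p.2) := by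
          have := mid_eq h3
          have := mid_eq h3'
          linarith
        rw [e]
        push_cast at d1 d2
        exact dvd_sub d1 d2
      exact (mul_dvd_mul_iff_left (by norm_num : (3 : ℤ) ≠ 0)).1 h4
    have d1' : (6 : ℤ) ^ k ∣ (p'.1 : ℤ) - p.1 := by
      push_cast at d1
      exact (Dvd.intro_left _ rfl).trans d1
    have d2' : (6 : ℤ) ^ k ∣ (p'.2 : ℤ) - p.2 := by
      push_cast at d2
      exact (Dvd.intro_left _ rfl).trans d2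
    have q0 : mid p ≡ mid p' [ZMOD (6 : ℤ) ^ k] := Int.modEq_iff_dvd.2 dm
    have q1 : (p.1 : ℤ) ≡ p'.1 [ZMOD (6 : ℤ) ^ k] := Int.modEq_iff_dvd.2 d1'
    have q2 : (p.2 : ℤ) ≡ p'.2 [ZMOD (6 : ℤ) ^ k] := Int.modEq_iff_dvd.2 d2'
    have r1 := q0.sub q1
    have r2 := q0.add q2
    have s1 : (mo p).1 ≡ (mo p').1 [ZMOD (6 : ℤ) ^ k] := by
      unfold mo
      exact (((r1.mul q0).add (r1.mul r2)).add (q0.mul r2)).neg
    have s2 : (mo p).2 ≡ (mo p').2 [ZMOD (6 : ℤ) ^ k] := by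
      unfold mo
      exact (r1.mul q0).mul r2
    exact hk (mo p) (mo p') (mo_min hpS.1) (mo_full h3) (mo_min hp'S.1) (mo_full h3')
      (by exact_mod_cast small_pow hw hpS Nat.prime_two (by norm_num))
      (by exact_mod_cast small_pow hw hpS Nat.prime_three (by norm_num))
      (by exact_mod_cast small_pow hw hp'S Nat.prime_two (by norm_num))
      (by exact_mod_cast small_pow hw hp'S Nat.prime_three (by norm_num))
      (Int.modEq_iff_dvd.1 s1.symm) (Int.modEq_iff_dvd.1 s2.symm)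

theorem swap_loc {S : Set (ℕ × ℕ)} (hS : IsLoc S) : IsLoc {p | p.swap ∈ S} := by
  classical
  intro P1
  obtain ⟨P0, hP1, Q, hQ, T, hT, hT1, hT2⟩ := hS P1
  refine ⟨P0, hP1, Q, hQ, T.image Prod.swap, ?_, ?_, ?_⟩
  · intro t ht
    obtain ⟨s, hs, rfl⟩ := mem_image.1 ht
    have := mem_product.1 (hT hs)
    exact mem_product.2 ⟨this.2, this.1⟩
  · intro p hp
    have := hT1 p.swap hp
    exact mem_image.2 ⟨_, this, rfl⟩
  · intro p h1 h2 ht hl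
    obtain ⟨s, hs, he⟩ := mem_image.1 ht
    have hs' : s = (p.2 % Q, p.1 % Q) := by
      have := congrArg Prod.swap he
      simpa using this
    rw [hs'] at hs
    refine hT2 p.swap h2 h1 hs fun q hq hqP => ?_
    obtain ⟨a1, a2⟩ := hl q hq hqP
    refine ⟨fun h => a1 ⟨h.2, h.1⟩, fun h => a2 ?_⟩
    have e : nn p.swap = nn p := by
      unfold nn
      simp only [Prod.fst_swap, Prod.snd_swap]
      ring
    rwa [e] at h

/-- all the members of a set with `a b (a + b) ≤ x ^ 3` -/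
def Ax (S : Set (ℕ × ℕ)) (x : ℝ) : Set (ℕ × ℕ) :=
  {p | p ∈ S ∧ 0 < p.1 ∧ 0 < p.2 ∧ (p.1 : ℝ) * p.2 * (p.1 + p.2) ≤ x ^ 3}

theorem Ax_eq (S : Set (ℕ × ℕ)) (x : ℝ) :
    Ax S x = Sx S x ∪ Prod.swap '' (Sx {p | p.swap ∈ S} x) := by
  ext p
  constructor
  · rintro ⟨h1, h2, h3, h4⟩
    rcases le_total p.1 p.2 with h | h
    · exact Or.inl ⟨h1, h2, h, h4⟩
    · refine Or.inr ⟨p.swap, ⟨by simpa using h1, h3, h, ?_⟩, by simp⟩
      simp only [Prod.fst_swap, Prod.snd_swap]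
      have : (p.2 : ℝ) * p.1 * (p.2 + p.1) = (p.1 : ℝ) * p.2 * (p.1 + p.2) := by ring
      rw [this]
      exact h4
  · rintro (⟨h1, h2, h, h4⟩ | ⟨q, ⟨h1, h2, h, h4⟩, rfl⟩)
    · exact ⟨h1, h2, by omega, h4⟩
    · refine ⟨h1, by simp only [Prod.fst_swap]; omega, by simp only [Prod.snd_swap]; omega, ?_⟩
      simp only [Prod.fst_swap, Prod.snd_swap]
      have : (q.2 : ℝ) * q.1 * (q.2 + q.1) = (q.1 : ℝ) * q.2 * (q.1 + q.2) := by ring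
      rw [this]
      exact h4

theorem Ax_fin (S : Set (ℕ × ℕ)) (x : ℝ) : (Ax S x).Finite := by
  rw [Ax_eq]
  exact (Sx_fin S x).union ((Sx_fin _ x).image _)

theorem Ax_card (S : Set (ℕ × ℕ)) {x : ℝ} (hx : 0 ≤ x) :
    ((Ax S x).ncard : ℝ) ≤ ((Sx S x).ncard : ℝ) + ((Sx {p | p.swap ∈ S} x).ncard : ℝ) ∧
    ((Sx S x).ncard : ℝ) + ((Sx {p | p.swap ∈ S} x).ncard : ℝ) ≤ ((Ax S x).ncard : ℝ) + x := by
  have h1 := Set.ncard_union_add_ncard_inter (Sx S x) (Prod.swap '' (Sx {p | p.swap ∈ S} x))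
    (Sx_fin S x) ((Sx_fin _ x).image _)
  rw [← Ax_eq, Set.ncard_image_of_injective _ Prod.swap_injective] at h1
  have h2 : ((Sx S x ∩ Prod.swap '' (Sx {p | p.swap ∈ S} x)).ncard : ℝ) ≤ x := by
    have h3 : (Sx S x ∩ Prod.swap '' (Sx {p | p.swap ∈ S} x)) ⊆
        (((Icc 1 ⌊x⌋₊).image (fun n => (n, n)) : Finset (ℕ × ℕ)) : Set (ℕ × ℕ)) := by
      rintro p ⟨⟨-, h2, h, h4⟩, q, ⟨-, h2', h', h4'⟩, rfl⟩
      simp only [Prod.fst_swap, Prod.snd_swap] at h2 h h4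
      have heq : q.1 = q.2 := le_antisymm h' h
      rw [mem_coe, mem_image]
      refine ⟨q.1, mem_Icc.2 ⟨h2', Nat.le_floor ?_⟩, ?_⟩
      · have h5 : (0 : ℝ) < q.1 := by exact_mod_cast h2'
        have h6 : (q.1 : ℝ) ^ 3 ≤ x ^ 3 := by
          rw [← heq] at h4
          refine le_trans ?_ h4
          have : 0 < (q.1 : ℝ) ^ 3 := by positivity
          nlinarith
        exact (pow_le_pow_iff_left₀ h5.le hx (by norm_num)).1 h6
      · refine Prod.ext ?_ ?_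
        · simp only [Prod.fst_swap]; exact heq
        · simp only [Prod.snd_swap]
    have h4 := Set.ncard_le_ncard h3 (Finset.finite_toSet _)
    rw [Set.ncard_coe_finset] at h4
    have h5 : ((Icc 1 ⌊x⌋₊).image (fun n => (n, n))).card ≤ ⌊x⌋₊ := by
      refine card_image_le.trans ?_
      rw [Nat.card_Icc, Nat.add_sub_cancel]
    calc ((Sx S x ∩ Prod.swap '' (Sx {p | p.swap ∈ S} x)).ncard : ℝ) ≤ (⌊x⌋₊ : ℝ) := by
          exact_mod_cast h4.trans h5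
      _ ≤ x := Nat.floor_le hx
  have h3 : ((Ax S x).ncard : ℝ) + ((Sx S x ∩ Prod.swap '' (Sx {p | p.swap ∈ S} x)).ncard : ℝ) =
      ((Sx S x).ncard : ℝ) + ((Sx {p | p.swap ∈ S} x).ncard : ℝ) := by exact_mod_cast h1
  have h4 : (0 : ℝ) ≤ ((Sx S x ∩ Prod.swap '' (Sx {p | p.swap ∈ S} x)).ncard : ℝ) :=
    Nat.cast_nonneg _
  constructor <;> linarith

theorem Ax_limit {S : Set (ℕ × ℕ)} (hS : IsLoc S) : ∃ κ : ℝ, 0 ≤ κ ∧
    Tendsto (fun x : ℝ => ((Ax S x).ncard : ℝ) / x ^ 2) atTop (𝓝 κ) := by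
  obtain ⟨κ₁, h1⟩ := Sx_limit hS
  obtain ⟨κ₂, h2⟩ := Sx_limit (swap_loc hS)
  have h3 := h1.add h2
  have h4 : Tendsto (fun x : ℝ => ((Sx S x).ncard : ℝ) / x ^ 2 +
      ((Sx {p | p.swap ∈ S} x).ncard : ℝ) / x ^ 2 - x⁻¹) atTop (𝓝 (κ₁ + κ₂)) := by
    have := h3.sub tendsto_inv_atTop_zero
    rwa [sub_zero] at this
  have h5 : Tendsto (fun x : ℝ => ((Ax S x).ncard : ℝ) / x ^ 2) atTop (𝓝 (κ₁ + κ₂)) := by
    refine tendsto_of_tendsto_of_tendsto_of_le_of_le' h4 h3 ?_ ?_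
    · filter_upwards [eventually_gt_atTop 0] with x hx
      have h6 := (Ax_card S hx.le).2
      have e : ((Sx S x).ncard : ℝ) / x ^ 2 + ((Sx {p | p.swap ∈ S} x).ncard : ℝ) / x ^ 2 - x⁻¹ =
          (((Sx S x).ncard : ℝ) + ((Sx {p | p.swap ∈ S} x).ncard : ℝ) - x) / x ^ 2 := by
        field_simp
      rw [e]
      exact div_le_div_of_nonneg_right (by linarith) (by positivity)
    · filter_upwards [eventually_gt_atTop 0] with x hx
      have h6 := (Ax_card S hx.le).1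
      rw [← add_div]
      exact div_le_div_of_nonneg_right h6 (by positivity)
  refine ⟨κ₁ + κ₂, ?_, h5⟩
  refine ge_of_tendsto h5 ?_
  filter_upwards with x
  positivity

end Pool.Agent.Y679.Par
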