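import Pool.Agent.TH498.AR.Loc2

/-! **Densities of sets of pairs given by local conditions** (helper679). -/

set_option autoImplicit false

namespace Pool.Agent.Y679.Par

open Finset Filter Topology Pool.Agent.TH498.AR

/-- the members of a set with `a ≤ b`, `a b (a + b) ≤ x ^ 3` -/
def Sx (S : Set (ℕ × ℕ)) (x : ℝ) : Set (ℕ × ℕ) := {p | p ∈ S ∧ p ∈ VV x}

theorem Sx_fin (S : Set (ℕ × ℕ)) (x : ℝ) : (Sx S x).Finite := (VV_finite x).subset fun _ hp => hp.2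

/-- sets given by congruences up to large primes -/
def IsLoc (S : Set (ℕ × ℕ)) : Prop := ∀ P1 : ℕ, ∃ P0 : ℕ, P1 ≤ P0 ∧ ∃ Q : ℕ, 0 < Q ∧
  ∃ T : Finset (ℕ × ℕ), T ⊆ range Q ×ˢ range Q ∧
    (∀ p ∈ S, (p.1 % Q, p.2 % Q) ∈ T) ∧
    ∀ p : ℕ × ℕ, 0 < p.1 → 0 < p.2 → (p.1 % Q, p.2 % Q) ∈ T →
      (∀ q : ℕ, q.Prime → P0 < q → ¬ (q ∣ p.1 ∧ q ∣ p.2) ∧ ¬ q ^ 2 ∣ nn p) → p ∈ S

theorem Sx_approx {S : Set (ℕ × ℕ)} (hS : IsLoc S) {ε : ℝ} (hε : 0 < ε) :
    ∃ L C : ℝ, ∀ x : ℝ, 1 ≤ x → |((Sx S x).ncard : ℝ) - L * x ^ 2| ≤ ε * x ^ 2 + C * x := by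
  classical
  -- the parameters
  obtain ⟨η, hη⟩ : ∃ η : ℝ, η = min 1 ((ε / 4) ^ 2) := ⟨_, rfl⟩
  have hη0 : 0 < η := by rw [hη]; positivity
  have hη1 : η ≤ 1 := by rw [hη]; exact min_le_left _ _
  have hηs : 2 * Real.sqrt η ≤ ε / 2 := by
    have : Real.sqrt η ≤ ε / 4 := by
      rw [Real.sqrt_le_left (by positivity), hη]
      exact min_le_right _ _
    linarith
  obtain ⟨P0, hP0, Q, hQ0, T, hT, hT1, hT2⟩ := hS (max 1 ⌈10 / (η * ε)⌉₊)
  have hP01 : 1 ≤ P0 := (le_max_left _ _).trans hP0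
  have hP0pos : (0 : ℝ) < P0 := by exact_mod_cast (by omega : 0 < P0)
  have hP0e : 5 / (η * P0) ≤ ε / 2 := by
    have h1 : 10 / (η * ε) ≤ P0 := by
      refine (Nat.le_ceil _).trans ?_
      exact_mod_cast (le_max_right _ _).trans hP0
    rw [div_le_iff₀ (by positivity)] at h1
    rw [div_le_iff₀ (by positivity)]
    nlinarith
  choose L C hLC using fun t : ℕ × ℕ => class_count hη0 hη1 hQ0 t.1 t.2
  refine ⟨∑ t ∈ T, L t, ∑ t ∈ T, C t, fun x hx => ?_⟩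
  have hx0 : 0 < x := by linarith
  have hNfin : (Sx S x).Finite := Sx_fin S x
  set NF : Finset (ℕ × ℕ) := hNfin.toFinset with hNF
  set UF : Finset (ℕ × ℕ) := T.biUnion (fun t => (hLC t x hx).1.toFinset) with hUF
  have hNc : ((Sx S x).ncard : ℝ) = (NF.card : ℝ) := by
    rw [hNF, Set.ncard_eq_toFinset_card _ hNfin]
  have hTr : ∀ t ∈ T, t.1 < Q ∧ t.2 < Q := by
    intro t ht
    have := mem_product.1 (hT ht)
    exact ⟨mem_range.1 this.1, mem_range.1 this.2⟩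
  have hUc : (UF.card : ℝ) = ∑ t ∈ T, ((Cls η Q t.1 t.2 x).ncard : ℝ) := by
    rw [hUF, card_biUnion]
    · push_cast
      refine sum_congr rfl fun t _ => ?_
      exact_mod_cast (Set.ncard_eq_toFinset_card _ (hLC t x hx).1).symm
    · intro t ht t' ht' hne
      rw [Function.onFun, disjoint_left]
      intro p hp hp'
      rw [Set.Finite.mem_toFinset] at hp hp'
      apply hne
      have u1 := hTr t ht
      have u2 := hTr t' ht'
      have v1 := hp.2.2.2.2.1.symm.trans hp'.2.2.2.2.1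
      have v2 := hp.2.2.2.2.2.symm.trans hp'.2.2.2.2.2
      rw [Nat.mod_eq_of_lt u1.1, Nat.mod_eq_of_lt u2.1] at v1
      rw [Nat.mod_eq_of_lt u1.2, Nat.mod_eq_of_lt u2.2] at v2
      exact Prod.ext v1 v2
  have hU : |(UF.card : ℝ) - (∑ t ∈ T, L t) * x ^ 2| ≤ (∑ t ∈ T, C t) * x := by
    rw [hUc, sum_mul, sum_mul, ← sum_sub_distrib]
    exact (abs_sum_le_sum_abs _ _).trans (sum_le_sum fun t _ => (hLC t x hx).2)
  -- the two differences
  have hd1 : ((NF \ UF).card : ℝ) ≤ 2 * Real.sqrt η * x ^ 2 := by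
    refine cusp_count hη0 hx _ fun p hp => ?_
    obtain ⟨hpN, hpU⟩ := Finset.mem_sdiff.1 hp
    rw [hNF, Set.Finite.mem_toFinset] at hpN
    obtain ⟨hpS, a1, a2, a5⟩ := hpN
    refine ⟨⟨a1, a2, a5⟩, ?_⟩
    by_contra hcon
    push Not at hcon
    apply hpU
    rw [hUF, mem_biUnion]
    refine ⟨(p.1 % Q, p.2 % Q), hT1 p hpS, ?_⟩
    rw [Set.Finite.mem_toFinset]
    exact ⟨a1, a2, hcon, a5, (Nat.mod_mod _ _).symm, (Nat.mod_mod _ _).symm⟩
  have hd2 : ((UF \ NF).card : ℝ) ≤ 5 * x ^ 2 / (η * P0) := by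
    refine bad_count hη0 hx (by omega) _ fun p hp => ?_
    obtain ⟨hpU, hpN⟩ := Finset.mem_sdiff.1 hp
    rw [hUF, mem_biUnion] at hpU
    obtain ⟨t, ht, hpt⟩ := hpU
    rw [Set.Finite.mem_toFinset] at hpt
    obtain ⟨a1, a2, a3, a4, a5, a6⟩ := hpt
    refine ⟨⟨a1, a2, a4⟩, a3, ?_⟩
    by_contra hcon
    push Not at hcon
    apply hpN
    rw [hNF, Set.Finite.mem_toFinset]
    obtain ⟨u1, u2⟩ := hTr t ht
    rw [Nat.mod_eq_of_lt u1] at a5
    rw [Nat.mod_eq_of_lt u2] at a6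
    refine ⟨hT2 p a1 (by omega) (by rw [a5, a6]; exact ht) ?_, a1, a2, a4⟩
    intro q hq hqP
    obtain ⟨c1, c2⟩ := hcon q hq hqP
    exact ⟨fun h => c1 h.1 h.2, c2⟩
  have hd3 : |(NF.card : ℝ) - UF.card| ≤ (NF \ UF).card + (UF \ NF).card := by
    have e1 : (NF.card : ℝ) ≤ UF.card + (NF \ UF).card := by
      have : NF.card ≤ UF.card + (NF \ UF).card := by
        have := card_le_card_sdiff_add_card (s := NF) (t := UF)
        omega
      exact_mod_cast this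
    have e2 : (UF.card : ℝ) ≤ NF.card + (UF \ NF).card := by
      have : UF.card ≤ NF.card + (UF \ NF).card := by
        have := card_le_card_sdiff_add_card (s := UF) (t := NF)
        omega
      exact_mod_cast this
    have n1 : (0 : ℝ) ≤ ((NF \ UF).card : ℝ) := Nat.cast_nonneg _
    have n2 : (0 : ℝ) ≤ ((UF \ NF).card : ℝ) := Nat.cast_nonneg _
    rw [abs_le]
    constructor <;> linarith
  rw [hNc]
  have e : (NF.card : ℝ) - (∑ t ∈ T, L t) * x ^ 2 =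
      (NF.card - UF.card) + (UF.card - (∑ t ∈ T, L t) * x ^ 2) := by ring
  rw [e]
  refine (abs_add_le _ _).trans ?_
  have h5 : 5 * x ^ 2 / (η * P0) = 5 / (η * P0) * x ^ 2 := by ring
  have h6 : 5 / (η * P0) * x ^ 2 ≤ ε / 2 * x ^ 2 := mul_le_mul_of_nonneg_right hP0e (by positivity)
  have h7 : 2 * Real.sqrt η * x ^ 2 ≤ ε / 2 * x ^ 2 := mul_le_mul_of_nonneg_right hηs (by positivity)
  linarith

/-- **The density of a set given by local conditions.** -/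
theorem Sx_limit {S : Set (ℕ × ℕ)} (hS : IsLoc S) : ∃ κ : ℝ,
    Tendsto (fun x : ℝ => ((Sx S x).ncard : ℝ) / x ^ 2) atTop (𝓝 κ) := by
  refine tendsto_of_approx fun ε hε => ?_
  obtain ⟨L, C, h⟩ := Sx_approx hS (ε := ε / 2) (by positivity)
  refine ⟨L, ?_⟩
  filter_upwards [eventually_ge_atTop (max 1 (2 * |C| / ε))] with x hx
  have hx1 : 1 ≤ x := (le_max_left _ _).trans hx
  have hx2 : 2 * |C| / ε ≤ x := (le_max_right _ _).trans hx
  have hx0 : 0 < x := by linarith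
  have h1 := h x hx1
  have e : ((Sx S x).ncard : ℝ) / x ^ 2 - L = (((Sx S x).ncard : ℝ) - L * x ^ 2) / x ^ 2 := by
    field_simp
  rw [e, abs_div, abs_of_pos (by positivity : 0 < x ^ 2), div_le_iff₀ (by positivity)]
  rw [div_le_iff₀ hε] at hx2
  have h2 : C * x ≤ ε / 2 * x ^ 2 := by
    have := le_abs_self C
    nlinarith
  linarith

end Pool.Agent.Y679.Par
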