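import Pool.Agent.Y679.Loc
import Pool.Agent.TH498.AR.Asy

/-! **The pairs of gaps with a large quotient `a b (a + b) / N₆`** (helper679). -/

set_option autoImplicit false

namespace Pool.Agent.Y679.Par

open Finset Filter Topology Pool.Agent.TH498.AR

/-- the primes of `6 h` -/
def P6 (h : ℕ) : Finset ℕ := (6 * h).primeFactors

theorem P6_card (h : ℕ) (hh : 0 < h) : (P6 h).card ≤ 2 + h.primeFactors.card := by
  unfold P6
  rw [Nat.primeFactors_mul (by norm_num) hh.ne']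
  refine (card_union_le _ _).trans (Nat.add_le_add_right ?_ _)
  have : Nat.primeFactors 6 ⊆ {2, 3} := by
    intro q hq
    have hqp := Nat.prime_of_mem_primeFactors hq
    have h1 : q ∣ 2 * 3 := by
      have := Nat.dvd_of_mem_primeFactors hq
      norm_num
      exact this
    rcases hqp.dvd_or_dvd h1 with h2 | h2
    · rw [(Nat.prime_dvd_prime_iff_eq hqp Nat.prime_two).1 h2]; simp
    · rw [(Nat.prime_dvd_prime_iff_eq hqp Nat.prime_three).1 h2]; simp
  exact (card_le_card this).trans card_le_two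

theorem five_le {q : ℕ} (hq : q.Prime) (h : ¬ q ∣ 6) : 5 ≤ q := by
  by_contra hcon
  push Not at hcon
  have h2 := hq.two_le
  interval_cases q
  · exact h (by norm_num)
  · exact h (by norm_num)
  · norm_num at hq

theorem g6_ge {p : ℕ × ℕ} (hp : Gd p) {h u v : ℕ} (hh : h = Nat.gcd p.1 p.2) (hu : p.1 = h * u)
    (hv : p.2 = h * v) : h ^ 2 * radP (P6 h) (u * v * (u + v)) ≤ 324 * g6 p := by
  classical
  obtain ⟨h1, h2, h3, h4, h5⟩ := hp
  have hh0 : 0 < h := by rw [hh]; exact Nat.gcd_pos_of_pos_left _ h1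
  have hn : 0 < nn p := nn_pos h1 h2
  have hgcd : ∀ q : ℕ, (q ∣ p.1 ∧ q ∣ p.2) ↔ q ∣ h := by
    intro q
    rw [hh]
    exact (Nat.dvd_gcd_iff).symm
  obtain ⟨F, hF⟩ : ∃ F, F = (nn p).primeFactors.filter (fun q => 5 ≤ q) := ⟨_, rfl⟩
  obtain ⟨A, hA⟩ : ∃ A, A = ∏ q ∈ F.filter (fun q => q ∣ h), q := ⟨_, rfl⟩
  obtain ⟨B, hB⟩ : ∃ B, B = ∏ q ∈ F.filter (fun q => ¬ q ∣ h), q := ⟨_, rfl⟩
  have hFp : ∀ q ∈ F, q.Prime ∧ q ∣ nn p ∧ 5 ≤ q := by
    intro q hq
    rw [hF, mem_filter] at hq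
    exact ⟨Nat.prime_of_mem_primeFactors hq.1, Nat.dvd_of_mem_primeFactors hq.1, hq.2⟩
  have hA0 : 0 < A := by
    rw [hA]
    exact prod_pos fun q hq => (hFp q (mem_filter.1 hq).1).1.pos
  have hg : g6 p = A ^ 2 * B := by
    unfold g6
    rw [← hF, ← prod_filter_mul_prod_filter_not F (fun q => q ∣ h), hA, hB, ← prod_pow]
    congr 1
    · refine prod_congr rfl fun q hq => ?_
      rw [if_pos ((hgcd q).2 (mem_filter.1 hq).2)]
    · refine prod_congr rfl fun q hq => ?_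
      rw [if_neg fun hc => (mem_filter.1 hq).2 ((hgcd q).1 hc)]
  have hhA : h ∣ 18 * A := by
    rw [← Nat.factorization_prime_le_iff_dvd hh0.ne' (by positivity)]
    intro q hq
    have h18 : 18 * A ≠ 0 := by positivity
    by_cases hq3 : q = 3
    · subst hq3
      have e1 : h.factorization 3 ≤ 2 := by
        by_contra hcon
        push Not at hcon
        have h6 : 27 ∣ h := by
          have := (Nat.prime_three.pow_dvd_iff_le_factorization (k := 3) hh0.ne').2 hcon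
          norm_num at this
          exact this
        obtain ⟨a1, a2⟩ := (hgcd 27).2 h6
        refine h5 ⟨(by norm_num : (9 : ℕ) ∣ 27).trans a1, ?_⟩
        exact dvd_sub (by exact_mod_cast a1) (by exact_mod_cast a2)
      have e2 : 2 ≤ (18 * A).factorization 3 := by
        rw [← Nat.prime_three.pow_dvd_iff_le_factorization h18]
        exact ⟨2 * A, by ring⟩
      omega
    · have e1 : h.factorization q ≤ 1 := by
        by_contra hcon
        push Not at hcon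
        have h6 := (hq.pow_dvd_iff_le_factorization (k := 2) hh0.ne').2 hcon
        exact h4 q hq hq3 ((hgcd _).2 h6)
      by_cases hqh : q ∣ h
      · have e2 : 1 ≤ (18 * A).factorization q := by
          rw [← hq.dvd_iff_one_le_factorization h18]
          by_cases hq2 : q = 2
          · rw [hq2]
            exact ⟨9 * A, by ring⟩
          · refine Dvd.dvd.mul_left ?_ _
            rw [hA]
            refine dvd_prod_of_mem _ (mem_filter.2 ⟨?_, hqh⟩)
            rw [hF, mem_filter]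
            refine ⟨Nat.mem_primeFactors.2 ⟨hq, ?_, hn.ne'⟩, ?_⟩
            · have := ((hgcd q).2 hqh).1
              unfold nn
              exact (this.mul_right _).mul_right _
            · refine five_le hq fun h6 => ?_
              have h7 : q ∣ 2 * 3 := by norm_num; exact h6
              rcases hq.dvd_or_dvd h7 with h8 | h8
              · exact hq2 ((Nat.prime_dvd_prime_iff_eq hq Nat.prime_two).1 h8)
              · exact hq3 ((Nat.prime_dvd_prime_iff_eq hq Nat.prime_three).1 h8)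
        omega
      · rw [Nat.factorization_eq_zero_of_not_dvd hqh]
        exact Nat.zero_le _
  have hh18 : h ≤ 18 * A := Nat.le_of_dvd (by positivity) hhA
  have hrad : radP (P6 h) (u * v * (u + v)) ≤ B := by
    rw [hB]
    unfold radP
    refine prod_le_prod_of_subset_of_one_le' ?_ fun q hq _ => (hFp q (mem_filter.1 hq).1).1.one_le
    intro q hq
    rw [mem_filter] at hq
    have hqp := Nat.prime_of_mem_primeFactors hq.1
    have hqn := Nat.dvd_of_mem_primeFactors hq.1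
    have hq6 : ¬ q ∣ 6 * h := by
      intro hd
      exact hq.2 (Nat.mem_primeFactors.2 ⟨hqp, hd, by positivity⟩)
    rw [mem_filter, hF, mem_filter]
    refine ⟨⟨Nat.mem_primeFactors.2 ⟨hqp, ?_, hn.ne'⟩, ?_⟩, fun hd => hq6 (hd.mul_left 6)⟩
    · refine hqn.trans ⟨h ^ 3, ?_⟩
      unfold nn
      rw [hu, hv]
      ring
    · exact five_le hqp fun hd => hq6 (hd.mul_right h)
  rw [hg]
  calc h ^ 2 * radP (P6 h) (u * v * (u + v)) ≤ (18 * A) ^ 2 * B :=
        Nat.mul_le_mul (Nat.pow_le_pow_left hh18 2) hrad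
    _ = 324 * (A ^ 2 * B) := by ring

/-- the pairs with a given greatest common divisor -/
theorem fixed {σ : ℝ} (hσ : 0 < σ) (hσ1 : σ < 1 / 3) : ∃ C1 C2 : ℝ, 1 ≤ C1 ∧ 1 ≤ C2 ∧
    ∀ (P : Finset ℕ) (Y W : ℝ), 1 ≤ Y → 1 ≤ W → ∀ E : Finset (ℕ × ℕ),
    (∀ p ∈ E, 0 < p.1 ∧ p.1 ≤ p.2 ∧ Nat.Coprime p.1 p.2 ∧
      (radP P (p.1 * p.2 * (p.1 + p.2)) : ℝ) ≤ Y ∧
      ((p.1 + p.2 : ℕ) : ℝ) ≤ Y ^ (1 / 3 + 1 / 240 : ℝ) ∧ W ≤ (psi3 P p : ℝ)) →
    (E.card : ℝ) ≤ C1 * C2 ^ P.card * (W ^ (-σ) * Y ^ ((2 : ℝ) / 3) + Y ^ (2 / 3 - 1 / 120 : ℝ)) := by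
  classical
  obtain ⟨γ, hγ⟩ : ∃ γ, γ = 1 / 3 - σ := ⟨_, rfl⟩
  have hγ0 : 0 < γ := by rw [hγ]; linarith
  have hγ1 : γ ≤ 1 / 3 := by rw [hγ]; linarith
  obtain ⟨N1, N2, hN1, hN2, hn⟩ := neg_count
  obtain ⟨M1, M2, hM1, hM2, hm⟩ := main_sum (1 - γ / 4) (4 / γ) (2 / 3 + γ / 4) σ (by linarith)
    (by linarith) (by rw [lt_div_iff₀ hγ0]; linarith) (by linarith) (by linarith) hσ.le (by
      rw [one_div_div]
      nlinarith)
  refine ⟨N1 + M1, max N2 M2, by linarith, le_trans hN2 (le_max_left _ _), ?_⟩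
  intro P Y W hY hW E hE
  have hY0 : 0 < Y := by linarith
  set E2 := E.filter (fun p => psi3 P p ≤ ⌊Y ^ (1 / 10 : ℝ)⌋₊ ∧ ⌊Y ^ (1 / 10 : ℝ)⌋₊ ^ 2 ≤ p.1)
    with hE2
  set E3 := E.filter (fun p => ¬ (psi3 P p ≤ ⌊Y ^ (1 / 10 : ℝ)⌋₊ ∧
    ⌊Y ^ (1 / 10 : ℝ)⌋₊ ^ 2 ≤ p.1)) with hE3
  have h3 : (E3.card : ℝ) ≤ N1 * N2 ^ P.card * Y ^ (2 / 3 - 1 / 120 : ℝ) := by
    refine hn P Y hY E3 ?_
    intro p hp
    obtain ⟨hpE, hp3⟩ := mem_filter.1 hp
    obtain ⟨a1, a2, a3, a4, a5, a6⟩ := hE p hpE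
    exact ⟨a1, by omega, a5, hp3⟩
  have h2 : (E2.card : ℝ) ≤ M1 * M2 ^ P.card * (W ^ (-σ) * Y ^ ((2 : ℝ) / 3)) := by
    have := hm P Y 1 W hY le_rfl hW ⌊Y ^ (1 / 10 : ℝ)⌋₊ (fun _ => 1) (fun _ => zero_le_one) E2 (by
      intro p hp
      obtain ⟨hpE, hp2, hp3⟩ := mem_filter.1 hp
      obtain ⟨a1, a2, a3, a4, a5, a6⟩ := hE p hpE
      exact ⟨a1, a2, a3, a4, hp2, hp3.trans a2, a6⟩) (by
      intro i j
      simp only [Real.one_rpow, sum_const, nsmul_eq_mul, mul_one, one_mul]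
      have : (E2.filter (fun p => Nat.clog 2 p.1 = i ∧ Nat.clog 2 p.2 = j)).card ≤
          2 ^ i * 2 ^ j := by
        have hsub : E2.filter (fun p => Nat.clog 2 p.1 = i ∧ Nat.clog 2 p.2 = j) ⊆
            Icc 1 (2 ^ i) ×ˢ Icc 1 (2 ^ j) := by
          intro p hp
          obtain ⟨hp1, hpi, hpj⟩ := mem_filter.1 hp
          obtain ⟨hpE, -⟩ := mem_filter.1 hp1
          obtain ⟨a1, a2, -⟩ := hE p hpE
          refine mem_product.2 ⟨mem_Icc.2 ⟨a1, ?_⟩, mem_Icc.2 ⟨by omega, ?_⟩⟩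
          · rw [← hpi]; exact Nat.le_pow_clog (by norm_num) _
          · rw [← hpj]; exact Nat.le_pow_clog (by norm_num) _
        refine (card_le_card hsub).trans ?_
        rw [card_product, Nat.card_Icc, Nat.card_Icc]
        simp
      rw [pow_add]
      exact_mod_cast this)
    simp only [sum_const, nsmul_eq_mul, mul_one] at this
    refine this.trans (le_of_eq ?_)
    ring
  have hcard : E.card = E2.card + E3.card := (card_filter_add_card_filter_not _).symm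
  have hR : 0 ≤ W ^ (-σ) * Y ^ ((2 : ℝ) / 3) := by positivity
  have hS : 0 ≤ Y ^ (2 / 3 - 1 / 120 : ℝ) := by positivity
  have hN2' : N2 ^ P.card ≤ max N2 M2 ^ P.card :=
    pow_le_pow_left₀ (by linarith) (le_max_left _ _) _
  have hM2' : M2 ^ P.card ≤ max N2 M2 ^ P.card :=
    pow_le_pow_left₀ (by linarith) (le_max_right _ _) _
  have hK0 : 0 ≤ max N2 M2 ^ P.card := le_trans (by positivity) hN2'
  calc (E.card : ℝ) = E2.card + E3.card := by exact_mod_cast hcard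
    _ ≤ M1 * M2 ^ P.card * (W ^ (-σ) * Y ^ ((2 : ℝ) / 3)) +
        N1 * N2 ^ P.card * Y ^ (2 / 3 - 1 / 120 : ℝ) := add_le_add h2 h3
    _ ≤ M1 * max N2 M2 ^ P.card * (W ^ (-σ) * Y ^ ((2 : ℝ) / 3)) +
        N1 * max N2 M2 ^ P.card * Y ^ (2 / 3 - 1 / 120 : ℝ) := by gcongr
    _ ≤ (N1 + M1) * max N2 M2 ^ P.card *
        (W ^ (-σ) * Y ^ ((2 : ℝ) / 3) + Y ^ (2 / 3 - 1 / 120 : ℝ)) := by
        have e1 : 0 ≤ M1 * max N2 M2 ^ P.card * Y ^ (2 / 3 - 1 / 120 : ℝ) := by positivity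
        have e2 : 0 ≤ N1 * max N2 M2 ^ P.card * (W ^ (-σ) * Y ^ ((2 : ℝ) / 3)) := by positivity
        linarith

end Pool.Agent.Y679.Par
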