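import Pool.Agent.Y679.Dist
import Pool.Agent.TH867.SR.LB

/-! **Many models with a large quotient** (helper679). -/

set_option autoImplicit false

namespace Pool.Agent.Y679.Par

open Finset Filter Topology Pool.Agent.TH498.AR Pool.Agent.H925R.Szpiro Pool.Agent.Y679.Cur

theorem Gd_three {a b : ℕ} (ha : 0 < a) (hb : 0 < b) (hc : Nat.Coprime a b) : Gd (3 * a, 3 * b) := by
  refine ⟨by simp only; omega, by simp only; omega, ?_, ?_, ?_⟩
  · simp only
    push_cast
    exact ⟨(a : ℤ) - b, by ring⟩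
  · rintro q hq hq3 ⟨c1, c2⟩
    simp only at c1 c2
    have h3 : Nat.Coprime (q ^ 2) 3 :=
      Nat.Coprime.pow_left _ ((Nat.coprime_primes hq Nat.prime_three).mpr hq3)
    have d1 := (dvd_pow_self q two_ne_zero).trans (h3.dvd_of_dvd_mul_left c1)
    have d2 := (dvd_pow_self q two_ne_zero).trans (h3.dvd_of_dvd_mul_left c2)
    exact Nat.not_coprime_of_dvd_of_dvd hq.one_lt d1 d2 hc
  · rintro ⟨c1, c2⟩
    simp only at c1 c2
    have d1 : 3 ∣ a := by omega
    have d2 : (9 : ℤ) ∣ (a : ℤ) - b := by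
      obtain ⟨k, hk⟩ := c2
      push_cast at hk
      exact ⟨k, by linarith⟩
    have d3 : (3 : ℤ) ∣ (b : ℤ) := by
      have e1 : (3 : ℤ) ∣ (a : ℤ) := by exact_mod_cast d1
      have e2 : (3 : ℤ) ∣ (a : ℤ) - b := (by norm_num : (3 : ℤ) ∣ 9).trans d2
      have e3 := dvd_sub e1 e2
      rwa [sub_sub_cancel] at e3
    have d4 : 3 ∣ b := by exact_mod_cast d3
    exact Nat.not_coprime_of_dvd_of_dvd (by norm_num) d1 d4 hc

theorem nn_three (k u b : ℕ) : nn (3 * (2 ^ k * u), 3 * b) = 27 * 2 ^ k * (u * b * (2 ^ k * u + b)) := by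
  unfold nn
  simp only
  ring

theorem g6_three {k u b : ℕ} (hu : 0 < u) (hb : 0 < b) (hc : Nat.Coprime (2 ^ k * u) b) :
    g6 (3 * (2 ^ k * u), 3 * b) ≤ u * b * (2 ^ k * u + b) := by
  refine Nat.le_of_dvd (by positivity) ?_
  unfold g6
  have h1 : ∏ q ∈ (nn (3 * (2 ^ k * u), 3 * b)).primeFactors.filter (fun q => 5 ≤ q),
      (if q ∣ (3 * (2 ^ k * u), 3 * b).1 ∧ q ∣ (3 * (2 ^ k * u), 3 * b).2 then q ^ 2 else q) =
      ∏ q ∈ (nn (3 * (2 ^ k * u), 3 * b)).primeFactors.filter (fun q => 5 ≤ q), q := by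
    refine prod_congr rfl fun q hq => ?_
    obtain ⟨hq1, hq5⟩ := mem_filter.1 hq
    have hqp := Nat.prime_of_mem_primeFactors hq1
    rw [if_neg]
    rintro ⟨c1, c2⟩
    have h3 : Nat.Coprime q 3 := (Nat.coprime_primes hqp Nat.prime_three).mpr (by omega)
    exact Nat.not_coprime_of_dvd_of_dvd hqp.one_lt (h3.dvd_of_dvd_mul_left c1)
      (h3.dvd_of_dvd_mul_left c2) hc
  rw [h1]
  refine Finset.prod_primes_dvd _ ?_ ?_
  · intro q hq
    exact (Nat.prime_of_mem_primeFactors (mem_filter.1 hq).1).prime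
  · intro q hq
    obtain ⟨hq1, hq5⟩ := mem_filter.1 hq
    have hqp := Nat.prime_of_mem_primeFactors hq1
    have hqn := Nat.dvd_of_mem_primeFactors hq1
    rw [nn_three] at hqn
    have h2 : Nat.Coprime q (27 * 2 ^ k) := by
      refine Nat.Coprime.mul_right ?_ ?_
      · have : Nat.Coprime q (3 ^ 3) :=
          Nat.Coprime.pow_right _ ((Nat.coprime_primes hqp Nat.prime_three).mpr (by omega))
        norm_num at this
        exact this
      · exact Nat.Coprime.pow_right _ ((Nat.coprime_primes hqp Nat.prime_two).mpr (by omega))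
    exact h2.dvd_of_dvd_mul_left hqn

/-- the second gap -/
def vv2 (r m i : ℕ) : ℕ := r + (2 * i + if r % 2 = 1 then 0 else 1) * m

theorem vv2_cop {k r m i : ℕ} (hc : Nat.Coprime r m) : Nat.Coprime (2 ^ k * m) (vv2 r m i) := by
  refine Nat.Coprime.mul_left ?_ ?_
  · refine Nat.Coprime.pow_left _ ?_
    rw [Nat.coprime_two_left, Nat.odd_iff]
    unfold vv2
    by_cases h : r % 2 = 1
    · rw [if_pos h, add_zero, mul_assoc]
      omega
    · rw [if_neg h]
      have hm : m % 2 = 1 := by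
        by_contra hm
        have h2 : 2 ∣ r := by omega
        have h3 : 2 ∣ m := by omega
        exact Nat.not_coprime_of_dvd_of_dvd (by norm_num) h2 h3 hc
      have : (2 * i + 1) * m = 2 * (i * m) + m := by ring
      rw [this]
      omega
  · unfold vv2
    rw [Nat.coprime_add_mul_right_right]
    exact hc.symm

theorem vv2_le {r m i I : ℕ} (hr : r ≤ m) (hi : i < I) : vv2 r m i ≤ 2 * I * m := by
  unfold vv2
  have h1 : 2 * i + (if r % 2 = 1 then 0 else 1) ≤ 2 * I - 1 := by split_ifs <;> omega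
  have h2 : (2 * i + (if r % 2 = 1 then 0 else 1)) * m ≤ (2 * I - 1) * m :=
    Nat.mul_le_mul_right _ h1
  have h3 : (2 * I - 1) * m + m = 2 * I * m := by
    obtain ⟨J, hJ⟩ : ∃ J, I = J + 1 := ⟨I - 1, by omega⟩
    rw [hJ]
    have : 2 * (J + 1) - 1 = 2 * J + 1 := by omega
    rw [this]
    ring
  omega

theorem vv2_inj {r r' m i i' : ℕ} (hr : 0 < r) (hrm : r ≤ m) (hr' : 0 < r') (hrm' : r' ≤ m)
    (h : vv2 r m i = vv2 r' m i') : r = r' ∧ i = i' := by
  unfold vv2 at h
  obtain ⟨j, hj⟩ : ∃ j, j = 2 * i + (if r % 2 = 1 then 0 else 1) := ⟨_, rfl⟩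
  obtain ⟨j', hj'⟩ : ∃ j', j' = 2 * i' + (if r' % 2 = 1 then 0 else 1) := ⟨_, rfl⟩
  rw [← hj, ← hj'] at h
  have hjj : j = j' := by
    rcases lt_trichotomy j j' with hlt | he | hgt
    · exfalso
      obtain ⟨d, hd⟩ : ∃ d, j' = j + 1 + d := ⟨j' - j - 1, by omega⟩
      rw [hd] at h
      have : (j + 1 + d) * m = j * m + m + d * m := by ring
      rw [this] at h
      have : 0 ≤ d * m := Nat.zero_le _
      omega
    · exact he
    · exfalso
      obtain ⟨d, hd⟩ : ∃ d, j = j' + 1 + d := ⟨j - j' - 1, by omega⟩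
      rw [hd] at h
      have : (j' + 1 + d) * m = j' * m + m + d * m := by ring
      rw [this] at h
      have : 0 ≤ d * m := Nat.zero_le _
      omega
  rw [hjj] at h
  have hrr : r = r' := by omega
  refine ⟨hrr, ?_⟩
  rw [hj, hj', hrr] at hjj
  omega

end Pool.Agent.Y679.Par
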