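import Pool.Agent.Y679.Lb
import Pool.Agent.Y679.Fin2

/-! **Many models with a large quotient: the count** (helper679). -/

set_option autoImplicit false

namespace Pool.Agent.Y679.Par

open Finset Filter Topology Pool.Agent.TH498.AR Pool.Agent.H925R.Szpiro Pool.Agent.Y679.Cur
  Pool.Agent.TH867.SR

theorem Ml_ge : ∃ c : ℝ, 0 < c ∧ ∀ lam : ℤ × ℤ → ℕ,
    (∀ q : ℤ × ℤ, IsMin q.1 q.2 → FullS q.1 q.2 → 1 ≤ lam q ∧ lam q ≤ 62208) →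
    ∀ N W : ℝ, 1 ≤ W → 2000000 * W ^ 2 ≤ N →
    c * W ^ (-(1 / 3) : ℝ) * N ^ ((2 : ℝ) / 3) ≤ ((Ml lam W N).ncard : ℝ) := by
  classical
  refine ⟨1 / (32 * 5184 * 2), by positivity, ?_⟩
  intro lam hlam N W hW hN
  have hW0 : 0 < W := by linarith
  have hW2 : 1 ≤ W ^ 2 := one_le_pow₀ hW
  have hN1 : 1 ≤ N := by linarith
  have hN0 : 0 < N := by linarith
  obtain ⟨n, hn1, hn2⟩ := exists_nat_pow_near hW (by norm_num : (1 : ℝ) < 2)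
  obtain ⟨k, hk⟩ : ∃ k, k = n + 1 := ⟨_, rfl⟩
  rw [← hk] at hn2
  have hk2 : (2 : ℝ) ^ k ≤ 2 * W := by
    rw [hk, pow_succ]
    linarith
  have hkp : (0 : ℝ) < 2 ^ k := by positivity
  obtain ⟨N', hN'⟩ : ∃ N' : ℝ, N' = N / 62208 := ⟨_, rfl⟩
  obtain ⟨Z, hZ⟩ : ∃ Z : ℝ, Z = N' / (6 * (2 ^ k) ^ 2) := ⟨_, rfl⟩
  have hN'0 : 0 < N' := by rw [hN']; positivity
  have hZ0 : 0 < Z := by rw [hZ]; positivity
  have hZ1 : 1 ≤ Z := by
    rw [hZ, le_div_iff₀ (by positivity), hN', le_div_iff₀ (by norm_num)]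
    have : ((2 : ℝ) ^ k) ^ 2 ≤ (2 * W) ^ 2 := pow_le_pow_left₀ hkp.le hk2 2
    nlinarith
  obtain ⟨U, hU⟩ : ∃ U : ℕ, U = ⌊Z ^ ((1 : ℝ) / 3)⌋₊ := ⟨_, rfl⟩
  have hZ3 : 1 ≤ Z ^ ((1 : ℝ) / 3) := Real.one_le_rpow hZ1 (by norm_num)
  have hU1 : 1 ≤ U := by rw [hU]; exact Nat.le_floor (by push_cast; exact hZ3)
  have hUle : (U : ℝ) ≤ Z ^ ((1 : ℝ) / 3) := by rw [hU]; exact Nat.floor_le (by positivity)
  have hUge : Z ^ ((1 : ℝ) / 3) ≤ 2 * U := by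
    have h1 : Z ^ ((1 : ℝ) / 3) - 1 < U := by rw [hU]; exact Nat.sub_one_lt_floor _
    have h2 : (1 : ℝ) ≤ U := by exact_mod_cast hU1
    linarith
  have hU3 : (U : ℝ) ^ 3 ≤ Z := by
    have := pow_le_pow_left₀ (Nat.cast_nonneg _) hUle 3
    refine this.trans (le_of_eq ?_)
    rw [← Real.rpow_natCast, ← Real.rpow_mul hZ0.le]
    norm_num
  -- the pairs
  obtain ⟨φ, hφ⟩ : ∃ φ : (ℕ × ℕ) × ℕ → ℕ × ℕ, φ = fun x =>
    (3 * (2 ^ k * x.1.2), 3 * vv2 x.1.1 x.1.2 x.2) := ⟨_, rfl⟩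
  obtain ⟨S, hS⟩ : ∃ S : Finset ((ℕ × ℕ) × ℕ), S = cpp U ×ˢ range (2 ^ k) := ⟨_, rfl⟩
  have hSm : ∀ x ∈ S, 0 < x.1.1 ∧ x.1.1 ≤ x.1.2 ∧ x.1.2 ≤ U ∧ Nat.Coprime x.1.1 x.1.2 ∧
      x.2 < 2 ^ k := by
    intro x hx
    rw [hS, mem_product, cpp, mem_filter, mem_product, mem_Ioc, mem_Ioc, mem_range] at hx
    obtain ⟨⟨⟨a1, a2⟩, a3, a4⟩, a5⟩ := hx
    exact ⟨a1.1, a3, a2.2, a4, a5⟩
  have hvpos : ∀ x ∈ S, 0 < vv2 x.1.1 x.1.2 x.2 := by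
    intro x hx
    have := (hSm x hx).1
    unfold vv2
    omega
  have hmem : ∀ x ∈ S, Gd (φ x) ∧ (g6 (φ x) : ℝ) ≤ N' ∧ W * (g6 (φ x) : ℝ) < nn (φ x) := by
    intro x hx
    obtain ⟨a1, a2, a3, a4, a5⟩ := hSm x hx
    have hb := hvpos x hx
    have hm0 : 0 < x.1.2 := by omega
    have hcop := vv2_cop (k := k) (i := x.2) a4
    have hg := g6_three hm0 hb hcop
    have hGd := Gd_three (a := 2 ^ k * x.1.2) (b := vv2 x.1.1 x.1.2 x.2) (by positivity) hb hcop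
    have hnn := nn_three k x.1.2 (vv2 x.1.1 x.1.2 x.2)
    have hbm := vv2_le (r := x.1.1) (m := x.1.2) (i := x.2) (I := 2 ^ k) a2 a5
    obtain ⟨m, hm⟩ : ∃ m, m = x.1.2 := ⟨_, rfl⟩
    obtain ⟨b, hb'⟩ : ∃ b, b = vv2 x.1.1 x.1.2 x.2 := ⟨_, rfl⟩
    have hφx : φ x = (3 * (2 ^ k * m), 3 * b) := by rw [hφ, hm, hb']
    rw [← hb', ← hm] at hg hGd hnn hbm
    rw [← hm] at a3 hm0
    rw [hφx]
    refine ⟨hGd, ?_, ?_⟩
    · have h1 : (g6 (3 * (2 ^ k * m), 3 * b) : ℝ) ≤ (m : ℝ) * b * (2 ^ k * m + b) := by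
        exact_mod_cast hg
      refine h1.trans ?_
      have r1 : (m : ℝ) ≤ U := by exact_mod_cast a3
      have r2 : (b : ℝ) ≤ 2 * 2 ^ k * U := by
        have : (b : ℝ) ≤ 2 * 2 ^ k * m := by exact_mod_cast hbm
        exact this.trans (mul_le_mul_of_nonneg_left r1 (by positivity))
      have r0 : (0 : ℝ) ≤ m := Nat.cast_nonneg _
      have r00 : (0 : ℝ) ≤ b := Nat.cast_nonneg _
      have r3 : (2 : ℝ) ^ k * m + b ≤ 3 * 2 ^ k * U := by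
        have : (2 : ℝ) ^ k * m ≤ 2 ^ k * U := mul_le_mul_of_nonneg_left r1 hkp.le
        linarith
      calc (m : ℝ) * b * (2 ^ k * m + b) ≤ U * (2 * 2 ^ k * U) * (3 * 2 ^ k * U) :=
            mul_le_mul (mul_le_mul r1 r2 r00 (Nat.cast_nonneg _)) r3 (by positivity)
              (by positivity)
        _ = (6 * (2 ^ k) ^ 2) * (U : ℝ) ^ 3 := by ring
        _ ≤ (6 * (2 ^ k) ^ 2) * Z := mul_le_mul_of_nonneg_left hU3 (by positivity)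
        _ = N' := by rw [hZ]; field_simp
    · have hg0 : (0 : ℝ) < g6 (3 * (2 ^ k * m), 3 * b) := by exact_mod_cast g6_pos _
      have h2 : 27 * 2 ^ k * (g6 (3 * (2 ^ k * m), 3 * b)) ≤ nn (3 * (2 ^ k * m), 3 * b) := by
        rw [hnn]
        exact Nat.mul_le_mul_left _ hg
      have h3 : 27 * (2 : ℝ) ^ k * (g6 (3 * (2 ^ k * m), 3 * b) : ℝ) ≤
          (nn (3 * (2 ^ k * m), 3 * b) : ℝ) := by exact_mod_cast h2
      refine lt_of_lt_of_le ?_ h3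
      refine mul_lt_mul_of_pos_right ?_ hg0
      linarith
  have hinj : Set.InjOn (fun x => mo (φ x)) (S : Set ((ℕ × ℕ) × ℕ)) := by
    intro x hx y hy hxy
    have h1 := mo_inj (hmem x hx).1 (hmem y hy).1 hxy
    obtain ⟨a1, a2, a3, a4, a5⟩ := hSm x hx
    obtain ⟨b1, b2, b3, b4, b5⟩ := hSm y hy
    rw [hφ] at h1
    simp only [Prod.mk.injEq] at h1
    obtain ⟨c1, c2⟩ := h1
    have c3 : x.1.2 = y.1.2 := by
      have h2 : 2 ^ k * x.1.2 = 2 ^ k * y.1.2 := by omega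
      exact Nat.eq_of_mul_eq_mul_left (by positivity) h2
    have c4 : vv2 x.1.1 x.1.2 x.2 = vv2 y.1.1 x.1.2 y.2 := by
      rw [c3]
      rw [c3] at c2
      omega
    obtain ⟨c5, c6⟩ := vv2_inj a1 a2 b1 (by rw [c3]; exact b2) c4
    exact Prod.ext (Prod.ext c5 c3) c6
  have hsub : ((S.image (fun x => mo (φ x)) : Finset (ℤ × ℤ)) : Set (ℤ × ℤ)) ⊆ Ml lam W N := by
    intro q hq
    rw [mem_coe, mem_image] at hq
    obtain ⟨x, hx, rfl⟩ := hq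
    obtain ⟨h1, h2, h3⟩ := hmem x hx
    have hmin := mo_min h1
    have hfull := mo_full h1.2.2.1
    refine ⟨⟨hmin, hfull, ?_⟩, ?_⟩
    · rw [mo_cond h1]
      have h4 : (lam (mo (φ x)) : ℝ) ≤ 62208 := by exact_mod_cast (hlam _ hmin hfull).2
      push_cast
      calc (lam (mo (φ x)) : ℝ) * g6 (φ x) ≤ 62208 * N' :=
            mul_le_mul h4 h2 (Nat.cast_nonneg _) (by norm_num)
        _ = N := by rw [hN']; ring
    · rw [mo_cond h1, mo_D h1.2.2.1]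
      push_cast
      rw [abs_of_nonneg (by positivity)]
      exact pow_lt_pow_left₀ h3 (by positivity) two_ne_zero
  have hfin : (Ml lam W N).Finite :=
    (Md_fin (fun q a b => (hlam q a b).1) hN1).subset fun q hq => hq.1
  have hc1 := Set.ncard_le_ncard hsub hfin
  rw [Set.ncard_coe_finset, card_image_of_injOn hinj, hS, card_product, card_range] at hc1
  have hc2 : ((cpp U).card : ℝ) * 2 ^ k ≤ ((Ml lam W N).ncard : ℝ) := by exact_mod_cast hc1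
  refine le_trans ?_ hc2
  have hc3 := coprime_count U hU1
  have hc4 : (Z ^ ((1 : ℝ) / 3)) ^ 2 / 32 ≤ ((cpp U).card : ℝ) := by
    refine le_trans ?_ hc3
    have : (Z ^ ((1 : ℝ) / 3)) ^ 2 ≤ (2 * (U : ℝ)) ^ 2 := pow_le_pow_left₀ (by positivity) hUge 2
    linarith
  have e1 : (Z ^ ((1 : ℝ) / 3)) ^ 2 = N ^ ((2 : ℝ) / 3) / (5184 * (((2 : ℝ) ^ k) ^ ((4 : ℝ) / 3))) := by
    rw [← Real.rpow_natCast, ← Real.rpow_mul hZ0.le, hZ, hN', div_div,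
      Real.div_rpow hN0.le (by positivity)]
    congr 1
    · norm_num
    · rw [← mul_assoc, Real.mul_rpow (by norm_num) (by positivity),
        ← Real.rpow_natCast ((2 : ℝ) ^ k) 2, ← Real.rpow_mul hkp.le]
      have : (62208 * 6 : ℝ) = 72 ^ (3 : ℝ) := by norm_num
      rw [this, ← Real.rpow_mul (by norm_num)]
      norm_num
  have e2 : ((2 : ℝ) ^ k) ^ ((4 : ℝ) / 3) = 2 ^ k * ((2 : ℝ) ^ k) ^ ((1 : ℝ) / 3) := by
    rw [show (4 : ℝ) / 3 = 1 + 1 / 3 by norm_num, Real.rpow_add hkp, Real.rpow_one]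
  have e3 : ((2 : ℝ) ^ k) ^ ((1 : ℝ) / 3) ≤ 2 * W ^ ((1 : ℝ) / 3) := by
    calc ((2 : ℝ) ^ k) ^ ((1 : ℝ) / 3) ≤ (2 * W) ^ ((1 : ℝ) / 3) :=
          Real.rpow_le_rpow hkp.le hk2 (by norm_num)
      _ = 2 ^ ((1 : ℝ) / 3) * W ^ ((1 : ℝ) / 3) := Real.mul_rpow (by norm_num) hW0.le
      _ ≤ 2 * W ^ ((1 : ℝ) / 3) := by
          refine mul_le_mul_of_nonneg_right ?_ (by positivity)
          calc (2 : ℝ) ^ ((1 : ℝ) / 3) ≤ 2 ^ (1 : ℝ) :=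
                Real.rpow_le_rpow_of_exponent_le (by norm_num) (by norm_num)
            _ = 2 := Real.rpow_one _
  have hWp : 0 < W ^ ((1 : ℝ) / 3) := by positivity
  have hkp3 : 0 < ((2 : ℝ) ^ k) ^ ((1 : ℝ) / 3) := by positivity
  calc 1 / (32 * 5184 * 2) * W ^ (-(1 / 3) : ℝ) * N ^ ((2 : ℝ) / 3)
      = N ^ ((2 : ℝ) / 3) / (32 * 5184) * (2 * W ^ ((1 : ℝ) / 3))⁻¹ := by
        rw [Real.rpow_neg hW0.le, mul_inv]
        ring
    _ ≤ N ^ ((2 : ℝ) / 3) / (32 * 5184) * (((2 : ℝ) ^ k) ^ ((1 : ℝ) / 3))⁻¹ := by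
        refine mul_le_mul_of_nonneg_left (inv_anti₀ hkp3 e3) (by positivity)
    _ = (Z ^ ((1 : ℝ) / 3)) ^ 2 / 32 * 2 ^ k := by
        rw [e1, e2]
        field_simp
    _ ≤ ((cpp U).card : ℝ) * 2 ^ k := mul_le_mul_of_nonneg_right hc4 hkp.le

end Pool.Agent.Y679.Par
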