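import Pool.Agent.Y679.Par
import Pool.Agent.Y679.Lim

/-! **The pairs of gaps with a given quotient `a b (a + b) / N₆`** (helper679). -/

set_option autoImplicit false

namespace Pool.Agent.Y679.Par

open Finset Filter Topology Pool.Agent.TH498.AR

/-- the exponent of `q` in the prime-to-6 part of the conductor -/
def kq (p : ℕ × ℕ) (q : ℕ) : ℕ :=
  if 5 ≤ q ∧ q ∣ nn p then (if q ∣ p.1 ∧ q ∣ p.2 then 2 else 1) else 0

theorem g6_eq (p : ℕ × ℕ) : g6 p = ∏ q ∈ (nn p).primeFactors.filter (fun q => 5 ≤ q), q ^ kq p q := by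
  unfold g6
  refine prod_congr rfl fun q hq => ?_
  obtain ⟨h1, h2⟩ := mem_filter.1 hq
  have h3 : 5 ≤ q ∧ q ∣ nn p := ⟨h2, Nat.dvd_of_mem_primeFactors h1⟩
  unfold kq
  rw [if_pos h3]
  split_ifs <;> ring

theorem g6_pos (p : ℕ × ℕ) : 0 < g6 p := by
  rw [g6_eq]
  exact prod_pos fun q hq =>
    pow_pos (Nat.prime_of_mem_primeFactors (mem_filter.1 hq).1).pos _

theorem fact_g6 {p : ℕ × ℕ} (h1 : 0 < p.1) (h2 : 0 < p.2) {q : ℕ} (hq : q.Prime) :
    (g6 p).factorization q = kq p q := by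
  have hn : 0 < nn p := nn_pos h1 h2
  rw [g6_eq, Nat.factorization_prod (fun i hi => by
    have := (Nat.prime_of_mem_primeFactors (mem_filter.1 hi).1).pos
    positivity), Finsupp.finsetSum_apply]
  have h3 : ∀ i ∈ (nn p).primeFactors.filter (fun q => 5 ≤ q),
      (i ^ kq p i).factorization q = if i = q then kq p q else 0 := by
    intro i hi
    have hip := Nat.prime_of_mem_primeFactors (mem_filter.1 hi).1
    rw [Nat.factorization_pow, hip.factorization, Finsupp.smul_apply, Finsupp.single_apply]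
    split_ifs with h
    · rw [h]; simp
    · simp
  rw [sum_congr rfl h3, sum_ite_eq']
  by_cases h4 : 5 ≤ q ∧ q ∣ nn p
  · rw [if_pos]
    exact mem_filter.2 ⟨Nat.mem_primeFactors.2 ⟨hq, h4.2, hn.ne'⟩, h4.1⟩
  · rw [if_neg]
    · unfold kq
      rw [if_neg h4]
    · intro h5
      exact h4 ⟨(mem_filter.1 h5).2, Nat.dvd_of_mem_primeFactors (mem_filter.1 h5).1⟩

theorem cube_dvd {p : ℕ × ℕ} {q : ℕ} (h : q ∣ p.1 ∧ q ∣ p.2) : q ^ 3 ∣ nn p := by
  obtain ⟨⟨u, hu⟩, v, hv⟩ := h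
  unfold nn
  rw [hu, hv]
  exact ⟨u * v * (u + v), by ring⟩

theorem g6_dvd {p : ℕ × ℕ} (h1 : 0 < p.1) (h2 : 0 < p.2) : g6 p ∣ nn p := by
  have hn : 0 < nn p := nn_pos h1 h2
  rw [← Nat.factorization_prime_le_iff_dvd (g6_pos p).ne' hn.ne']
  intro q hq
  rw [fact_g6 h1 h2 hq]
  unfold kq
  split_ifs with h3 h4
  · have := (hq.pow_dvd_iff_le_factorization hn.ne').1 (cube_dvd h4)
    omega
  · exact (hq.dvd_iff_one_le_factorization hn.ne').1 h3.2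
  · exact Nat.zero_le _

/-- the pairs with quotient `w` -/
def Sw (w : ℕ) : Set (ℕ × ℕ) := {p | Gd p ∧ nn p = w * g6 p}

/-- the local condition at `q` -/
def Lq (w q : ℕ) (p : ℕ × ℕ) : Prop :=
  (q ≠ 3 → ¬ (q ^ 2 ∣ p.1 ∧ q ^ 2 ∣ p.2)) ∧ q ^ (w.factorization q + kq p q) ∣ nn p ∧
    ¬ q ^ (w.factorization q + kq p q + 1) ∣ nn p

/-- the local conditions at the primes up to `P0` -/
def Rl (w P0 : ℕ) (p : ℕ × ℕ) : Prop :=
  (3 : ℤ) ∣ (p.1 : ℤ) - p.2 ∧ ¬ (9 ∣ p.1 ∧ (27 : ℤ) ∣ (p.1 : ℤ) - p.2) ∧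
    ∀ q : ℕ, q.Prime → q ≤ P0 → Lq w q p

/-- the modulus -/
def Mq (w P0 : ℕ) : ℕ := (P0.factorial) ^ (w + 4)

theorem Mq_pos (w P0 : ℕ) : 0 < Mq w P0 := by
  unfold Mq
  positivity

theorem dvd_Mq {w P0 q e : ℕ} (hq : q.Prime) (hqP : q ≤ P0) (he : e ≤ w + 4) : q ^ e ∣ Mq w P0 := by
  unfold Mq
  exact (pow_dvd_pow q he).trans (pow_dvd_pow_of_dvd (Nat.dvd_factorial hq.pos hqP) _)

theorem Rl_congr {w P0 : ℕ} (hw : 0 < w) (hP : 3 ≤ P0) {p p' : ℕ × ℕ}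
    (h1 : p.1 % Mq w P0 = p'.1 % Mq w P0) (h2 : p.2 % Mq w P0 = p'.2 % Mq w P0)
    (h : Rl w P0 p) : Rl w P0 p' := by
  classical
  have key1 : ∀ {d x y : ℕ}, d ∣ Mq w P0 → x % Mq w P0 = y % Mq w P0 → (d ∣ x ↔ d ∣ y) := by
    intro d x y hd hxy
    have h3 : x ≡ y [MOD d] := Nat.ModEq.of_dvd hd hxy
    exact ⟨fun hx => Nat.modEq_zero_iff_dvd.1 (h3.symm.trans (Nat.modEq_zero_iff_dvd.2 hx)),
      fun hx => Nat.modEq_zero_iff_dvd.1 (h3.trans (Nat.modEq_zero_iff_dvd.2 hx))⟩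
  have hn : nn p % Mq w P0 = nn p' % Mq w P0 := by
    unfold nn
    have e1 : p.1 ≡ p'.1 [MOD Mq w P0] := h1
    have e2 : p.2 ≡ p'.2 [MOD Mq w P0] := h2
    exact (e1.mul e2).mul (e1.add e2)
  have hd : ∀ d : ℕ, d ∣ Mq w P0 → ((d : ℤ) ∣ (p.1 : ℤ) - p.2 → (d : ℤ) ∣ (p'.1 : ℤ) - p'.2) ∧
      ((d : ℤ) ∣ (p'.1 : ℤ) - p'.2 → (d : ℤ) ∣ (p.1 : ℤ) - p.2) := by
    intro d hdQ
    have f1 : (d : ℤ) ∣ (p.1 : ℤ) - p'.1 := by
      have : p'.1 ≡ p.1 [MOD d] := (Nat.ModEq.of_dvd hdQ h1).symm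
      exact Nat.modEq_iff_dvd.1 this
    have f2 : (d : ℤ) ∣ (p.2 : ℤ) - p'.2 := by
      have : p'.2 ≡ p.2 [MOD d] := (Nat.ModEq.of_dvd hdQ h2).symm
      exact Nat.modEq_iff_dvd.1 this
    constructor
    · intro hh
      have e : (p'.1 : ℤ) - p'.2 = ((p.1 : ℤ) - p.2) - ((p.1 : ℤ) - p'.1) + ((p.2 : ℤ) - p'.2) := by
        ring
      rw [e]
      exact dvd_add (dvd_sub hh f1) f2
    · intro hh
      have e : (p.1 : ℤ) - p.2 = ((p'.1 : ℤ) - p'.2) + ((p.1 : ℤ) - p'.1) - ((p.2 : ℤ) - p'.2) := by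
        ring
      rw [e]
      exact dvd_sub (dvd_add hh f1) f2
  have q3 : (3 : ℕ) ∣ Mq w P0 := by
    have := dvd_Mq (w := w) (e := 1) Nat.prime_three hP (by omega)
    rwa [pow_one] at this
  have q9 : (9 : ℕ) ∣ Mq w P0 := by
    have := dvd_Mq (w := w) (e := 2) Nat.prime_three hP (by omega)
    norm_num at this
    exact this
  have q27 : (27 : ℕ) ∣ Mq w P0 := by
    have := dvd_Mq (w := w) (e := 3) Nat.prime_three hP (by omega)
    norm_num at this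
    exact this
  obtain ⟨a1, a2, a3⟩ := h
  refine ⟨(hd 3 q3).1 a1, fun hc => a2 ⟨(key1 q9 h1).2 hc.1, (hd 27 q27).2 hc.2⟩, ?_⟩
  intro q hq hqP
  obtain ⟨b1, b2, b3⟩ := a3 q hq hqP
  have hf : w.factorization q < w := Nat.factorization_lt q hw.ne'
  have hq1 : q ∣ Mq w P0 := by
    have := dvd_Mq (w := w) (e := 1) hq hqP (by omega)
    rwa [pow_one] at this
  have hk : kq p' q = kq p q := by
    unfold kq
    have c1 := key1 hq1 hn
    have c2 := key1 hq1 h1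
    have c3 := key1 hq1 h2
    by_cases d1 : 5 ≤ q ∧ q ∣ nn p
    · rw [if_pos d1, if_pos ⟨d1.1, c1.1 d1.2⟩]
      by_cases d2 : q ∣ p.1 ∧ q ∣ p.2
      · rw [if_pos d2, if_pos ⟨c2.1 d2.1, c3.1 d2.2⟩]
      · rw [if_neg d2, if_neg fun hh => d2 ⟨c2.2 hh.1, c3.2 hh.2⟩]
    · rw [if_neg d1, if_neg fun hh => d1 ⟨hh.1, c1.2 hh.2⟩]
  have hk2 : kq p q ≤ 2 := by
    unfold kq
    split_ifs <;> omega
  refine ⟨fun hq3 hc => b1 hq3 ?_, ?_, ?_⟩
  · have hq2 : q ^ 2 ∣ Mq w P0 := dvd_Mq hq hqP (by omega)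
    exact ⟨(key1 hq2 h1).2 hc.1, (key1 hq2 h2).2 hc.2⟩
  · rw [hk]
    exact (key1 (dvd_Mq hq hqP (by omega)) hn).1 b2
  · rw [hk]
    exact fun hc => b3 ((key1 (dvd_Mq hq hqP (by omega)) hn).2 hc)

/-- exponents and divisibility -/
theorem fact_iff {n q e : ℕ} (hq : q.Prime) (hn : 0 < n) :
    n.factorization q = e ↔ q ^ e ∣ n ∧ ¬ q ^ (e + 1) ∣ n := by
  rw [hq.pow_dvd_iff_le_factorization hn.ne', hq.pow_dvd_iff_le_factorization hn.ne']
  omega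

theorem Sw_loc {w : ℕ} (hw : 0 < w) : IsLoc (Sw w) := by
  classical
  intro P1
  obtain ⟨P0, hP0⟩ : ∃ P0, P0 = max (max P1 5) w := ⟨_, rfl⟩
  have hP1 : P1 ≤ P0 := by rw [hP0]; exact (le_max_left _ _).trans (le_max_left _ _)
  have hP5 : 5 ≤ P0 := by rw [hP0]; exact (le_max_right _ _).trans (le_max_left _ _)
  have hP3 : 3 ≤ P0 := by omega
  have hPw : w ≤ P0 := by rw [hP0]; exact le_max_right _ _
  have hQ0 : 0 < Mq w P0 := Mq_pos w P0
  refine ⟨P0, hP1, Mq w P0, hQ0,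
    (range (Mq w P0) ×ˢ range (Mq w P0)).filter (fun t => Rl w P0 t), filter_subset _ _, ?_, ?_⟩
  · rintro p ⟨⟨h1, h2, h3, h4, h5⟩, h6⟩
    have hn : 0 < nn p := nn_pos h1 h2
    rw [mem_filter, mem_product, mem_range, mem_range]
    refine ⟨⟨Nat.mod_lt _ hQ0, Nat.mod_lt _ hQ0⟩, ?_⟩
    refine Rl_congr hw hP3 (p := p) (by rw [Nat.mod_mod]) (by rw [Nat.mod_mod]) ⟨h3, h5, ?_⟩
    intro q hq hqP
    refine ⟨h4 q hq, ?_⟩
    rw [← fact_iff hq hn, h6, Nat.factorization_mul hw.ne' (g6_pos p).ne', Finsupp.add_apply,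
      fact_g6 h1 h2 hq]
  · intro p h1 h2 ht hlarge
    have hn : 0 < nn p := nn_pos h1 h2
    rw [mem_filter] at ht
    obtain ⟨h3, h5, h6⟩ := Rl_congr hw hP3 (p' := p) (by rw [Nat.mod_mod]) (by rw [Nat.mod_mod]) ht.2
    refine ⟨⟨h1, h2, h3, ?_, h5⟩, ?_⟩
    · intro q hq hq3 hc
      rcases le_or_gt q P0 with h7 | h7
      · exact (h6 q hq h7).1 hq3 hc
      · exact (hlarge q hq h7).1 ⟨(dvd_pow_self q two_ne_zero).trans hc.1,
          (dvd_pow_self q two_ne_zero).trans hc.2⟩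
    · refine Nat.eq_of_factorization_eq hn.ne' (Nat.mul_pos hw (g6_pos p)).ne' fun q => ?_
      by_cases hq : q.Prime
      swap
      · rw [Nat.factorization_eq_zero_of_not_prime _ hq, Nat.factorization_eq_zero_of_not_prime _ hq]
      rw [Nat.factorization_mul hw.ne' (g6_pos p).ne', Finsupp.add_apply, fact_g6 h1 h2 hq]
      rcases le_or_gt q P0 with h7 | h7
      · exact (fact_iff hq hn).2 (h6 q hq h7).2
      · obtain ⟨h8, h9⟩ := hlarge q hq h7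
        have hw0 : w.factorization q = 0 := by
          refine Nat.factorization_eq_zero_of_not_dvd fun hd => ?_
          have := Nat.le_of_dvd hw hd
          omega
        have hle : (nn p).factorization q ≤ 1 := by
          by_contra hcon
          push Not at hcon
          exact h9 ((hq.pow_dvd_iff_le_factorization hn.ne').2 hcon)
        rw [hw0, zero_add]
        unfold kq
        by_cases hd : q ∣ nn p
        · rw [if_pos ⟨by omega, hd⟩, if_neg h8]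
          have := (hq.dvd_iff_one_le_factorization hn.ne').1 hd
          omega
        · rw [if_neg fun hh => hd hh.2]
          exact Nat.factorization_eq_zero_of_not_dvd hd

end Pool.Agent.Y679.Par
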