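import Pool.Agent.Y679.CurTop
import Pool.Agent.TH498.AR.Loc2

/-! **Minimal models with full rational 2-torsion and the gaps between the roots** (helper679). -/

set_option autoImplicit false

namespace Pool.Agent.Y679.Par

open Finset Pool.Agent.H925R.Szpiro Pool.Agent.TH498.AR

/-- the gaps `e₂ - e₁`, `e₃ - e₂` between the roots of a minimal model -/
def Gd (p : ℕ × ℕ) : Prop :=
  0 < p.1 ∧ 0 < p.2 ∧ (3 : ℤ) ∣ (p.1 : ℤ) - p.2 ∧
    (∀ q : ℕ, q.Prime → q ≠ 3 → ¬ (q ^ 2 ∣ p.1 ∧ q ^ 2 ∣ p.2)) ∧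
    ¬ (9 ∣ p.1 ∧ (27 : ℤ) ∣ (p.1 : ℤ) - p.2)

/-- the prime-to-6 part of the conductor -/
def g6 (p : ℕ × ℕ) : ℕ :=
  ∏ q ∈ (nn p).primeFactors.filter (fun q => 5 ≤ q), if q ∣ p.1 ∧ q ∣ p.2 then q ^ 2 else q

/-- the middle root -/
def mid (p : ℕ × ℕ) : ℤ := ((p.1 : ℤ) - p.2) / 3

/-- the model -/
def mo (p : ℕ × ℕ) : ℤ × ℤ :=
  (-((mid p - p.1) * mid p + (mid p - p.1) * (mid p + p.2) + mid p * (mid p + p.2)),
    (mid p - p.1) * mid p * (mid p + p.2))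

theorem mid_eq {p : ℕ × ℕ} (h : (3 : ℤ) ∣ (p.1 : ℤ) - p.2) : 3 * mid p = (p.1 : ℤ) - p.2 :=
  Int.mul_ediv_cancel' h

theorem mo_a {p : ℕ × ℕ} (h : (3 : ℤ) ∣ (p.1 : ℤ) - p.2) :
    3 * (mo p).1 = (p.1 : ℤ) ^ 2 + p.1 * p.2 + (p.2 : ℤ) ^ 2 := by
  have h1 := mid_eq h
  have h2 : (p.1 : ℤ) = 3 * mid p + p.2 := by linarith
  unfold mo
  simp only
  rw [h2]
  ring

theorem mo_D {p : ℕ × ℕ} (h : (3 : ℤ) ∣ (p.1 : ℤ) - p.2) :
    D (mo p).1 (mo p).2 = (nn p : ℤ) ^ 2 := by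
  have h1 := mid_eq h
  have h2 : (p.1 : ℤ) = 3 * mid p + p.2 := by linarith
  unfold mo D nn
  simp only
  push_cast
  rw [h2]
  ring

theorem mo_full {p : ℕ × ℕ} (h : (3 : ℤ) ∣ (p.1 : ℤ) - p.2) : FullS (mo p).1 (mo p).2 := by
  have h1 := mid_eq h
  have h2 : (p.1 : ℚ) = 3 * (mid p : ℚ) + p.2 := by
    have : (p.1 : ℤ) = 3 * mid p + p.2 := by linarith
    exact_mod_cast this
  refine ⟨(mid p : ℚ) - p.1, (mid p : ℚ), (mid p : ℚ) + p.2, fun x => ?_⟩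
  unfold mo
  simp only
  push_cast
  rw [h2]
  ring

/-- a common fourth and sixth power comes from the roots -/
theorem sq_root {a b e : ℤ} {q : ℕ} (hq : q.Prime) (ha : (q : ℤ) ^ 4 ∣ a) (hb : (q : ℤ) ^ 6 ∣ b)
    (he : e ^ 3 = a * e + b) : (q : ℤ) ^ 2 ∣ e := by
  have hqI : Prime (q : ℤ) := Nat.prime_iff_prime_int.1 hq
  have hq0 : (q : ℤ) ≠ 0 := hqI.ne_zero
  obtain ⟨a', rfl⟩ := ha
  obtain ⟨b', rfl⟩ := hb
  have h1 : (q : ℤ) ∣ e ^ 3 := ⟨(q : ℤ) ^ 3 * a' * e + (q : ℤ) ^ 5 * b', by rw [he]; ring⟩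
  obtain ⟨f, rfl⟩ := hqI.dvd_of_dvd_pow h1
  have h2 : f ^ 3 = (q : ℤ) * ((q : ℤ) * a' * f + (q : ℤ) ^ 2 * b') := by
    have h3 : (q : ℤ) ^ 3 * f ^ 3 = (q : ℤ) ^ 3 * ((q : ℤ) * ((q : ℤ) * a' * f + (q : ℤ) ^ 2 * b')) := by
      linear_combination he
    exact mul_left_cancel₀ (pow_ne_zero 3 hq0) h3
  obtain ⟨f', rfl⟩ := hqI.dvd_of_dvd_pow (⟨_, h2⟩ : (q : ℤ) ∣ f ^ 3)
  exact ⟨f', by ring⟩

theorem mo_root {p : ℕ × ℕ} (h : (3 : ℤ) ∣ (p.1 : ℤ) - p.2) :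
    (mid p - p.1) ^ 3 = (mo p).1 * (mid p - p.1) + (mo p).2 ∧
    (mid p) ^ 3 = (mo p).1 * (mid p) + (mo p).2 ∧
    (mid p + p.2) ^ 3 = (mo p).1 * (mid p + p.2) + (mo p).2 := by
  have h1 := mid_eq h
  have h2 : (p.1 : ℤ) = 3 * mid p + p.2 := by linarith
  unfold mo
  simp only
  rw [h2]
  refine ⟨?_, ?_, ?_⟩ <;> ring

theorem nn_pos' {p : ℕ × ℕ} (h : Gd p) : 0 < nn p := nn_pos h.1 h.2.1

theorem mo_min {p : ℕ × ℕ} (h : Gd p) : IsMin (mo p).1 (mo p).2 := by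
  obtain ⟨h1, h2, h3, h4, h5⟩ := h
  have hnn : 0 < nn p := nn_pos h1 h2
  have hD := mo_D h3
  refine ⟨by rw [hD]; positivity, ?_⟩
  intro u a' b' hu ha hb
  have hden : (u.den : ℤ) ^ 4 ∣ (mo p).1 ∧ (u.den : ℤ) ^ 6 ∣ (mo p).2 := by
    have hnd : IsCoprime (u.den : ℤ) u.num := by
      have h1 := u.reduced
      have h2 := Int.isCoprime_iff_gcd_eq_one.2 (by
        rw [Int.gcd_comm]; exact h1 : Int.gcd (u.den : ℤ) u.num = 1)
      exact h2
    have hq : (u.den : ℚ) ≠ 0 := by exact_mod_cast u.den_nz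
    have hue : u = (u.num : ℚ) / (u.den : ℚ) := (Rat.num_div_den u).symm
    constructor
    · have e1 : (a' : ℚ) * (u.den : ℚ) ^ 4 = (u.num : ℚ) ^ 4 * (mo p).1 := by
        rw [ha]
        nth_rewrite 1 [hue]
        field_simp
      have e2 : a' * (u.den : ℤ) ^ 4 = u.num ^ 4 * (mo p).1 := by exact_mod_cast e1
      have e3 : (u.den : ℤ) ^ 4 ∣ u.num ^ 4 * (mo p).1 := ⟨a', by rw [← e2]; ring⟩
      exact (IsCoprime.pow hnd).dvd_of_dvd_mul_left e3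
    · have e1 : (b' : ℚ) * (u.den : ℚ) ^ 6 = (u.num : ℚ) ^ 6 * (mo p).2 := by
        rw [hb]
        nth_rewrite 1 [hue]
        field_simp
      have e2 : b' * (u.den : ℤ) ^ 6 = u.num ^ 6 * (mo p).2 := by exact_mod_cast e1
      have e3 : (u.den : ℤ) ^ 6 ∣ u.num ^ 6 * (mo p).2 := ⟨b', by rw [← e2]; ring⟩
      exact (IsCoprime.pow hnd).dvd_of_dvd_mul_left e3
  have hden1 : u.den = 1 := by
    by_contra hne
    obtain ⟨q, hq, hqd⟩ := Nat.exists_prime_and_dvd hne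
    have hqd' : (q : ℤ) ∣ (u.den : ℤ) := by exact_mod_cast hqd
    have ha4 : (q : ℤ) ^ 4 ∣ (mo p).1 := (pow_dvd_pow_of_dvd hqd' 4).trans hden.1
    have hb6 : (q : ℤ) ^ 6 ∣ (mo p).2 := (pow_dvd_pow_of_dvd hqd' 6).trans hden.2
    obtain ⟨r1, r2, r3⟩ := mo_root h3
    have k1 := sq_root hq ha4 hb6 r1
    have k2 := sq_root hq ha4 hb6 r2
    have k3 := sq_root hq ha4 hb6 r3
    have d1 : (q : ℤ) ^ 2 ∣ (p.1 : ℤ) := by
      have := dvd_sub k2 k1
      have e : mid p - (mid p - (p.1 : ℤ)) = p.1 := by ring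
      rwa [e] at this
    have d2 : (q : ℤ) ^ 2 ∣ (p.2 : ℤ) := by
      have := dvd_sub k3 k2
      have e : mid p + (p.2 : ℤ) - mid p = p.2 := by ring
      rwa [e] at this
    have d1' : q ^ 2 ∣ p.1 := by exact_mod_cast d1
    have d2' : q ^ 2 ∣ p.2 := by exact_mod_cast d2
    by_cases hq3 : q = 3
    · subst hq3
      refine h5 ⟨by norm_num at d1'; exact d1', ?_⟩
      rw [← mid_eq h3]
      obtain ⟨k, hk⟩ := k2
      exact ⟨k, by rw [hk]; push_cast; ring⟩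
    · exact h4 q hq hq3 ⟨d1', d2'⟩
  have hnum : (u.num : ℚ) = u := by
    have := Rat.num_div_den u
    rw [hden1] at this
    simpa using this
  have hn0 : u.num ≠ 0 := Rat.num_ne_zero.2 hu
  have e1 : ((D a' b' : ℤ) : ℚ) = u ^ 12 * ((D (mo p).1 (mo p).2 : ℤ) : ℚ) := by
    unfold D
    push_cast
    rw [ha, hb]
    ring
  have e2 : D a' b' = u.num ^ 12 * D (mo p).1 (mo p).2 := by
    rw [← hnum] at e1
    exact_mod_cast e1
  rw [e2, abs_mul]
  have h12 : 1 ≤ |u.num ^ 12| := Int.one_le_abs (pow_ne_zero _ hn0)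
  nlinarith [abs_nonneg (D (mo p).1 (mo p).2)]

theorem mo_cond {p : ℕ × ℕ} (h : Gd p) : condS (mo p).1 (mo p).2 = g6 p := by
  obtain ⟨h1, h2, h3, h4, h5⟩ := h
  unfold condS g6
  rw [mo_D h3, Int.natAbs_pow, Int.natAbs_natCast, Nat.primeFactors_pow _ two_ne_zero]
  refine prod_congr rfl fun q hq => ?_
  obtain ⟨hq1, hq5⟩ := mem_filter.1 hq
  have hqp := Nat.prime_of_mem_primeFactors hq1
  have hqn := Nat.dvd_of_mem_primeFactors hq1
  have hqI : Prime (q : ℤ) := Nat.prime_iff_prime_int.1 hqp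
  have hiff : (q : ℤ) ∣ (mo p).1 ↔ q ∣ p.1 ∧ q ∣ p.2 := by
    have ha := mo_a h3
    constructor
    · intro hd
      have h6 : (q : ℤ) ∣ (p.1 : ℤ) ^ 2 + p.1 * p.2 + (p.2 : ℤ) ^ 2 := by
        rw [← ha]; exact hd.mul_left 3
      have h7 : q ∣ p.1 ∨ q ∣ p.2 ∨ q ∣ p.1 + p.2 := by
        unfold nn at hqn
        rcases hqp.dvd_or_dvd hqn with h8 | h8
        · rcases hqp.dvd_or_dvd h8 with h9 | h9
          · exact Or.inl h9
          · exact Or.inr (Or.inl h9)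
        · exact Or.inr (Or.inr h8)
      have key : ∀ x y : ℤ, (q : ℤ) ∣ x → (q : ℤ) ∣ x ^ 2 + x * y + y ^ 2 → (q : ℤ) ∣ y := by
        intro x y hx hxy
        have : (q : ℤ) ∣ y ^ 2 := by
          have e : y ^ 2 = (x ^ 2 + x * y + y ^ 2) - x * (x + y) := by ring
          rw [e]
          exact dvd_sub hxy (hx.mul_right _)
        exact hqI.dvd_of_dvd_pow this
      rcases h7 with h8 | h8 | h8
      · have h9 : (q : ℤ) ∣ (p.1 : ℤ) := by exact_mod_cast h8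
        have h10 := key _ _ h9 h6
        exact ⟨h8, by exact_mod_cast h10⟩
      · have h9 : (q : ℤ) ∣ (p.2 : ℤ) := by exact_mod_cast h8
        have h10 := key (p.2 : ℤ) (p.1 : ℤ) h9 (by
          have e : (p.2 : ℤ) ^ 2 + p.2 * p.1 + (p.1 : ℤ) ^ 2 =
            (p.1 : ℤ) ^ 2 + p.1 * p.2 + (p.2 : ℤ) ^ 2 := by ring
          rw [e]; exact h6)
        exact ⟨by exact_mod_cast h10, h8⟩
      · have h9 : (q : ℤ) ∣ (p.1 : ℤ) + p.2 := by exact_mod_cast h8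
        have h10 : (q : ℤ) ∣ (p.1 : ℤ) * p.2 := by
          have e : (p.1 : ℤ) * p.2 = ((p.1 : ℤ) + p.2) * ((p.1 : ℤ) + p.2) -
            ((p.1 : ℤ) ^ 2 + p.1 * p.2 + (p.2 : ℤ) ^ 2) := by ring
          rw [e]
          exact dvd_sub (h9.mul_right _) h6
        rcases hqI.dvd_or_dvd h10 with h11 | h11
        · have h12 : (q : ℤ) ∣ (p.2 : ℤ) := by
            have e : (p.2 : ℤ) = ((p.1 : ℤ) + p.2) - p.1 := by ring
            rw [e]; exact dvd_sub h9 h11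
          exact ⟨by exact_mod_cast h11, by exact_mod_cast h12⟩
        · have h12 : (q : ℤ) ∣ (p.1 : ℤ) := by
            have e : (p.1 : ℤ) = ((p.1 : ℤ) + p.2) - p.2 := by ring
            rw [e]; exact dvd_sub h9 h11
          exact ⟨by exact_mod_cast h12, by exact_mod_cast h11⟩
    · rintro ⟨hd1, hd2⟩
      have h9 : (q : ℤ) ∣ (p.1 : ℤ) := by exact_mod_cast hd1
      have h10 : (q : ℤ) ∣ (p.2 : ℤ) := by exact_mod_cast hd2
      have h11 : (q : ℤ) ∣ 3 * (mo p).1 := by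
        rw [ha]
        exact dvd_add (dvd_add (h9.pow two_ne_zero) (h9.mul_right _)) (h10.pow two_ne_zero)
      rcases hqI.dvd_or_dvd h11 with h12 | h12
      · exfalso
        have h13 : q ∣ 3 := by exact_mod_cast h12
        have := Nat.le_of_dvd (by norm_num) h13
        omega
      · exact h12
  by_cases hc : q ∣ p.1 ∧ q ∣ p.2
  · rw [if_pos hc, if_pos (hiff.2 hc)]
  · rw [if_neg hc, if_neg (fun hh => hc (hiff.1 hh))]

/-- sorting three distinct integers -/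
theorem sort3 (x y z : ℤ) (h : (x - y) * (x - z) * (y - z) ≠ 0) : ∃ x' y' z' : ℤ,
    x' < y' ∧ y' < z' ∧ x' + y' + z' = x + y + z ∧
    x' * y' + x' * z' + y' * z' = x * y + x * z + y * z ∧ x' * y' * z' = x * y * z := by
  have h1 : x ≠ y := fun hh => h (by rw [hh]; ring)
  have h2 : x ≠ z := fun hh => h (by rw [hh]; ring)
  have h3 : y ≠ z := fun hh => h (by rw [hh]; ring)
  rcases lt_or_gt_of_ne h1 with a | a <;> rcases lt_or_gt_of_ne h2 with b | b <;>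
    rcases lt_or_gt_of_ne h3 with c | c
  · exact ⟨x, y, z, a, c, by ring, by ring, by ring⟩
  · exact ⟨x, z, y, b, c, by ring, by ring, by ring⟩
  · exfalso; omega
  · exact ⟨z, x, y, b, a, by ring, by ring, by ring⟩
  · exact ⟨y, x, z, a, b, by ring, by ring, by ring⟩
  · exfalso; omega
  · exact ⟨y, z, x, c, b, by ring, by ring, by ring⟩
  · exact ⟨z, y, x, c, a, by ring, by ring, by ring⟩

theorem mo_surj {a b : ℤ} (hmin : IsMin a b) (hf : FullS a b) : ∃ p : ℕ × ℕ, Gd p ∧ mo p = (a, b) := by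
  obtain ⟨e₁, e₂, e₃, hs, ha, hb⟩ := fullS_int a b hf
  have hD : D a b = ((e₁ - e₂) * (e₁ - e₃) * (e₂ - e₃)) ^ 2 := by
    unfold D
    rw [ha, hb]
    have h3 : e₃ = -(e₁ + e₂) := by linarith
    rw [h3]
    ring
  have hne : (e₁ - e₂) * (e₁ - e₃) * (e₂ - e₃) ≠ 0 := by
    intro h0
    rw [h0] at hD
    exact hmin.1 (by rw [hD]; norm_num)
  obtain ⟨f₁, f₂, f₃, h12, h23, hs', h2', h3'⟩ := sort3 e₁ e₂ e₃ hne
  rw [hs] at hs'
  rw [← h2'] at ha
  rw [← h3'] at hb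
  obtain ⟨A, hA⟩ := Int.eq_ofNat_of_zero_le (by linarith : 0 ≤ f₂ - f₁)
  obtain ⟨B, hB⟩ := Int.eq_ofNat_of_zero_le (by linarith : 0 ≤ f₃ - f₂)
  have hA0 : 0 < A := by
    have : (0 : ℤ) < A := by rw [← hA]; linarith
    exact_mod_cast this
  have hB0 : 0 < B := by
    have : (0 : ℤ) < B := by rw [← hB]; linarith
    exact_mod_cast this
  have hAB : (A : ℤ) - B = 3 * f₂ := by linarith
  have h3 : (3 : ℤ) ∣ (A : ℤ) - B := ⟨f₂, hAB⟩
  have hmid : mid (A, B) = f₂ := by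
    have := mid_eq (p := (A, B)) h3
    simp only at this
    linarith
  have hroot : ∀ d : ℤ, d ∣ (A : ℤ) → d ∣ (B : ℤ) → d ∣ 3 * f₁ ∧ d ∣ 3 * f₂ ∧ d ∣ 3 * f₃ := by
    intro d h1 h2
    refine ⟨?_, ?_, ?_⟩
    · have : 3 * f₁ = -(2 * (A : ℤ) + B) := by linarith
      rw [this]
      exact (dvd_add (h1.mul_left 2) h2).neg_right
    · rw [← hAB]
      exact dvd_sub h1 h2
    · have : 3 * f₃ = (A : ℤ) + 2 * B := by linarith
      rw [this]
      exact dvd_add h1 (h2.mul_left 2)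
  refine ⟨(A, B), ⟨hA0, hB0, h3, ?_, ?_⟩, ?_⟩
  · rintro q hq hq3 ⟨d1, d2⟩
    have hc : IsCoprime ((q : ℤ) ^ 2) 3 := by
      have : IsCoprime (q : ℤ) 3 := by
        have : Nat.Coprime q 3 := (Nat.coprime_primes hq Nat.prime_three).mpr hq3
        exact_mod_cast Nat.isCoprime_iff_coprime.mpr this
      exact this.pow_left
    obtain ⟨k1, k2, k3⟩ := hroot ((q : ℤ) ^ 2) (by exact_mod_cast d1) (by exact_mod_cast d2)
    exact min_no_sq a b hmin f₁ f₂ f₃ ha hb q hq.two_le (hc.dvd_of_dvd_mul_left k1)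
      (hc.dvd_of_dvd_mul_left k2) (hc.dvd_of_dvd_mul_left k3)
  · rintro ⟨d1, d2⟩
    simp only at d1 d2
    have d1' : (9 : ℤ) ∣ (A : ℤ) := by exact_mod_cast d1
    have k2 : (9 : ℤ) ∣ f₂ := by
      rw [hAB] at d2
      obtain ⟨k, hk⟩ := d2
      exact ⟨k, by linarith⟩
    have k1 : (9 : ℤ) ∣ f₁ := by
      have : f₁ = f₂ - A := by linarith
      rw [this]
      exact dvd_sub k2 d1'
    have k3 : (9 : ℤ) ∣ f₃ := by
      have : f₃ = -(f₁ + f₂) := by linarith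
      rw [this]
      exact (dvd_add k1 k2).neg_right
    exact min_no_sq a b hmin f₁ f₂ f₃ ha hb 3 (by norm_num) (by push_cast; norm_num; exact k1)
      (by push_cast; norm_num; exact k2) (by push_cast; norm_num; exact k3)
  · unfold mo
    rw [hmid]
    simp only
    have e1 : f₂ - (A : ℤ) = f₁ := by linarith
    have e3 : f₂ + (B : ℤ) = f₃ := by linarith
    rw [e1, e3, ha, hb]

theorem mo_inj {p p' : ℕ × ℕ} (h : Gd p) (h' : Gd p') (he : mo p = mo p') : p = p' := by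
  obtain ⟨h1, h2, h3, -, -⟩ := h
  obtain ⟨h1', h2', h3', -, -⟩ := h'
  obtain ⟨r1, r2, r3⟩ := mo_root h3
  have m1 := mid_eq h3
  have m1' := mid_eq h3'
  rw [he] at r1 r2 r3
  have key : ∀ x : ℤ, x ^ 3 = (mo p').1 * x + (mo p').2 →
      x = mid p' - p'.1 ∨ x = mid p' ∨ x = mid p' + p'.2 := by
    intro x hx
    have : (x - (mid p' - p'.1)) * (x - mid p') * (x - (mid p' + p'.2)) = 0 := by
      have e : (x - (mid p' - p'.1)) * (x - mid p') * (x - (mid p' + p'.2)) =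
          x ^ 3 - (mo p').1 * x - (mo p').2 - (3 * mid p' - p'.1 + p'.2) * x ^ 2 := by
        unfold mo
        simp only
        ring
      rw [e, hx, m1']
      ring
    rcases mul_eq_zero.1 this with h4 | h4
    · rcases mul_eq_zero.1 h4 with h5 | h5
      · left; linarith
      · right; left; linarith
    · right; right; linarith
  have k1 := key _ r1
  have k2 := key _ r2
  have k3 := key _ r3
  have p1 : (0 : ℤ) < p.1 := by exact_mod_cast h1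
  have p2 : (0 : ℤ) < p.2 := by exact_mod_cast h2
  have p1' : (0 : ℤ) < p'.1 := by exact_mod_cast h1'
  have p2' : (0 : ℤ) < p'.2 := by exact_mod_cast h2'
  refine Prod.ext ?_ ?_
  · have : (p.1 : ℤ) = p'.1 := by
      rcases k1 with k1 | k1 | k1 <;> rcases k2 with k2 | k2 | k2 <;>
        rcases k3 with k3 | k3 | k3 <;> omega
    exact_mod_cast this
  · have : (p.2 : ℤ) = p'.2 := by
      rcases k1 with k1 | k1 | k1 <;> rcases k2 with k2 | k2 | k2 <;>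
        rcases k3 with k3 | k3 | k3 <;> omega
    exact_mod_cast this

end Pool.Agent.Y679.Par
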