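import Pool.Agent.Y679.Tl

/-! **The pairs of gaps with a large quotient: the sum over the greatest common divisor**
(helper679). -/

set_option autoImplicit false

namespace Pool.Agent.Y679.Par

open Finset Filter Topology Pool.Agent.TH498.AR

/-- the term of a given greatest common divisor -/
theorem term_le {σ γ : ℝ} (hγ : γ = 1 / 3 - σ) (hσ : 0 < σ) (hγ0 : 0 < γ) {N W h : ℝ} (hN : 1 ≤ N)
    (hW : 1 ≤ W) (hh : 1 ≤ h) :
    h ^ (γ / 2) * ((max 1 (W / (324 * h))) ^ (-σ) * (324 * N / h ^ 2) ^ ((2 : ℝ) / 3) +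
      (324 * N / h ^ 2) ^ (2 / 3 - 1 / 120 : ℝ)) ≤
    324 * (h ^ (1 + γ / 4))⁻¹ * (W ^ (-σ) * N ^ ((2 : ℝ) / 3) + N ^ (2 / 3 - 1 / 120 : ℝ)) := by
  have hγ1 : γ ≤ 1 / 3 := by rw [hγ]; linarith
  have hN0 : 0 < N := by linarith
  have hW0 : 0 < W := by linarith
  have hh0 : 0 < h := by linarith
  have e1 : (max 1 (W / (324 * h))) ^ (-σ) ≤ 324 ^ σ * h ^ σ * W ^ (-σ) := by
    have h1 : (max 1 (W / (324 * h))) ^ (-σ) ≤ (W / (324 * h)) ^ (-σ) :=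
      Real.rpow_le_rpow_of_nonpos (by positivity) (le_max_right _ _) (by linarith)
    refine h1.trans (le_of_eq ?_)
    rw [Real.div_rpow hW0.le (by positivity), Real.mul_rpow (by norm_num) hh0.le,
      Real.rpow_neg (by norm_num : (0 : ℝ) ≤ 324), Real.rpow_neg hh0.le]
    field_simp
  have e2 : ∀ s : ℝ, (324 * N / h ^ 2) ^ s = 324 ^ s * N ^ s * h ^ (-(2 * s)) := by
    intro s
    rw [Real.div_rpow (by positivity) (by positivity), Real.mul_rpow (by norm_num) hN0.le,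
      ← Real.rpow_natCast h 2, ← Real.rpow_mul hh0.le, Real.rpow_neg hh0.le]
    push_cast
    rw [div_eq_mul_inv]
  have e3 : ∀ s : ℝ, s ≤ 1 → (324 : ℝ) ^ s ≤ 324 := by
    intro s hs
    calc (324 : ℝ) ^ s ≤ 324 ^ (1 : ℝ) := Real.rpow_le_rpow_of_exponent_le (by norm_num) hs
      _ = 324 := Real.rpow_one _
  have t1 : h ^ (γ / 2) * ((max 1 (W / (324 * h))) ^ (-σ) * (324 * N / h ^ 2) ^ ((2 : ℝ) / 3)) ≤
      324 * (h ^ (1 + γ / 4))⁻¹ * (W ^ (-σ) * N ^ ((2 : ℝ) / 3)) := by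
    calc h ^ (γ / 2) * ((max 1 (W / (324 * h))) ^ (-σ) * (324 * N / h ^ 2) ^ ((2 : ℝ) / 3))
        ≤ h ^ (γ / 2) * ((324 ^ σ * h ^ σ * W ^ (-σ)) *
          (324 ^ ((2 : ℝ) / 3) * N ^ ((2 : ℝ) / 3) * h ^ (-(2 * ((2 : ℝ) / 3))))) := by
          rw [e2]
          gcongr
      _ = 324 ^ (σ + 2 / 3) * h ^ (γ / 2 + σ + -(2 * ((2 : ℝ) / 3))) *
          (W ^ (-σ) * N ^ ((2 : ℝ) / 3)) := by
          rw [Real.rpow_add (by norm_num : (0 : ℝ) < 324), Real.rpow_add hh0, Real.rpow_add hh0]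
          ring
      _ ≤ 324 * (h ^ (1 + γ / 4))⁻¹ * (W ^ (-σ) * N ^ ((2 : ℝ) / 3)) := by
          have f1 : h ^ (γ / 2 + σ + -(2 * ((2 : ℝ) / 3))) ≤ (h ^ (1 + γ / 4))⁻¹ := by
            rw [← Real.rpow_neg hh0.le]
            exact Real.rpow_le_rpow_of_exponent_le hh (by linarith)
          have f2 := e3 (σ + 2 / 3) (by linarith)
          gcongr
  have t2 : h ^ (γ / 2) * (324 * N / h ^ 2) ^ (2 / 3 - 1 / 120 : ℝ) ≤
      324 * (h ^ (1 + γ / 4))⁻¹ * N ^ (2 / 3 - 1 / 120 : ℝ) := by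
    rw [e2]
    calc h ^ (γ / 2) * (324 ^ (2 / 3 - 1 / 120 : ℝ) * N ^ (2 / 3 - 1 / 120 : ℝ) *
          h ^ (-(2 * (2 / 3 - 1 / 120 : ℝ))))
        = 324 ^ (2 / 3 - 1 / 120 : ℝ) * h ^ (γ / 2 + -(2 * (2 / 3 - 1 / 120 : ℝ))) *
          N ^ (2 / 3 - 1 / 120 : ℝ) := by
          rw [Real.rpow_add hh0]
          ring
      _ ≤ 324 * (h ^ (1 + γ / 4))⁻¹ * N ^ (2 / 3 - 1 / 120 : ℝ) := by
          have f1 : h ^ (γ / 2 + -(2 * (2 / 3 - 1 / 120 : ℝ))) ≤ (h ^ (1 + γ / 4))⁻¹ := by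
            rw [← Real.rpow_neg hh0.le]
            exact Real.rpow_le_rpow_of_exponent_le hh (by linarith)
          have f2 := e3 (2 / 3 - 1 / 120) (by norm_num)
          gcongr
  rw [mul_add, mul_add]
  exact add_le_add t1 t2

/-- the sizes -/
theorem size_le {N h s : ℝ} (hN : 1 ≤ N) (hh : 1 ≤ h) (hs : h * s ≤ 2 * N ^ (1 / 3 + 1 / 480 : ℝ)) :
    s ≤ (324 * N / h ^ 2) ^ (1 / 3 + 1 / 240 : ℝ) := by
  have hN0 : 0 < N := by linarith
  have hh0 : 0 < h := by linarith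
  have e2 : (324 * N / h ^ 2) ^ (1 / 3 + 1 / 240 : ℝ) =
      324 ^ (1 / 3 + 1 / 240 : ℝ) * N ^ (1 / 3 + 1 / 240 : ℝ) *
        (h ^ (2 * (1 / 3 + 1 / 240 : ℝ)))⁻¹ := by
    rw [Real.div_rpow (by positivity) (by positivity), Real.mul_rpow (by norm_num) hN0.le,
      ← Real.rpow_natCast h 2, ← Real.rpow_mul hh0.le]
    push_cast
    rw [div_eq_mul_inv]
  rw [e2]
  have h1 : (2 : ℝ) ≤ 324 ^ (1 / 3 + 1 / 240 : ℝ) := by
    calc (2 : ℝ) = (8 : ℝ) ^ (1 / 3 : ℝ) := by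
          rw [show (8 : ℝ) = 2 ^ (3 : ℝ) by norm_num, ← Real.rpow_mul (by norm_num)]
          norm_num
      _ ≤ 324 ^ (1 / 3 : ℝ) := Real.rpow_le_rpow (by norm_num) (by norm_num) (by norm_num)
      _ ≤ _ := Real.rpow_le_rpow_of_exponent_le (by norm_num) (by norm_num)
  have h2 : N ^ (1 / 3 + 1 / 480 : ℝ) ≤ N ^ (1 / 3 + 1 / 240 : ℝ) :=
    Real.rpow_le_rpow_of_exponent_le hN (by norm_num)
  have h3 : h⁻¹ ≤ (h ^ (2 * (1 / 3 + 1 / 240 : ℝ)))⁻¹ := by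
    refine inv_anti₀ (by positivity) ?_
    calc h ^ (2 * (1 / 3 + 1 / 240 : ℝ)) ≤ h ^ (1 : ℝ) :=
          Real.rpow_le_rpow_of_exponent_le hh (by norm_num)
      _ = h := Real.rpow_one _
  calc s = (h * s) * h⁻¹ := by field_simp
    _ ≤ (2 * N ^ (1 / 3 + 1 / 480 : ℝ)) * h⁻¹ := by gcongr
    _ ≤ (324 ^ (1 / 3 + 1 / 240 : ℝ) * N ^ (1 / 3 + 1 / 240 : ℝ)) *
        (h ^ (2 * (1 / 3 + 1 / 240 : ℝ)))⁻¹ := by gcongr

/-- **The pairs with a large quotient.** -/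
theorem tail_pairs {σ : ℝ} (hσ : 0 < σ) (hσ1 : σ < 1 / 3) : ∃ C : ℝ, 0 < C ∧
    ∀ N W : ℝ, 1 ≤ N → 1 ≤ W → ∀ E : Finset (ℕ × ℕ),
    (∀ p ∈ E, Gd p ∧ p.1 ≤ p.2 ∧ (g6 p : ℝ) ≤ N ∧ W * (g6 p : ℝ) < nn p ∧
      ((p.1 + p.2 : ℕ) : ℝ) ≤ 2 * N ^ (1 / 3 + 1 / 480 : ℝ)) →
    (E.card : ℝ) ≤ C * (W ^ (-σ) * N ^ ((2 : ℝ) / 3) + N ^ (2 / 3 - 1 / 120 : ℝ)) := by
  classical
  obtain ⟨γ, hγ⟩ : ∃ γ, γ = 1 / 3 - σ := ⟨_, rfl⟩
  have hγ0 : 0 < γ := by rw [hγ]; linarith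
  obtain ⟨C1, C2, hC1, hC2, hfix⟩ := fixed hσ hσ1
  obtain ⟨D, hD⟩ : ∃ D : ℝ, 1 ≤ D ∧ ∀ n : ℕ, 1 ≤ n →
      C2 ^ n.primeFactors.card ≤ D * (n : ℝ) ^ (γ / 2) := by
    obtain ⟨D, hD, h⟩ := Pool.Agent.H785R2.ABC.stmtA1 C2 hC2 (γ / 2) (by positivity)
    refine ⟨max D 1, le_max_right _ _, fun n hn => (h n hn).trans ?_⟩
    exact mul_le_mul_of_nonneg_right (le_max_left _ _) (by positivity)
  obtain ⟨hD1, hD2⟩ := hD
  obtain ⟨Z, hZ⟩ : ∃ Z : ℝ, Z = ∑' n : ℕ, ((n : ℝ) ^ (1 + γ / 4))⁻¹ := ⟨_, rfl⟩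
  have hsm : Summable fun n : ℕ => ((n : ℝ) ^ (1 + γ / 4))⁻¹ :=
    Real.summable_nat_rpow_inv.2 (by linarith)
  have hZ0 : 0 ≤ Z := by rw [hZ]; exact tsum_nonneg fun n => by positivity
  refine ⟨C1 * C2 ^ 2 * D * 324 * (Z + 1), by positivity, ?_⟩
  intro N W hN hW E hE
  have hN0 : 0 < N := by linarith
  have hW0 : 0 < W := by linarith
  obtain ⟨B, hB⟩ : ∃ B : ℕ, B = ⌊2 * N ^ (1 / 3 + 1 / 480 : ℝ)⌋₊ := ⟨_, rfl⟩
  obtain ⟨S, hS⟩ : ∃ S : ℝ, S = W ^ (-σ) * N ^ ((2 : ℝ) / 3) + N ^ (2 / 3 - 1 / 120 : ℝ) :=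
    ⟨_, rfl⟩
  have hS0 : 0 ≤ S := by rw [hS]; positivity
  rw [← hS]
  have hmaps : ∀ p ∈ E, Nat.gcd p.1 p.2 ∈ Icc 1 B := by
    intro p hp
    obtain ⟨⟨h1, h2, -⟩, -, -, -, h5⟩ := hE p hp
    have h6 : p.1 + p.2 ≤ B := by rw [hB]; exact Nat.le_floor h5
    have h7 := Nat.gcd_le_left p.2 h1
    exact mem_Icc.2 ⟨Nat.gcd_pos_of_pos_left _ h1, by omega⟩
  have hone : ∀ h ∈ Icc 1 B, ((E.filter (fun p => Nat.gcd p.1 p.2 = h)).card : ℝ) ≤
      C1 * C2 ^ 2 * D * 324 * (((h : ℝ) ^ (1 + γ / 4))⁻¹ * S) := by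
    intro h hh
    obtain ⟨hh1, -⟩ := mem_Icc.1 hh
    have hhr : (1 : ℝ) ≤ h := by exact_mod_cast hh1
    have hhr0 : (0 : ℝ) < h := by linarith
    rcases (E.filter (fun p => Nat.gcd p.1 p.2 = h)).eq_empty_or_nonempty with he | ⟨p0, hp0⟩
    · rw [he, card_empty, Nat.cast_zero]
      positivity
    obtain ⟨Y, hY⟩ : ∃ Y : ℝ, Y = 324 * N / (h : ℝ) ^ 2 := ⟨_, rfl⟩
    have hY0 : 0 < Y := by rw [hY]; positivity
    have hdec : ∀ p ∈ E.filter (fun p => Nat.gcd p.1 p.2 = h),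
        p.1 = h * (p.1 / h) ∧ p.2 = h * (p.2 / h) := by
      intro p hp
      have hg := (mem_filter.1 hp).2
      constructor
      · rw [← hg]; exact (Nat.mul_div_cancel' (Nat.gcd_dvd_left _ _)).symm
      · rw [← hg]; exact (Nat.mul_div_cancel' (Nat.gcd_dvd_right _ _)).symm
    have hcondr : ∀ p ∈ E.filter (fun p => Nat.gcd p.1 p.2 = h),
        (h : ℝ) ^ 2 * (radP (P6 h) ((p.1 / h) * (p.2 / h) * (p.1 / h + p.2 / h)) : ℝ) ≤
          324 * (g6 p : ℝ) := by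
      intro p hp
      obtain ⟨hpE, hg⟩ := mem_filter.1 hp
      obtain ⟨d1, d2⟩ := hdec p hp
      exact_mod_cast g6_ge (hE p hpE).1 hg.symm d1 d2
    have hradY : ∀ p ∈ E.filter (fun p => Nat.gcd p.1 p.2 = h),
        (radP (P6 h) ((p.1 / h) * (p.2 / h) * (p.1 / h + p.2 / h)) : ℝ) ≤ Y := by
      intro p hp
      have h1 := hcondr p hp
      have h2 := (hE p (mem_filter.1 hp).1).2.2.1
      rw [hY, le_div_iff₀ (by positivity)]
      linarith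
    have hY1 : 1 ≤ Y := by
      refine le_trans ?_ (hradY p0 hp0)
      exact_mod_cast radP_pos _ _
    obtain ⟨E', hE'⟩ : ∃ E', E' = (E.filter (fun p => Nat.gcd p.1 p.2 = h)).image
      (fun p => (p.1 / h, p.2 / h)) := ⟨_, rfl⟩
    have hcard : (E.filter (fun p => Nat.gcd p.1 p.2 = h)).card = E'.card := by
      rw [hE']
      refine (card_image_of_injOn ?_).symm
      intro p hp p' hp' heq
      obtain ⟨d1, d2⟩ := hdec p hp
      obtain ⟨d1', d2'⟩ := hdec p' hp'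
      simp only [Prod.mk.injEq] at heq
      refine Prod.ext ?_ ?_
      · rw [d1, d1', heq.1]
      · rw [d2, d2', heq.2]
    rw [hcard]
    have hmain := hfix (P6 h) Y (max 1 (W / (324 * h))) hY1 (le_max_left _ _) E' (by
      intro x hx
      rw [hE', mem_image] at hx
      obtain ⟨p, hp, rfl⟩ := hx
      obtain ⟨hpE, hg⟩ := mem_filter.1 hp
      obtain ⟨hGd, hle, hN', hW', hsz⟩ := hE p hpE
      obtain ⟨d1, d2⟩ := hdec p hp
      have u0 : 0 < p.1 / h := Nat.pos_of_ne_zero fun h0 => by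
        have := hGd.1
        rw [h0, mul_zero] at d1
        omega
      have v0 : 0 < p.2 / h := Nat.pos_of_ne_zero fun h0 => by
        have := hGd.2.1
        rw [h0, mul_zero] at d2
        omega
      have hcop : Nat.Coprime (p.1 / h) (p.2 / h) := by
        have := Nat.coprime_div_gcd_div_gcd (m := p.1) (n := p.2)
          (Nat.gcd_pos_of_pos_left _ hGd.1)
        rwa [hg] at this
      refine ⟨u0, Nat.div_le_div_right hle, hcop, hradY p hp, ?_, ?_⟩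
      · rw [hY]
        refine size_le hN hhr ?_
        refine le_trans (le_of_eq ?_) hsz
        have : p.1 + p.2 = h * (p.1 / h + p.2 / h) := by
          rw [mul_add, ← d1, ← d2]
        exact_mod_cast this.symm
      · have hpsi := coprime3 (P := P6 h) (p := (p.1 / h, p.2 / h)) hcop
        simp only at hpsi
        have hr0 : (0 : ℝ) < (radP (P6 h) ((p.1 / h) * (p.2 / h) * (p.1 / h + p.2 / h)) : ℝ) := by
          exact_mod_cast radP_pos _ _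
        have hnn : (nn p : ℝ) = (h : ℝ) ^ 3 * ((psi3 (P6 h) (p.1 / h, p.2 / h) : ℝ) *
            (radP (P6 h) ((p.1 / h) * (p.2 / h) * (p.1 / h + p.2 / h)) : ℝ)) := by
          have : nn p = h ^ 3 * (psi3 (P6 h) (p.1 / h, p.2 / h) *
              radP (P6 h) ((p.1 / h) * (p.2 / h) * (p.1 / h + p.2 / h))) := by
            rw [hpsi]
            unfold nn
            calc p.1 * p.2 * (p.1 + p.2) = (h * (p.1 / h)) * (h * (p.2 / h)) *
                ((h * (p.1 / h)) + (h * (p.2 / h))) := by rw [← d1, ← d2]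
              _ = _ := by ring
          exact_mod_cast this
        refine max_le ?_ ?_
        · have h9 : 0 < psi3 (P6 h) (p.1 / h, p.2 / h) := by
            rcases Nat.eq_zero_or_pos (psi3 (P6 h) (p.1 / h, p.2 / h)) with h0 | h0
            · rw [h0, zero_mul] at hpsi
              have : 0 < (p.1 / h) * (p.2 / h) * (p.1 / h + p.2 / h) := by positivity
              omega
            · exact h0
          exact_mod_cast h9
        · rw [div_le_iff₀ (by positivity)]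
          have h9 := hcondr p hp
          rw [hnn] at hW'
          have h10 : W * ((h : ℝ) ^ 2 *
              (radP (P6 h) ((p.1 / h) * (p.2 / h) * (p.1 / h + p.2 / h)) : ℝ)) <
              324 * ((h : ℝ) ^ 3 * ((psi3 (P6 h) (p.1 / h, p.2 / h) : ℝ) *
            (radP (P6 h) ((p.1 / h) * (p.2 / h) * (p.1 / h + p.2 / h)) : ℝ))) := by
            have := mul_le_mul_of_nonneg_left h9 hW0.le
            linarith
          have h11 : (0 : ℝ) < (h : ℝ) ^ 2 *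
              (radP (P6 h) ((p.1 / h) * (p.2 / h) * (p.1 / h + p.2 / h)) : ℝ) := by positivity
          have h12 : W * ((h : ℝ) ^ 2 *
              (radP (P6 h) ((p.1 / h) * (p.2 / h) * (p.1 / h + p.2 / h)) : ℝ)) <
              ((psi3 (P6 h) (p.1 / h, p.2 / h) : ℝ) * (324 * h)) * ((h : ℝ) ^ 2 *
              (radP (P6 h) ((p.1 / h) * (p.2 / h) * (p.1 / h + p.2 / h)) : ℝ)) := by
            refine lt_of_lt_of_eq h10 ?_
            ring
          exact (lt_of_mul_lt_mul_right h12 h11.le).le)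
    have hpow : C2 ^ (P6 h).card ≤ C2 ^ 2 * (D * (h : ℝ) ^ (γ / 2)) := by
      calc C2 ^ (P6 h).card ≤ C2 ^ (2 + h.primeFactors.card) :=
            pow_le_pow_right₀ hC2 (P6_card h hh1)
        _ = C2 ^ 2 * C2 ^ h.primeFactors.card := pow_add _ _ _
        _ ≤ _ := mul_le_mul_of_nonneg_left (hD2 h hh1) (by positivity)
    have hterm := term_le hγ hσ hγ0 hN hW hhr
    rw [← hY] at hterm
    have hC10 : 0 < C1 := by linarith
    have hC20 : 0 < C2 := by linarith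
    have hD0 : 0 < D := by linarith
    obtain ⟨T, hT⟩ : ∃ T : ℝ, T = (max 1 (W / (324 * h))) ^ (-σ) * Y ^ ((2 : ℝ) / 3) +
      Y ^ (2 / 3 - 1 / 120 : ℝ) := ⟨_, rfl⟩
    have hT0 : 0 ≤ T := by
      rw [hT]
      have : (0 : ℝ) < max 1 (W / (324 * h)) := lt_of_lt_of_le one_pos (le_max_left _ _)
      positivity
    rw [← hT] at hterm hmain
    rw [← hS] at hterm
    calc (E'.card : ℝ) ≤ C1 * C2 ^ (P6 h).card * T := hmain
      _ ≤ C1 * (C2 ^ 2 * (D * (h : ℝ) ^ (γ / 2))) * T := by gcongr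
      _ = C1 * C2 ^ 2 * D * ((h : ℝ) ^ (γ / 2) * T) := by ring
      _ ≤ C1 * C2 ^ 2 * D * (324 * ((h : ℝ) ^ (1 + γ / 4))⁻¹ * S) := by gcongr
      _ = _ := by ring
  calc (E.card : ℝ) = ∑ h ∈ Icc 1 B, ((E.filter (fun p => Nat.gcd p.1 p.2 = h)).card : ℝ) := by
        exact_mod_cast card_eq_sum_card_fiberwise hmaps
    _ ≤ ∑ h ∈ Icc 1 B, C1 * C2 ^ 2 * D * 324 * (((h : ℝ) ^ (1 + γ / 4))⁻¹ * S) :=
        sum_le_sum hone
    _ = C1 * C2 ^ 2 * D * 324 * ((∑ h ∈ Icc 1 B, ((h : ℝ) ^ (1 + γ / 4))⁻¹) * S) := by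
        rw [← mul_sum, ← sum_mul]
    _ ≤ C1 * C2 ^ 2 * D * 324 * ((Z + 1) * S) := by
        have h1 : ∑ h ∈ Icc 1 B, ((h : ℝ) ^ (1 + γ / 4))⁻¹ ≤ Z := by
          rw [hZ]
          exact hsm.sum_le_tsum _ fun n _ => by positivity
        have h2 : 0 ≤ C1 * C2 ^ 2 * D * 324 := by positivity
        refine mul_le_mul_of_nonneg_left (mul_le_mul_of_nonneg_right (by linarith) hS0) h2
    _ = _ := by ring

end Pool.Agent.Y679.Par
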